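import Pool.Agent.IsoHnn.Gap

/-!
# The class of groups

`NormIn N Γ`: `N` is a normal subgroup of `Γ` (subgroups of an ambient group).
`Good Γ K`: for every normal subgroup `L ≠ Γ` of `Γ` with `Γ ⊓ K ≤ L` there is a normal subgroup
`N = N L` of `Γ`, not contained in `L`, such that for all `c ∈ Γ` and `w, w' ∈ N` one of the following
holds: the window `⟨c ^ n w c ^ -n, c ^ n w' c ^ -n : n ≥ 0⟩` is hyper-NFS modulo `L`, or the window of
`c⁻¹` is, or the group `⟨c, w, w'⟩` is good modulo `L`.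
-/

set_option autoImplicit false

namespace Pool.Agent.IsoHnn

open Pool.Agent.IsoOrd

/-- `N` is a normal subgroup of `Γ` -/
structure NormIn {G : Type*} [Group G] (N Γ : Subgroup G) : Prop where
  le : N ≤ Γ
  conj : ∀ g ∈ Γ, ∀ n ∈ N, g * n * g⁻¹ ∈ N

/-- the class of groups -/
inductive Good {G : Type*} [Group G] : Subgroup G → Subgroup G → Prop
  | intro (Γ K : Subgroup G) (N : Subgroup G → Subgroup G)
      (hN : ∀ L, NormIn L Γ → Γ ⊓ K ≤ L → L ≠ Γ → NormIn (N L) Γ ∧ ¬ N L ≤ L)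
      (hw : ∀ L, NormIn L Γ → Γ ⊓ K ≤ L → L ≠ Γ → ∀ c ∈ Γ, ∀ w ∈ N L, ∀ w' ∈ N L,
        ¬ HNrel (win c w w') (L.subgroupOf (win c w w')) →
        ¬ HNrel (win c⁻¹ w' w) (L.subgroupOf (win c⁻¹ w' w)) →
        Good (Subgroup.closure {c, w, w'}) L) : Good Γ K

end Pool.Agent.IsoHnn
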