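import Pool.Agent.IsoHnn.Cls

/-!
# Heredity of the class `Good`

`Good.sub'`: subgroups. `Good.comap'`: groups mapping to a good group. `Good.of_hn`: relatively
hyper-NFS groups are good. `Good.of_local`: groups whose subgroups with three generators are good.
`Good.ext`: extensions.
-/

set_option autoImplicit false

namespace Pool.Agent.IsoHnn

open Pool.Agent.IsoOrd

section aux

variable {G : Type*} [Group G]

theorem HNrel.mono {K K' : Subgroup G} (h : HNrel G K) (hK : K ≤ K') : HNrel G K' :=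
  fun L hL hK' hne => h L hL (hK.trans hK') hne

theorem HNrel.surj {H : Type*} [Group H] (f : G →* H) (hf : Function.Surjective f)
    {K : Subgroup G} (h : HNrel G K) : HNrel H (K.map f) := by
  intro L hL hK hne
  have h1 : (L.comap f).Normal := inferInstance
  obtain ⟨N, hN, hlt, hrel⟩ := h (L.comap f) h1 (Subgroup.map_le_iff_le_comap.1 hK) (by
    intro h2
    apply hne
    rw [eq_top_iff]
    intro x _
    obtain ⟨y, rfl⟩ := hf x
    have h3 : y ∈ L.comap f := by rw [h2]; exact Subgroup.mem_top y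
    exact h3)
  refine ⟨N.map f, hN.map f hf, ?_, ?_⟩
  · refine lt_of_le_of_ne (fun x hx => ?_) (fun h2 => hlt.ne ?_)
    · obtain ⟨y, rfl⟩ := hf x
      exact Subgroup.mem_map_of_mem f (hlt.le hx)
    · apply le_antisymm hlt.le
      intro y hy
      rw [Subgroup.mem_comap, h2]
      exact Subgroup.mem_map_of_mem f hy
  · rintro _ ⟨a, ha, rfl⟩ _ ⟨b, hb, rfl⟩
    obtain ⟨w₁, w₂, hw, h2⟩ := hrel a ha b hb
    refine ⟨w₁, w₂, hw, ?_⟩
    rw [← map_ev, ← map_ev, ← map_inv, ← map_mul]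
    exact h2

/-- products of two subgroups -/
theorem mem_sup_norm {M T : Subgroup G} (hT : ∀ g ∈ M, ∀ t ∈ T, g * t * g⁻¹ ∈ T) {y : G}
    (hy : y ∈ M ⊔ T) : ∃ m ∈ M, ∃ t ∈ T, y = m * t := by
  let P : Subgroup G :=
    { carrier := {y | ∃ m ∈ M, ∃ t ∈ T, y = m * t}
      mul_mem' := by
        rintro _ _ ⟨m, hm, t, ht, rfl⟩ ⟨m', hm', t', ht', rfl⟩
        refine ⟨m * m', mul_mem hm hm', (m'⁻¹ * t * m'⁻¹⁻¹) * t',
          mul_mem (hT _ (inv_mem hm') _ ht) ht', ?_⟩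
        group
      one_mem' := ⟨1, one_mem M, 1, one_mem T, by group⟩
      inv_mem' := by
        rintro _ ⟨m, hm, t, ht, rfl⟩
        refine ⟨m⁻¹, inv_mem hm, m * t⁻¹ * m⁻¹, hT _ hm _ (inv_mem ht), ?_⟩
        group }
  have h1 : M ⊔ T ≤ P := sup_le (fun m hm => ⟨m, hm, 1, one_mem T, by group⟩)
    (fun t ht => ⟨1, one_mem M, t, ht, by group⟩)
  exact h1 hy

theorem norm_sup {Γ A B : Subgroup G} (hA : ∀ g ∈ Γ, ∀ t ∈ A, g * t * g⁻¹ ∈ A)
    (hB : ∀ g ∈ Γ, ∀ t ∈ B, g * t * g⁻¹ ∈ B) : ∀ g ∈ Γ, ∀ t ∈ A ⊔ B, g * t * g⁻¹ ∈ A ⊔ B := by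
  intro g hg t ht
  have h1 : A ⊔ B ≤ (A ⊔ B).comap (MulAut.conj g).toMonoidHom :=
    sup_le (fun a ha => Subgroup.mem_sup_left (hA g hg a ha))
      (fun b hb => Subgroup.mem_sup_right (hB g hg b hb))
  exact h1 ht

theorem norm_self {M T : Subgroup G} (hT : ∀ g ∈ M, ∀ t ∈ T, g * t * g⁻¹ ∈ T) :
    ∀ g ∈ M ⊔ T, ∀ t ∈ T, g * t * g⁻¹ ∈ T := by
  intro g hg t ht
  obtain ⟨m, hm, s, hs, rfl⟩ := mem_sup_norm hT hg
  have h1 : m * s * t * (m * s)⁻¹ = m * (s * t * s⁻¹) * m⁻¹ := by group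
  rw [h1]
  exact hT m hm _ (mul_mem (mul_mem hs ht) (inv_mem hs))

theorem subgroupOf_normal {M T : Subgroup G} (hT : ∀ g ∈ M, ∀ t ∈ T, g * t * g⁻¹ ∈ T) :
    (T.subgroupOf M).Normal := by
  refine ⟨fun x hx g => ?_⟩
  rw [Subgroup.mem_subgroupOf] at hx ⊢
  exact hT _ g.2 _ hx

/-- relative hyper-NFS groups: subgroups modulo `T` -/
theorem HNrel.sub' {M M₁ T : Subgroup G} (hT : ∀ g ∈ M, ∀ t ∈ T, g * t * g⁻¹ ∈ T)
    (h : HNrel M (T.subgroupOf M)) (h₁ : M₁ ≤ M ⊔ T) : HNrel M₁ (T.subgroupOf M₁) := by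
  have hn : (T.subgroupOf (M ⊔ T)).Normal := subgroupOf_normal (norm_self hT)
  let π : ↥(M ⊔ T) →* ↥(M ⊔ T) ⧸ T.subgroupOf (M ⊔ T) := QuotientGroup.mk' _
  let f : M →* ↥(M ⊔ T) ⧸ T.subgroupOf (M ⊔ T) :=
    π.comp (Subgroup.inclusion (le_sup_left : M ≤ M ⊔ T))
  have hf : Function.Surjective f := by
    intro x
    obtain ⟨⟨y, hy⟩, rfl⟩ := QuotientGroup.mk'_surjective _ x
    obtain ⟨m, hm, t, ht, rfl⟩ := mem_sup_norm hT hy
    refine ⟨⟨m, hm⟩, ?_⟩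
    change QuotientGroup.mk' _ _ = QuotientGroup.mk' _ _
    rw [QuotientGroup.mk'_apply, QuotientGroup.mk'_apply, QuotientGroup.eq,
      Subgroup.mem_subgroupOf]
    change m⁻¹ * (m * t) ∈ T
    rwa [inv_mul_cancel_left]
  have h2 := h.surj f hf
  have h3 : (T.subgroupOf M).map f ≤ ⊥ := by
    rintro _ ⟨x, hx, rfl⟩
    rw [Subgroup.mem_bot]
    change QuotientGroup.mk' _ _ = 1
    rw [QuotientGroup.mk'_apply, QuotientGroup.eq_one_iff, Subgroup.mem_subgroupOf]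
    exact hx
  have h4 := (h2.mono h3).comap inferInstance (π.comp (Subgroup.inclusion h₁))
  refine h4.mono ?_
  intro x hx
  rw [Subgroup.mem_comap, Subgroup.mem_bot] at hx
  change QuotientGroup.mk' _ _ = 1 at hx
  rw [QuotientGroup.mk'_apply, QuotientGroup.eq_one_iff, Subgroup.mem_subgroupOf] at hx
  exact hx

end aux

section main

variable {G : Type*} [Group G]

theorem Good.mono {Γ K K' : Subgroup G} (h : Good Γ K) (hK : Γ ⊓ K ≤ K') : Good Γ K' := by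
  cases h with
  | intro _ _ N hN hw =>
    exact Good.intro Γ K' N (fun L hL hKL hne => hN L hL ((le_inf inf_le_left hK).trans hKL) hne)
      (fun L hL hKL hne => hw L hL ((le_inf inf_le_left hK).trans hKL) hne)

theorem win_le {D : Subgroup G} {c w w' : G} (hc : c ∈ D) (hw : w ∈ D) (hw' : w' ∈ D) :
    win c w w' ≤ D := by
  unfold win
  rw [Subgroup.closure_le]
  rintro g ⟨n, rfl | rfl⟩
  · exact mul_mem (mul_mem (pow_mem hc n) hw) (inv_mem (pow_mem hc n))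
  · exact mul_mem (mul_mem (pow_mem hc n) hw') (inv_mem (pow_mem hc n))

theorem closure3_le {D : Subgroup G} {c w w' : G} (hc : c ∈ D) (hw : w ∈ D) (hw' : w' ∈ D) :
    Subgroup.closure {c, w, w'} ≤ D := by
  rw [Subgroup.closure_le]
  rintro g (rfl | rfl | rfl)
  · exact hc
  · exact hw
  · exact hw'

private theorem pow_mod {Γ T : Subgroup G} (hT : ∀ g ∈ Γ, ∀ t ∈ T, g * t * g⁻¹ ∈ T) {γ t : G}
    (hγ : γ ∈ Γ) (ht : t ∈ T) (k : ℕ) : ∃ s ∈ T, (γ * t) ^ k = γ ^ k * s := by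
  induction k with
  | zero => exact ⟨1, one_mem T, by group⟩
  | succ k ih =>
    obtain ⟨s, hs, h⟩ := ih
    refine ⟨γ⁻¹ * s * γ⁻¹⁻¹ * t, mul_mem (hT _ (inv_mem hγ) _ hs) ht, ?_⟩
    rw [pow_succ, h, pow_succ]
    group

private theorem conj_mod {Γ T W : Subgroup G} (hT : ∀ g ∈ Γ, ∀ t ∈ T, g * t * g⁻¹ ∈ T)
    {γ t n s : G} (hγ : γ ∈ Γ) (ht : t ∈ T) (hn : n ∈ Γ) (hs : s ∈ T) (k : ℕ)
    (hW : γ ^ k * n * (γ ^ k)⁻¹ ∈ W) :
    (γ * t) ^ k * (n * s) * ((γ * t) ^ k)⁻¹ ∈ W ⊔ T := by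
  obtain ⟨u, hu, h⟩ := pow_mod hT hγ ht k
  rw [h]
  have h1 : γ ^ k * u * (n * s) * (γ ^ k * u)⁻¹ = γ ^ k * n * (γ ^ k)⁻¹ *
      (γ ^ k * ((n⁻¹ * u * n⁻¹⁻¹) * s * u⁻¹) * (γ ^ k)⁻¹) := by group
  rw [h1]
  refine mul_mem (Subgroup.mem_sup_left hW) (Subgroup.mem_sup_right ?_)
  exact hT _ (pow_mem hγ k) _ (mul_mem (mul_mem (hT _ (inv_mem hn) _ hu) hs) (inv_mem hu))

/-- windows modulo a normal subgroup -/
theorem win_mod {Γ T : Subgroup G} (hT : ∀ g ∈ Γ, ∀ t ∈ T, g * t * g⁻¹ ∈ T)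
    {γ t n s n' s' : G} (hγ : γ ∈ Γ) (ht : t ∈ T) (hn : n ∈ Γ) (hs : s ∈ T) (hn' : n' ∈ Γ)
    (hs' : s' ∈ T) : win (γ * t) (n * s) (n' * s') ≤ win γ n n' ⊔ T := by
  unfold win
  rw [Subgroup.closure_le]
  rintro g ⟨k, rfl | rfl⟩
  · exact conj_mod hT hγ ht hn hs k (Subgroup.subset_closure ⟨k, Or.inl rfl⟩)
  · exact conj_mod hT hγ ht hn' hs' k (Subgroup.subset_closure ⟨k, Or.inr rfl⟩)

private theorem exists_Lmax {Γ T D L : Subgroup G} (hT : ∀ g ∈ Γ, ∀ t ∈ T, g * t * g⁻¹ ∈ T)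
    (hL : D ⊓ T ≤ L) : ∃ L', (NormIn L' Γ ∧ Γ ⊓ T ≤ L' ∧ (L' ⊔ T) ⊓ D ≤ L) ∧
      ∀ S, NormIn S Γ → L' ≤ S → (S ⊔ T) ⊓ D ≤ L → S ≤ L' := by
  have h0 : NormIn (Γ ⊓ T) Γ := by
    refine ⟨inf_le_left, fun g hg n hn => ⟨Γ.mul_mem (Γ.mul_mem hg hn.1) (Γ.inv_mem hg), ?_⟩⟩
    exact hT g hg n hn.2
  obtain ⟨S, hKS, hS⟩ := zorn_le_nonempty₀
    {S : Subgroup G | NormIn S Γ ∧ Γ ⊓ T ≤ S ∧ (S ⊔ T) ⊓ D ≤ L} (by
      intro c hc hch y hy
      have hcne : c.Nonempty := ⟨y, hy⟩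
      have hle : sSup c ≤ Γ := sSup_le fun s hs => (hc hs).1.le
      refine ⟨sSup c, ⟨⟨hle, ?_⟩, (hc hy).2.1.trans (le_sSup hy), ?_⟩, fun z hz => le_sSup hz⟩
      · intro g hg n hn
        rw [Subgroup.mem_sSup_of_directedOn hcne hch.directedOn] at hn ⊢
        obtain ⟨s, hs, hns⟩ := hn
        exact ⟨s, hs, (hc hs).1.conj g hg n hns⟩
      · rintro x ⟨hx1, hx2⟩
        obtain ⟨m, hm, t, ht, rfl⟩ := mem_sup_norm (fun g hg => hT g (hle hg)) hx1
        rw [Subgroup.mem_sSup_of_directedOn hcne hch.directedOn] at hm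
        obtain ⟨s, hs, hms⟩ := hm
        exact (hc hs).2.2 ⟨mul_mem (Subgroup.mem_sup_left hms) (Subgroup.mem_sup_right ht), hx2⟩)
    (Γ ⊓ T) ⟨h0, le_rfl, by
      rintro x ⟨hx1, hx2⟩
      rw [sup_eq_right.2 (inf_le_right : Γ ⊓ T ≤ T)] at hx1
      exact hL ⟨hx2, hx1⟩⟩
  refine ⟨S, hS.prop, fun S' h1 h2 h3 => ?_⟩
  exact hS.le_of_ge ⟨h1, hS.prop.2.1.trans h2, h3⟩ h2

/-- heredity: subgroups modulo `T` -/
theorem Good.sub' {Γ K : Subgroup G} (h : Good Γ K) : ∀ T D : Subgroup G,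
    (∀ g ∈ Γ, ∀ t ∈ T, g * t * g⁻¹ ∈ T) → Γ ⊓ K ≤ T → D ≤ Γ ⊔ T → Good D T := by
  induction h with
  | intro Γ K N hN hw ih =>
    intro T D hT hKT hD
    have key : ∀ L, NormIn L D → D ⊓ T ≤ L → L ≠ D → ∃ L',
        (NormIn L' Γ ∧ Γ ⊓ K ≤ L' ∧ (L' ⊔ T) ⊓ D ≤ L) ∧ L' ≠ Γ ∧
          ∀ S, NormIn S Γ → L' ≤ S → (S ⊔ T) ⊓ D ≤ L → S ≤ L' := by
      intro L hLD hL hne
      obtain ⟨L', ⟨h1, h2, h3⟩, h4⟩ := exists_Lmax hT hL
      refine ⟨L', ⟨h1, (le_inf inf_le_left hKT).trans h2, h3⟩, ?_, h4⟩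
      rintro rfl
      apply hne
      apply le_antisymm hLD.le
      exact fun x hx => h3 ⟨hD hx, hx⟩
    choose! L' hL' hL'ne hmax using key
    have hU : ∀ L, NormIn L D → D ⊓ T ≤ L → L ≠ D →
        ∀ g ∈ Γ, ∀ t ∈ N (L' L) ⊔ (L' L ⊔ T), g * t * g⁻¹ ∈ N (L' L) ⊔ (L' L ⊔ T) := by
      intro L h1 h2 h3
      refine norm_sup ?_ (norm_sup ?_ hT)
      · exact (hN _ (hL' L h1 h2 h3).1 (hL' L h1 h2 h3).2.1 (hL'ne L h1 h2 h3)).1.conj
      · exact (hL' L h1 h2 h3).1.conj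
    refine Good.intro D T (fun L => (N (L' L) ⊔ (L' L ⊔ T)) ⊓ D) ?_ ?_
    · intro L h1 h2 h3
      obtain ⟨g1, g2, g3⟩ := hL' L h1 h2 h3
      have g4 := hL'ne L h1 h2 h3
      obtain ⟨g5, g6⟩ := hN _ g1 g2 g4
      refine ⟨⟨inf_le_right, ?_⟩, ?_⟩
      · rintro g hg x ⟨hx1, hx2⟩
        refine ⟨?_, D.mul_mem (D.mul_mem hg hx2) (D.inv_mem hg)⟩
        obtain ⟨γ, hγ, t, ht, rfl⟩ := mem_sup_norm hT (hD hg)
        have e : γ * t * x * (γ * t)⁻¹ = γ * (t * x * t⁻¹) * γ⁻¹ := by group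
        rw [e]
        refine hU L h1 h2 h3 γ hγ _ ?_
        have ht' : t ∈ N (L' L) ⊔ (L' L ⊔ T) :=
          Subgroup.mem_sup_right (Subgroup.mem_sup_right ht)
        exact mul_mem (mul_mem ht' hx1) (inv_mem ht')
      · intro hle
        apply g6
        have g7 : NormIn (N (L' L) ⊔ L' L) Γ :=
          ⟨sup_le g5.le g1.le, norm_sup g5.conj g1.conj⟩
        have g8 := hmax L h1 h2 h3 _ g7 le_sup_right (by
          rw [sup_assoc]
          exact hle)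
        exact le_sup_left.trans g8
    · rintro L h1 h2 h3 c hc w ⟨hw1, hw2⟩ w' ⟨hw1', hw2'⟩ hn1 hn2
      obtain ⟨g1, g2, g3⟩ := hL' L h1 h2 h3
      have g4 := hL'ne L h1 h2 h3
      obtain ⟨g5, g6⟩ := hN _ g1 g2 g4
      have hT₁ : ∀ g ∈ Γ, ∀ t ∈ L' L ⊔ T, g * t * g⁻¹ ∈ L' L ⊔ T := norm_sup g1.conj hT
      obtain ⟨γ, hγ, t, ht, hcγ⟩ := mem_sup_norm hT (hD hc)
      have ht' : t ∈ L' L ⊔ T := Subgroup.mem_sup_right ht
      obtain ⟨n, hn, s, hs, hwn⟩ := mem_sup_norm (fun g hg => hT₁ g (g5.le hg)) hw1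
      obtain ⟨n', hn', s', hs', hwn'⟩ := mem_sup_norm (fun g hg => hT₁ g (g5.le hg)) hw1'
      have trans : ∀ (a a' b b' u u' : G), a ∈ Γ → a' ∈ L' L ⊔ T → b ∈ Γ → b' ∈ L' L ⊔ T →
          u ∈ Γ → u' ∈ L' L ⊔ T → a * a' ∈ D → b * b' ∈ D → u * u' ∈ D →
          HNrel (win a b u) ((L' L).subgroupOf (win a b u)) →
          HNrel (win (a * a') (b * b') (u * u'))
            (L.subgroupOf (win (a * a') (b * b') (u * u'))) := by
        intro a a' b b' u u' ha ha' hb hb' hu hu' hD1 hD2 hD3 hh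
        have i1 : HNrel (win a b u) ((L' L ⊔ T).subgroupOf (win a b u)) :=
          hh.mono fun x hx => by
            rw [Subgroup.mem_subgroupOf] at hx ⊢
            exact Subgroup.mem_sup_left hx
        have i2 := i1.sub' (fun g hg => hT₁ g (win_le ha hb hu hg))
          (win_mod hT₁ ha ha' hb hb' hu hu')
        refine i2.mono fun x hx => ?_
        rw [Subgroup.mem_subgroupOf] at hx ⊢
        exact g3 ⟨hx, win_le hD1 hD2 hD3 x.2⟩
      have k1 : ¬ HNrel (win γ n n') ((L' L).subgroupOf (win γ n n')) := by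
        intro hh
        apply hn1
        rw [hcγ, hwn, hwn']
        exact trans γ t n s n' s' hγ ht' (g5.le hn) hs (g5.le hn') hs' (hcγ ▸ hc) (hwn ▸ hw2)
          (hwn' ▸ hw2') hh
      have k2 : ¬ HNrel (win γ⁻¹ n' n) ((L' L).subgroupOf (win γ⁻¹ n' n)) := by
        intro hh
        apply hn2
        have e : c⁻¹ = γ⁻¹ * (γ * t⁻¹ * γ⁻¹) := by rw [hcγ]; group
        rw [e, hwn, hwn']
        exact trans γ⁻¹ (γ * t⁻¹ * γ⁻¹) n' s' n s (inv_mem hγ) (hT₁ γ hγ _ (inv_mem ht'))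
          (g5.le hn') hs' (g5.le hn) hs (e ▸ inv_mem hc) (hwn' ▸ hw2') (hwn ▸ hw2) hh
      have k3 := ih (L' L) g1 g2 g4 γ hγ n hn n' hn' k1 k2 (L' L ⊔ T)
        (Subgroup.closure {c, w, w'})
        (fun g hg => hT₁ g (closure3_le hγ (g5.le hn) (g5.le hn') hg))
        (inf_le_right.trans le_sup_left) (by
          refine closure3_le ?_ ?_ ?_
          · rw [hcγ]
            exact mul_mem (Subgroup.mem_sup_left (Subgroup.subset_closure (by simp)))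
              (Subgroup.mem_sup_right ht')
          · rw [hwn]
            exact mul_mem (Subgroup.mem_sup_left (Subgroup.subset_closure (by simp)))
              (Subgroup.mem_sup_right hs)
          · rw [hwn']
            exact mul_mem (Subgroup.mem_sup_left (Subgroup.subset_closure (by simp)))
              (Subgroup.mem_sup_right hs'))
      refine k3.mono fun x hx => ?_
      exact g3 ⟨hx.2, closure3_le hc hw2 hw2' hx.1⟩

theorem Good.sub {Γ K D : Subgroup G} (h : Good Γ K) (hK : ∀ g ∈ Γ, ∀ k ∈ K, g * k * g⁻¹ ∈ K)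
    (hD : D ≤ Γ) : Good D K :=
  h.sub' K D hK inf_le_right (hD.trans le_sup_left)

end main

section comap

variable {G D : Type*} [Group G] [Group D]

theorem map_closure3 (f : D →* G) (c w w' : D) :
    (Subgroup.closure {c, w, w'}).map f = Subgroup.closure {f c, f w, f w'} := by
  rw [MonoidHom.map_closure, Set.image_insert_eq, Set.image_insert_eq, Set.image_singleton]

theorem map_win_le (f : D →* G) (c w w' : D) : win c w w' ≤ (win (f c) (f w) (f w')).comap f := by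
  unfold win
  rw [Subgroup.closure_le]
  rintro g ⟨k, rfl | rfl⟩
  · refine Subgroup.mem_comap.2 (Subgroup.subset_closure ⟨k, Or.inl ?_⟩)
    rw [map_mul, map_mul, map_inv, map_pow]
  · refine Subgroup.mem_comap.2 (Subgroup.subset_closure ⟨k, Or.inr ?_⟩)
    rw [map_mul, map_mul, map_inv, map_pow]

theorem mem_of_ker {f : D →* G} {Γ₁ L : Subgroup D} (hL : L ≤ Γ₁) (hker : Γ₁ ⊓ f.ker ≤ L)
    {l x : D} (hl : l ∈ L) (hx : x ∈ Γ₁) (he : f l = f x) : x ∈ L := by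
  have h1 : l⁻¹ * x ∈ Γ₁ ⊓ f.ker := by
    refine Subgroup.mem_inf.2 ⟨mul_mem (inv_mem (hL hl)) hx, ?_⟩
    rw [MonoidHom.mem_ker, map_mul, map_inv, he, inv_mul_cancel]
  have h2 : x = l * (l⁻¹ * x) := by group
  rw [h2]
  exact mul_mem hl (hker h1)

/-- a window modulo the kernel of a homomorphism -/
theorem win_comap (f : D →* G) {Γ₁ L : Subgroup D} (hL : NormIn L Γ₁) (hker : Γ₁ ⊓ f.ker ≤ L)
    {c w w' : D} (hc : c ∈ Γ₁) (hw : w ∈ Γ₁) (hw' : w' ∈ Γ₁)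
    (h : HNrel (win (f c) (f w) (f w')) ((L.map f).subgroupOf (win (f c) (f w) (f w')))) :
    HNrel (win c w w') (L.subgroupOf (win c w w')) := by
  let g : win c w w' →* win (f c) (f w) (f w') :=
    (f.comp (win c w w').subtype).codRestrict _ fun x => map_win_le f c w w' x.2
  have hn : ((L.map f).subgroupOf (win (f c) (f w) (f w'))).Normal := by
    refine subgroupOf_normal ?_
    rintro x hx _ ⟨l, hl, rfl⟩
    have hx' : x ∈ Γ₁.map f := win_le (Subgroup.mem_map_of_mem f hc)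
      (Subgroup.mem_map_of_mem f hw) (Subgroup.mem_map_of_mem f hw') hx
    obtain ⟨γ, hγ, rfl⟩ := hx'
    refine ⟨γ * l * γ⁻¹, hL.conj γ hγ l hl, ?_⟩
    rw [map_mul, map_mul, map_inv]
  refine (h.comap hn g).mono ?_
  intro x hx
  rw [Subgroup.mem_comap, Subgroup.mem_subgroupOf] at hx
  rw [Subgroup.mem_subgroupOf]
  obtain ⟨l, hl, he⟩ := hx
  exact mem_of_ker hL.le hker hl (win_le hc hw hw' x.2) he

/-- pull-back along a homomorphism -/
theorem Good.comap' (f : D →* G) {Γ' K' : Subgroup G} (h : Good Γ' K') :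
    ∀ Γ₁ T₁ : Subgroup D, Γ₁.map f = Γ' → Γ₁ ⊓ f.ker ≤ T₁ → Γ' ⊓ K' ≤ (Γ₁ ⊓ T₁).map f →
      Good Γ₁ T₁ := by
  induction h with
  | intro Γ' K' N hN hw ih =>
    intro Γ₁ T₁ hΓ hker hK
    have key : ∀ L, NormIn L Γ₁ → Γ₁ ⊓ T₁ ≤ L → L ≠ Γ₁ →
        NormIn (L.map f) Γ' ∧ Γ' ⊓ K' ≤ L.map f ∧ L.map f ≠ Γ' ∧ Γ₁ ⊓ f.ker ≤ L := by
      intro L h1 h2 h3
      have h4 : Γ₁ ⊓ f.ker ≤ L := (le_inf inf_le_left hker).trans h2
      refine ⟨⟨hΓ ▸ Subgroup.map_mono h1.le, ?_⟩, hK.trans (Subgroup.map_mono h2), ?_, h4⟩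
      · rintro g hg _ ⟨l, hl, rfl⟩
        rw [← hΓ] at hg
        obtain ⟨γ, hγ, rfl⟩ := hg
        refine ⟨γ * l * γ⁻¹, h1.conj γ hγ l hl, ?_⟩
        rw [map_mul, map_mul, map_inv]
      · intro h5
        apply h3
        apply le_antisymm h1.le
        intro γ hγ
        have h6 : f γ ∈ L.map f := by
          rw [h5, ← hΓ]
          exact Subgroup.mem_map_of_mem f hγ
        obtain ⟨l, hl, he⟩ := h6
        exact mem_of_ker h1.le h4 hl hγ he
    refine Good.intro Γ₁ T₁ (fun L => (N (L.map f)).comap f ⊓ Γ₁) ?_ ?_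
    · intro L h1 h2 h3
      obtain ⟨k1, k2, k3, k4⟩ := key L h1 h2 h3
      obtain ⟨g1, g2⟩ := hN _ k1 k2 k3
      refine ⟨⟨inf_le_right, ?_⟩, ?_⟩
      · rintro g hg x ⟨hx1, hx2⟩
        refine ⟨?_, Γ₁.mul_mem (Γ₁.mul_mem hg hx2) (Γ₁.inv_mem hg)⟩
        have hx1' : f x ∈ N (L.map f) := hx1
        have h4 : f (g * x * g⁻¹) ∈ N (L.map f) := by
          rw [map_mul, map_mul, map_inv]
          exact g1.conj _ (hΓ ▸ Subgroup.mem_map_of_mem f hg) _ hx1'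
        exact h4
      · intro hle
        apply g2
        intro x hx
        have hx' : x ∈ Γ₁.map f := by
          rw [hΓ]
          exact g1.le hx
        obtain ⟨γ, hγ, rfl⟩ := hx'
        exact Subgroup.mem_map_of_mem f (hle ⟨hx, hγ⟩)
    · rintro L h1 h2 h3 c hc w ⟨hw1, hw2⟩ w' ⟨hw1', hw2'⟩ hn1 hn2
      obtain ⟨k1, k2, k3, k4⟩ := key L h1 h2 h3
      refine ih _ k1 k2 k3 (f c) (hΓ ▸ Subgroup.mem_map_of_mem f hc) (f w) hw1 (f w') hw1'
        (fun hh => hn1 (win_comap f h1 k4 hc hw2 hw2' hh)) (fun hh => hn2 ?_)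
        (Subgroup.closure {c, w, w'}) L (map_closure3 f c w w')
        ((inf_le_inf_right _ (closure3_le hc hw2 hw2')).trans k4) ?_
      · rw [← map_inv] at hh
        exact win_comap f h1 k4 (inv_mem hc) hw2' hw2 hh
      · rintro x ⟨hx1, hx2⟩
        rw [← map_closure3] at hx1
        obtain ⟨γ, hγ, rfl⟩ := hx1
        obtain ⟨l, hl, he⟩ := hx2
        exact ⟨γ, ⟨hγ, mem_of_ker h1.le k4 hl (closure3_le hc hw2 hw2' hγ) he⟩, rfl⟩

theorem Good.of_map (f : D →* G) (hf : Function.Injective f) {Γ K : Subgroup D}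
    (h : Good (Γ.map f) (K.map f)) : Good Γ K := by
  refine h.comap' f Γ K rfl ?_ ?_
  · rw [(MonoidHom.ker_eq_bot_iff f).2 hf]
    exact inf_le_right.trans bot_le
  · rw [Subgroup.map_inf _ _ _ hf]

/-- a subgroup as a group -/
theorem Good.type {G : Type*} [Group G] (h : Good (⊤ : Subgroup G) ⊥) (C : Subgroup G) :
    Good (⊤ : Subgroup C) ⊥ := by
  refine Good.of_map C.subtype C.subtype_injective ?_
  rw [Subgroup.map_bot, ← MonoidHom.range_eq_map, Subgroup.range_subtype]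
  refine h.sub ?_ le_top
  intro g _ k hk
  rw [Subgroup.mem_bot] at hk ⊢
  rw [hk]
  group

end comap

section inst

variable {G : Type*} [Group G]

/-- relatively hyper-NFS groups are good -/
theorem Good.of_hn {Γ K : Subgroup G} (h : HNrel Γ (K.subgroupOf Γ)) : Good Γ K := by
  refine Good.intro Γ K (fun _ => Γ) ?_ ?_
  · intro L h1 h2 h3
    exact ⟨⟨le_rfl, fun g hg n hn => mul_mem (mul_mem hg hn) (inv_mem hg)⟩,
      fun h4 => h3 (le_antisymm h1.le h4)⟩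
  · intro L h1 h2 h3 c hc w hw w' hw' hn1 _
    exfalso
    apply hn1
    have h4 : HNrel Γ (L.subgroupOf Γ) := h.mono fun x hx => by
      rw [Subgroup.mem_subgroupOf] at hx ⊢
      exact h2 ⟨x.2, hx⟩
    exact h4.sub' h1.conj ((win_le hc hw hw').trans le_sup_left)

/-- groups all of whose subgroups with three generators are good -/
theorem Good.of_local {Γ K : Subgroup G}
    (h : ∀ c ∈ Γ, ∀ w ∈ Γ, ∀ w' ∈ Γ, Good (Subgroup.closure {c, w, w'}) K) : Good Γ K := by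
  refine Good.intro Γ K (fun _ => Γ) ?_ ?_
  · intro L h1 h2 h3
    exact ⟨⟨le_rfl, fun g hg n hn => mul_mem (mul_mem hg hn) (inv_mem hg)⟩,
      fun h4 => h3 (le_antisymm h1.le h4)⟩
  · intro L h1 h2 h3 c hc w hw w' hw' _ _
    exact (h c hc w hw w' hw').mono ((inf_le_inf_right _ (closure3_le hc hw hw')).trans h2)

/-- extensions -/
theorem Good.ext {Γ K N : Subgroup G} (hN : NormIn N Γ) (h2 : Good Γ N)
    (h1 : ∀ c ∈ Γ, ∀ w ∈ N, ∀ w' ∈ N,
      ¬ HNrel (win c w w') (K.subgroupOf (win c w w')) →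
      ¬ HNrel (win c⁻¹ w' w) (K.subgroupOf (win c⁻¹ w' w)) →
      Good (Subgroup.closure {c, w, w'}) K) : Good Γ K := by
  classical
  cases h2 with
  | intro _ _ N' hN' hw' =>
    refine Good.intro Γ K (fun L => if N ≤ L then N' L else N) ?_ ?_
    · intro L k1 k2 k3
      by_cases hNL : N ≤ L
      · rw [if_pos hNL]
        exact hN' L k1 (inf_le_right.trans hNL) k3
      · rw [if_neg hNL]
        exact ⟨hN, hNL⟩
    · intro L k1 k2 k3 c hc w hw w' hww'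
      by_cases hNL : N ≤ L
      · rw [if_pos hNL] at hw hww'
        exact hw' L k1 (inf_le_right.trans hNL) k3 c hc w hw w' hww'
      · rw [if_neg hNL] at hw hww'
        intro hn1 hn2
        refine (h1 c hc w hw w' hww' (fun hh => hn1 (hh.mono ?_)) (fun hh => hn2 (hh.mono ?_))).mono
          ((inf_le_inf_right _ (closure3_le hc (hN.le hw) (hN.le hww'))).trans k2)
        · intro x hx
          rw [Subgroup.mem_subgroupOf] at hx ⊢
          exact k2 ⟨win_le hc (hN.le hw) (hN.le hww') x.2, hx⟩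
        · intro x hx
          rw [Subgroup.mem_subgroupOf] at hx ⊢
          exact k2 ⟨win_le (inv_mem hc) (hN.le hww') (hN.le hw) x.2, hx⟩

/-- good quotients -/
theorem Good.of_quot {N : Subgroup G} [N.Normal] (h : Good (⊤ : Subgroup (G ⧸ N)) ⊥) :
    Good (⊤ : Subgroup G) N := by
  refine h.comap' (QuotientGroup.mk' N) ⊤ N ?_ ?_ ?_
  · rw [← MonoidHom.range_eq_map, MonoidHom.range_eq_top]
    exact QuotientGroup.mk'_surjective N
  · rw [QuotientGroup.ker_mk']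
    exact inf_le_right
  · exact inf_le_right.trans bot_le

end inst

end Pool.Agent.IsoHnn
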