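import Pool.Agent.IsoHnn.ClsA

/-!
# Ascending HNN extensions of hyper-NFS groups are good

`G` is generated by `M` and `c` with `c M c⁻¹ ≤ M`. The subgroup `N = ⋃ c ^ -k M c ^ k` is normal,
`G = N ⟨c⟩`, and for `x = c ^ m t` (`m ≥ 0`, `t ∈ N`) every window of `x` with generators in `N` is
contained in one of the groups `c ^ -k M c ^ k`.
-/

set_option autoImplicit false

namespace Pool.Agent.IsoHnn

open Pool.Agent.IsoOrd

variable {G : Type*} [Group G]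

theorem HNrel.of_comm {K : Subgroup G} (h : ∀ a b : G, a * b * a⁻¹ * b⁻¹ ∈ K) : HNrel G K := by
  intro L hL hK hne
  refine ⟨⊤, inferInstance, lt_top_iff_ne_top.2 hne, ?_⟩
  intro a _ b _
  refine ⟨[true, false], [false, true], by decide, ?_⟩
  simp only [ev, List.map_cons, List.map_nil, List.prod_cons, List.prod_nil, cond_true,
    cond_false, mul_one]
  have h1 := hK (h b⁻¹ a⁻¹)
  have h2 : (a * b)⁻¹ * (b * a) = b⁻¹ * a⁻¹ * b⁻¹⁻¹ * a⁻¹⁻¹ := by group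
  rw [h2]
  exact h1

/-- groups which embed in a hyper-NFS group -/
theorem HNrel.of_conj {M W : Subgroup G} (hM : HNrel M ⊥) {x : G}
    (hx : ∀ y ∈ W, x * y * x⁻¹ ∈ M) (K : Subgroup W) : HNrel W K := by
  let φ : W →* M := ((MulAut.conj x).toMonoidHom.comp W.subtype).codRestrict M
    fun y => hx y.1 y.2
  refine (hM.comap inferInstance φ).mono ?_
  intro y hy
  rw [Subgroup.mem_comap, Subgroup.mem_bot] at hy
  have h1 : x * (y : G) * x⁻¹ = 1 := congrArg Subtype.val hy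
  have h2 : (y : G) = 1 := by
    have h3 : (y : G) = x⁻¹ * (x * (y : G) * x⁻¹) * x := by group
    rw [h3, h1]
    group
  have h4 : y = 1 := Subtype.ext h2
  rw [h4]
  exact one_mem K

section asc

variable {M : Subgroup G} {c : G}

theorem asc_pow (hc : ∀ m ∈ M, c * m * c⁻¹ ∈ M) (k : ℕ) : ∀ m ∈ M, c ^ k * m * (c ^ k)⁻¹ ∈ M := by
  induction k with
  | zero =>
    intro m hm
    simpa using hm
  | succ k ih =>
    intro m hm
    have h1 : c ^ (k + 1) * m * (c ^ (k + 1))⁻¹ = c * (c ^ k * m * (c ^ k)⁻¹) * c⁻¹ := by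
      rw [pow_succ']
      group
    rw [h1]
    exact hc _ (ih m hm)

theorem asc_up (hc : ∀ m ∈ M, c * m * c⁻¹ ∈ M) {g : G} {k l : ℕ} (hkl : k ≤ l)
    (hg : c ^ k * g * (c ^ k)⁻¹ ∈ M) : c ^ l * g * (c ^ l)⁻¹ ∈ M := by
  obtain ⟨j, rfl⟩ := Nat.exists_eq_add_of_le' hkl
  have h1 : c ^ (j + k) * g * (c ^ (j + k))⁻¹ = c ^ j * (c ^ k * g * (c ^ k)⁻¹) * (c ^ j)⁻¹ := by
    rw [pow_add]
    group
  rw [h1]
  exact asc_pow hc j _ hg

/-- the union of the groups `c ^ -k M c ^ k` -/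
def asc (M : Subgroup G) (c : G) (hc : ∀ m ∈ M, c * m * c⁻¹ ∈ M) : Subgroup G where
  carrier := {g | ∃ k : ℕ, c ^ k * g * (c ^ k)⁻¹ ∈ M}
  mul_mem' := by
    rintro a b ⟨k, hk⟩ ⟨l, hl⟩
    refine ⟨max k l, ?_⟩
    have h1 := asc_up hc (le_max_left k l) hk
    have h2 := asc_up hc (le_max_right k l) hl
    have h3 : c ^ max k l * (a * b) * (c ^ max k l)⁻¹ =
        c ^ max k l * a * (c ^ max k l)⁻¹ * (c ^ max k l * b * (c ^ max k l)⁻¹) := by group
    rw [h3]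
    exact mul_mem h1 h2
  one_mem' := ⟨0, by simp⟩
  inv_mem' := by
    rintro a ⟨k, hk⟩
    refine ⟨k, ?_⟩
    have h3 : c ^ k * a⁻¹ * (c ^ k)⁻¹ = (c ^ k * a * (c ^ k)⁻¹)⁻¹ := by group
    rw [h3]
    exact inv_mem hk

theorem mem_asc (hc : ∀ m ∈ M, c * m * c⁻¹ ∈ M) {g : G} :
    g ∈ asc M c hc ↔ ∃ k : ℕ, c ^ k * g * (c ^ k)⁻¹ ∈ M := Iff.rfl

theorem le_asc (hc : ∀ m ∈ M, c * m * c⁻¹ ∈ M) : M ≤ asc M c hc := fun m hm =>
  (mem_asc hc).2 ⟨0, by simpa using hm⟩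

theorem asc_conj (hc : ∀ m ∈ M, c * m * c⁻¹ ∈ M) {g : G} (hg : g ∈ asc M c hc) :
    c * g * c⁻¹ ∈ asc M c hc := by
  rw [mem_asc] at hg ⊢
  obtain ⟨k, hk⟩ := hg
  refine ⟨k, ?_⟩
  have h1 := asc_up hc (Nat.le_succ k) hk
  have h2 : c ^ k * (c * g * c⁻¹) * (c ^ k)⁻¹ = c ^ (k + 1) * g * (c ^ (k + 1))⁻¹ := by
    rw [pow_succ]
    group
  rw [h2]
  exact h1

theorem asc_conj' (hc : ∀ m ∈ M, c * m * c⁻¹ ∈ M) {g : G} (hg : g ∈ asc M c hc) :
    c⁻¹ * g * c ∈ asc M c hc := by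
  rw [mem_asc] at hg ⊢
  obtain ⟨k, hk⟩ := hg
  refine ⟨k + 1, ?_⟩
  have h2 : c ^ (k + 1) * (c⁻¹ * g * c) * (c ^ (k + 1))⁻¹ = c ^ k * g * (c ^ k)⁻¹ := by
    rw [pow_succ]
    group
  rw [h2]
  exact hk

theorem asc_normal (hc : ∀ m ∈ M, c * m * c⁻¹ ∈ M)
    (hgen : Subgroup.closure (insert c (M : Set G)) = ⊤) (g : G) :
    (∀ n ∈ asc M c hc, g * n * g⁻¹ ∈ asc M c hc) ∧ ∀ n ∈ asc M c hc, g⁻¹ * n * g ∈ asc M c hc := by
  have hg : g ∈ Subgroup.closure (insert c (M : Set G)) := by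
    rw [hgen]
    exact Subgroup.mem_top g
  induction hg using Subgroup.closure_induction with
  | mem x hx =>
    rcases hx with rfl | hx
    · exact ⟨fun n hn => asc_conj hc hn, fun n hn => asc_conj' hc hn⟩
    · have hx' := le_asc hc hx
      exact ⟨fun n hn => mul_mem (mul_mem hx' hn) (inv_mem hx'),
        fun n hn => mul_mem (mul_mem (inv_mem hx') hn) hx'⟩
  | one => exact ⟨fun n hn => by simpa using hn, fun n hn => by simpa using hn⟩
  | mul x y _ _ hx hy =>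
    constructor
    · intro n hn
      have h1 : x * y * n * (x * y)⁻¹ = x * (y * n * y⁻¹) * x⁻¹ := by group
      rw [h1]
      exact hx.1 _ (hy.1 n hn)
    · intro n hn
      have h1 : (x * y)⁻¹ * n * (x * y) = y⁻¹ * (x⁻¹ * n * x) * y := by group
      rw [h1]
      exact hy.2 _ (hx.2 n hn)
  | inv x _ hx =>
    constructor
    · intro n hn
      rw [inv_inv]
      exact hx.2 n hn
    · intro n hn
      rw [inv_inv]
      exact hx.1 n hn

/-- the windows of `c ^ m t` -/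
theorem asc_win (hM : HNrel M ⊥) (hc : ∀ m ∈ M, c * m * c⁻¹ ∈ M) {m : ℕ} {t w w' : G}
    (ht : t ∈ asc M c hc) (hw : w ∈ asc M c hc) (hw' : w' ∈ asc M c hc)
    (K : Subgroup (win (c ^ m * t) w w')) : HNrel (win (c ^ m * t) w w') K := by
  rw [mem_asc] at ht hw hw'
  obtain ⟨k₁, h1⟩ := ht
  obtain ⟨k₂, h2⟩ := hw
  obtain ⟨k₃, h3⟩ := hw'
  set k := max k₁ (max k₂ k₃) with hk
  have h1' := asc_up hc (le_max_left k₁ (max k₂ k₃)) h1
  have h2' := asc_up hc ((le_max_left k₂ k₃).trans (le_max_right k₁ (max k₂ k₃))) h2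
  have h3' := asc_up hc ((le_max_right k₂ k₃).trans (le_max_right k₁ (max k₂ k₃))) h3
  rw [← hk] at h1' h2' h3'
  have hx : ∀ y, c ^ k * y * (c ^ k)⁻¹ ∈ M →
      c ^ k * (c ^ m * t * y * (c ^ m * t)⁻¹) * (c ^ k)⁻¹ ∈ M := by
    intro y hy
    have e : c ^ k * (c ^ m * t * y * (c ^ m * t)⁻¹) * (c ^ k)⁻¹ =
        c ^ m * (c ^ k * t * (c ^ k)⁻¹ * (c ^ k * y * (c ^ k)⁻¹) *
          (c ^ k * t * (c ^ k)⁻¹)⁻¹) * (c ^ m)⁻¹ := by
      have e1 : c ^ k * c ^ m = c ^ m * c ^ k := by rw [← pow_add, ← pow_add, add_comm]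
      have e2 : c ^ k * (c ^ m * t * y * (c ^ m * t)⁻¹) * (c ^ k)⁻¹ =
          (c ^ k * c ^ m) * (t * y * t⁻¹) * (c ^ k * c ^ m)⁻¹ := by group
      rw [e2, e1]
      group
    rw [e]
    exact asc_pow hc m _ (mul_mem (mul_mem h1' hy) (inv_mem h1'))
  have hpow : ∀ (j : ℕ) (y : G), c ^ k * y * (c ^ k)⁻¹ ∈ M →
      c ^ k * ((c ^ m * t) ^ j * y * ((c ^ m * t) ^ j)⁻¹) * (c ^ k)⁻¹ ∈ M := by
    intro j
    induction j with
    | zero =>
      intro y hy
      simpa using hy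
    | succ j ih =>
      intro y hy
      have e : (c ^ m * t) ^ (j + 1) * y * ((c ^ m * t) ^ (j + 1))⁻¹ =
          c ^ m * t * ((c ^ m * t) ^ j * y * ((c ^ m * t) ^ j)⁻¹) * (c ^ m * t)⁻¹ := by
        rw [pow_succ', mul_inv_rev (c ^ m * t)]
        simp only [mul_assoc]
      rw [e]
      exact hx _ (ih y hy)
  refine HNrel.of_conj hM (x := c ^ k) ?_ K
  have hle : win (c ^ m * t) w w' ≤ M.comap (MulAut.conj (c ^ k)).toMonoidHom := by
    unfold win
    rw [Subgroup.closure_le]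
    rintro g ⟨j, rfl | rfl⟩
    · exact hpow j w h2'
    · exact hpow j w' h3'
  exact fun y hy => hle hy

/-- ascending HNN extensions of hyper-NFS groups are good -/
theorem Good.hnn (hM : HNFS M) (hc : ∀ m ∈ M, c * m * c⁻¹ ∈ M)
    (hgen : Subgroup.closure (insert c (M : Set G)) = ⊤) : Good (⊤ : Subgroup G) ⊥ := by
  have hM' : HNrel M ⊥ := fun L hL _ hne => hM L hL hne
  have hN : NormIn (asc M c hc) ⊤ := ⟨le_top, fun g _ n hn => (asc_normal hc hgen g).1 n hn⟩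
  have hdec : ∀ g : G, ∃ m : ℤ, ∃ t ∈ asc M c hc, g = c ^ m * t := by
    intro g
    have h1 : g ∈ Subgroup.zpowers c ⊔ asc M c hc := by
      have h2 : Subgroup.closure (insert c (M : Set G)) ≤ Subgroup.zpowers c ⊔ asc M c hc := by
        rw [Subgroup.closure_le]
        rintro x (rfl | hx)
        · exact Subgroup.mem_sup_left (Subgroup.mem_zpowers x)
        · exact Subgroup.mem_sup_right (le_asc hc hx)
      apply h2
      rw [hgen]
      exact Subgroup.mem_top g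
    obtain ⟨m, hm, t, ht, rfl⟩ := mem_sup_norm (fun g _ n hn => hN.conj g (Subgroup.mem_top g) n hn)
      h1
    obtain ⟨j, rfl⟩ := Subgroup.mem_zpowers_iff.1 hm
    exact ⟨j, t, ht, rfl⟩
  refine Good.ext hN ?_ ?_
  · refine Good.of_hn (HNrel.of_comm ?_)
    intro a b
    rw [Subgroup.mem_subgroupOf]
    obtain ⟨m, t, ht, ha⟩ := hdec (a : G)
    obtain ⟨m', t', ht', hb⟩ := hdec (b : G)
    simp only [Subgroup.coe_mul, Subgroup.coe_inv]
    rw [ha, hb]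
    have hn : (asc M c hc).Normal := ⟨fun n hn g => hN.conj g (Subgroup.mem_top g) n hn⟩
    have h1 : (QuotientGroup.mk t : G ⧸ asc M c hc) = 1 := (QuotientGroup.eq_one_iff t).2 ht
    have h2 : (QuotientGroup.mk t' : G ⧸ asc M c hc) = 1 := (QuotientGroup.eq_one_iff t').2 ht'
    rw [← QuotientGroup.eq_one_iff]
    simp only [QuotientGroup.mk_mul, QuotientGroup.mk_inv, QuotientGroup.mk_zpow, h1, h2, mul_one]
    rw [← zpow_neg, ← zpow_neg, ← zpow_add, ← zpow_add, ← zpow_add]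
    have h3 : m + m' + -m + -m' = 0 := by ring
    rw [h3, zpow_zero]
  · intro x _ w hw w' hw' h1 h2
    exfalso
    obtain ⟨m, t, ht, rfl⟩ := hdec x
    rcases le_total 0 m with hm | hm
    · obtain ⟨k, rfl⟩ := Int.eq_ofNat_of_zero_le hm
      apply h1
      rw [zpow_natCast]
      exact asc_win hM' hc ht hw hw' _
    · obtain ⟨k, hk⟩ := Int.eq_ofNat_of_zero_le (neg_nonneg.2 hm)
      apply h2
      have e : (c ^ m * t)⁻¹ = c ^ k * (c ^ m * t⁻¹ * (c ^ m)⁻¹) := by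
        have e1 : c ^ k = (c ^ m)⁻¹ := by
          rw [← zpow_neg, hk, zpow_natCast]
        rw [e1]
        group
      rw [e]
      exact asc_win hM' hc (hN.conj _ (Subgroup.mem_top _) _ (inv_mem ht)) hw' hw _

end asc

end Pool.Agent.IsoHnn
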