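import Pool.Agent.IsoHnn.ClsB

/-!
# The class `Good`: injective homomorphisms
-/

set_option autoImplicit false

namespace Pool.Agent.IsoHnn

open Pool.Agent.IsoOrd

variable {G D : Type*} [Group G] [Group D]

/-- a window and its image -/
theorem win_map (f : D →* G) {L : Subgroup D} {c w w' : D}
    (h : HNrel (win c w w') (L.subgroupOf (win c w w'))) :
    HNrel (win (f c) (f w) (f w')) ((L.map f).subgroupOf (win (f c) (f w) (f w'))) := by
  have hle : win (f c) (f w) (f w') ≤ (win c w w').map f := by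
    unfold win
    rw [Subgroup.closure_le]
    rintro g ⟨k, rfl | rfl⟩
    · refine ⟨c ^ k * w * (c ^ k)⁻¹, Subgroup.subset_closure ⟨k, Or.inl rfl⟩, ?_⟩
      rw [map_mul, map_mul, map_inv, map_pow]
    · refine ⟨c ^ k * w' * (c ^ k)⁻¹, Subgroup.subset_closure ⟨k, Or.inr rfl⟩, ?_⟩
      rw [map_mul, map_mul, map_inv, map_pow]
  have hle' := map_win_le f c w w'
  let g : win c w w' →* win (f c) (f w) (f w') :=
    (f.comp (win c w w').subtype).codRestrict _ fun x => hle' x.2
  have hg : Function.Surjective g := by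
    rintro ⟨y, hy⟩
    obtain ⟨x, hx, rfl⟩ := hle hy
    exact ⟨⟨x, hx⟩, rfl⟩
  refine (h.surj g hg).mono ?_
  rintro _ ⟨x, hx, rfl⟩
  rw [Subgroup.mem_subgroupOf]
  exact Subgroup.mem_map_of_mem f hx

theorem Good.map_inj (f : D →* G) (hf : Function.Injective f) {Γ K : Subgroup D} (h : Good Γ K) :
    Good (Γ.map f) (K.map f) := by
  induction h with
  | intro Γ K N hN hw ih =>
    have key : ∀ L, NormIn L (Γ.map f) → Γ.map f ⊓ K.map f ≤ L → L ≠ Γ.map f →
        NormIn (L.comap f) Γ ∧ Γ ⊓ K ≤ L.comap f ∧ L.comap f ≠ Γ ∧ (L.comap f).map f = L := by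
      intro L h1 h2 h3
      have h4 : L.comap f ≤ Γ := by
        intro x hx
        obtain ⟨y, hy, he⟩ := h1.le hx
        rwa [← hf he]
      have h5 : (L.comap f).map f = L := by
        rw [Subgroup.map_comap_eq]
        refine inf_eq_right.2 fun x hx => ?_
        obtain ⟨y, _, he⟩ := h1.le hx
        exact ⟨y, he⟩
      refine ⟨⟨h4, ?_⟩, ?_, ?_, h5⟩
      · intro g hg n hn
        have hn' : f n ∈ L := hn
        have h6 : f (g * n * g⁻¹) ∈ L := by
          rw [map_mul, map_mul, map_inv]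
          exact h1.conj _ (Subgroup.mem_map_of_mem f hg) _ hn'
        exact h6
      · intro x hx
        exact h2 ⟨Subgroup.mem_map_of_mem f hx.1, Subgroup.mem_map_of_mem f hx.2⟩
      · intro h6
        apply h3
        rw [← h5, h6]
    refine Good.intro _ _ (fun L => (N (L.comap f)).map f) ?_ ?_
    · intro L h1 h2 h3
      obtain ⟨k1, k2, k3, k4⟩ := key L h1 h2 h3
      obtain ⟨g1, g2⟩ := hN _ k1 k2 k3
      refine ⟨⟨Subgroup.map_mono g1.le, ?_⟩, ?_⟩
      · rintro _ ⟨g, hg, rfl⟩ _ ⟨n, hn, rfl⟩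
        rw [← map_inv, ← map_mul, ← map_mul]
        exact Subgroup.mem_map_of_mem f (g1.conj g hg n hn)
      · intro hle
        apply g2
        exact Subgroup.map_le_iff_le_comap.1 hle
    · rintro L h1 h2 h3 _ ⟨c, hc, rfl⟩ _ ⟨w, hw0, rfl⟩ _ ⟨w', hw0', rfl⟩ hn1 hn2
      obtain ⟨k1, k2, k3, k4⟩ := key L h1 h2 h3
      have h5 := ih (L.comap f) k1 k2 k3 c hc w hw0 w' hw0' (fun hh => hn1 (by
        have := win_map f hh
        rwa [k4] at this)) (fun hh => hn2 (by
        have := win_map f hh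
        rwa [k4, map_inv] at this))
      rwa [map_closure3, k4] at h5

/-- goodness of a subgroup as a group and as a subgroup -/
theorem Good.ofType {G : Type*} [Group G] {C : Subgroup G} (h : Good (⊤ : Subgroup C) ⊥) :
    Good C ⊥ := by
  have h1 := h.map_inj C.subtype C.subtype_injective
  rwa [Subgroup.map_bot, ← MonoidHom.range_eq_map, Subgroup.range_subtype] at h1

/-- hyper-NFS groups are good -/
theorem Good.of_hnfs {G : Type*} [Group G] (h : HNrel G ⊥) : Good (⊤ : Subgroup G) ⊥ :=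
  Good.of_hn (h.comap inferInstance (⊤ : Subgroup G).subtype)

/-- groups locally good -/
theorem Good.of_local' {G : Type*} [Group G]
    (h : ∀ c w w' : G, Good (⊤ : Subgroup (Subgroup.closure {c, w, w'})) ⊥) :
    Good (⊤ : Subgroup G) ⊥ :=
  Good.of_local fun c _ w _ w' _ => (h c w w').ofType

/-- extensions of hyper-NFS groups by good groups -/
theorem Good.ext' {G : Type*} [Group G] {N : Subgroup G} [hN : N.Normal] (h : HNrel N ⊥)
    (hQ : Good (⊤ : Subgroup (G ⧸ N)) ⊥) : Good (⊤ : Subgroup G) ⊥ := by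
  refine Good.ext ⟨le_top, fun g _ n hn => hN.conj_mem n hn g⟩ hQ.of_quot ?_
  intro c _ w hw w' hw' h1 _
  exfalso
  apply h1
  refine HNrel.of_conj h (x := 1) ?_ _
  intro y hy
  rw [one_mul, inv_one, mul_one]
  have hle : win c w w' ≤ N := by
    unfold win
    rw [Subgroup.closure_le]
    rintro g ⟨k, rfl | rfl⟩
    · exact hN.conj_mem w hw _
    · exact hN.conj_mem w' hw' _
  exact hle hy

end Pool.Agent.IsoHnn
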