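import Mathlib
import Pool.Agent.IsoOrd.Defs

/-!
# The completion of an ordered set with an order preserving action

`exists_compl`: every order preserving action on a linear order `Ω` extends to an order preserving
action on a complete linear order `X` (the cuts of `Ω`) in which `Ω` is dense.
-/

set_option autoImplicit false

namespace Pool.Agent.IsoHnn

open Pool.Agent.IsoOrd

universe u v

variable {G : Type v} {Ω : Type u} [Group G] [LinearOrder Ω] [MulAction G Ω]

private theorem compl_le (hm : Mono G Ω) (g : G) {x y : Ω} (h : x ≤ y) : g • x ≤ g • y := by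
  rcases h.eq_or_lt with rfl | h
  · exact le_rfl
  · exact (hm g _ _ h).le

private theorem compl_le_iff (hm : Mono G Ω) (g : G) {x y : Ω} : g • x ≤ g • y ↔ x ≤ y := by
  constructor
  · intro h
    have h1 := compl_le hm g⁻¹ h
    rwa [inv_smul_smul, inv_smul_smul] at h1
  · exact compl_le hm g

/-- the image of a cut under a group element -/
def actCut (hm : Mono G Ω) (g : G) (A : DedekindCut Ω) : DedekindCut Ω where
  extent := {x | g⁻¹ • x ∈ A.left}
  intent := {x | g⁻¹ • x ∈ A.right}
  upperPolar_extent := by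
    ext x
    rw [mem_upperPolar_iff, Set.mem_ofPred_eq, ← DedekindCut.upperBounds_left]
    constructor
    · intro h a ha
      have h1 : g • a ≤ x := h (a := g • a) (by simpa using! ha)
      have h2 := compl_le hm g⁻¹ h1
      rwa [inv_smul_smul] at h2
    · intro h a ha
      exact (compl_le_iff hm g⁻¹).1 (h ha)
  lowerPolar_intent := by
    ext x
    rw [mem_lowerPolar_iff, Set.mem_ofPred_eq, ← DedekindCut.lowerBounds_right]
    constructor
    · intro h a ha
      have h1 : x ≤ g • a := h (b := g • a) (by simpa using! ha)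
      have h2 := compl_le hm g⁻¹ h1
      rwa [inv_smul_smul] at h2
    · intro h a ha
      exact (compl_le_iff hm g⁻¹).1 (h ha)

theorem mem_actCut (hm : Mono G Ω) (g : G) (A : DedekindCut Ω) (x : Ω) :
    x ∈ (actCut hm g A).left ↔ g⁻¹ • x ∈ A.left := Iff.rfl

/-- the completion -/
theorem exists_compl (hm : Mono G Ω) : ∃ (X : Type u) (_ : CompleteLinearOrder X)
    (_ : MulAction G X) (ι : Ω → X), Mono G X ∧ (∀ x y, ι x < ι y ↔ x < y) ∧
      (∀ (g : G) x, ι (g • x) = g • ι x) ∧ (∀ x y : X, x < y → ∃ w, x < ι w ∧ ι w ≤ y) ∧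
      (∀ x y : X, x < y → ∃ w, x ≤ ι w ∧ ι w < y) := by
  let act : MulAction G (DedekindCut Ω) :=
    { smul := actCut hm
      one_smul := by
        intro A
        ext x
        change (1 : G)⁻¹ • x ∈ A.left ↔ _
        rw [inv_one, one_smul]
      mul_smul := by
        intro g h A
        ext x
        change (g * h)⁻¹ • x ∈ A.left ↔ h⁻¹ • g⁻¹ • x ∈ A.left
        rw [mul_inv_rev, mul_smul] }
  have hle : ∀ A B : DedekindCut Ω, A ≤ B ↔ A.left ⊆ B.left := fun A B =>
    Concept.extent_subset_extent_iff.symm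
  have hmem : ∀ (g : G) (A : DedekindCut Ω) (x : Ω), x ∈ (g • A).left ↔ g⁻¹ • x ∈ A.left :=
    fun g A x => Iff.rfl
  refine ⟨DedekindCut Ω, inferInstance, act, DedekindCut.principal, ?_,
    fun x y => DedekindCut.principal_lt_principal, ?_, fun x y h => ?_, fun x y h => ?_⟩
  · intro g A B h
    rw [← not_le, hle]
    intro hcon
    apply not_le.2 h
    rw [hle]
    intro x hx
    have h1 : g • x ∈ (g • B).left := by rwa [hmem, inv_smul_smul]
    have h2 := hcon h1
    rwa [hmem, inv_smul_smul] at h2
  · intro g x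
    ext y
    rw [hmem, DedekindCut.left_principal, DedekindCut.left_principal, Set.mem_Iic, Set.mem_Iic]
    have h1 := compl_le_iff hm g⁻¹ (x := y) (y := g • x)
    rw [inv_smul_smul] at h1
    exact h1.symm
  · obtain ⟨w, h1, h2⟩ := DedekindCut.lt_iff_exists.1 h
    exact ⟨w, h1, h2⟩
  · obtain ⟨w, h1, h2⟩ := DedekindCut.lt_iff_exists'.1 h
    exact ⟨w, h1, h2⟩

end Pool.Agent.IsoHnn
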