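import Pool.Agent.IsoOrd.JPart
import Pool.Agent.IsoOrd.Dich
import Pool.Agent.IsoOrd.TransHom

/-!
# The intersection of the components: primitive actions with small stabilisers

`Small`: there is no sequence of elements fixing `o` such that for `k < k'` some point is moved by the
first and fixed by the second one.
`jset_split`: in a primitive action with small stabilisers, and for a normal subgroup `N` without free
subsemigroups modulo the kernel, either the components shrink to a point, or every element of `N` is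
trivial or cofinal.
-/

set_option autoImplicit false

namespace Pool.Agent.IsoHnn

open Pool.Agent.IsoOrd

variable {G Ω : Type*} [Group G] [LinearOrder Ω] [MulAction G Ω]

/-- small stabiliser of `o` -/
def Small (G : Type*) {Ω : Type*} [Group G] [MulAction G Ω] (o : Ω) : Prop :=
  ∀ d : ℕ → G, (∀ k, d k • o = o) → (∀ k k', k < k' → ∃ x : Ω, d k • x ≠ x ∧ d k' • x = x) →
    False

private theorem part_claim (hm : Mono G Ω) (htr : ∀ x y : Ω, ∃ g : G, g • x = y) {o : Ω}
    (hs : Small G o) {N : Subgroup G} (hNn : N.Normal) {x y : Ω} (hy : y ∈ Jset N x) {a : G}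
    (ha : a ∈ N) (hay : a • y ≠ y) : x ∈ comp a y := by
  by_contra hx
  obtain ⟨h, rfl⟩ := htr x y
  have hax : a • x = x := by
    by_contra hne
    have h1 := hy a ha hne
    apply hx
    rw [comp_eq_of_mem hm h1]
    exact cross_mem_self a x
  -- the conjugates
  let ak : ℕ → G := fun k => h ^ k * a * (h ^ k)⁻¹
  let xk : ℕ → Ω := fun k => h ^ k • x
  have hakN : ∀ k, ak k ∈ N := fun k => hNn.conj_mem a ha _
  have hfix0 : ∀ k, ak k • xk k = xk k := by
    intro k
    change (h ^ k * a * (h ^ k)⁻¹) • h ^ k • x = h ^ k • x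
    rw [← mul_smul, inv_mul_cancel_right, mul_smul, hax]
  have hmov : ∀ k, ak k • xk (k + 1) ≠ xk (k + 1) := by
    intro k hk
    change (h ^ k * a * (h ^ k)⁻¹) • h ^ (k + 1) • x = h ^ (k + 1) • x at hk
    have h3 : h ^ (k + 1) • x = h ^ k • h • x := by rw [pow_succ, mul_smul]
    have h4 : (h ^ k * a * (h ^ k)⁻¹) • h ^ k • h • x = h ^ k • a • h • x := by
      rw [smul_smul _ (h ^ k) (h • x), inv_mul_cancel_right, mul_smul]
    rw [h3, h4] at hk
    exact hay (smul_left_cancel _ hk)
  have hJ : ∀ k, xk (k + 1) ∈ Jset N (xk k) := by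
    intro k
    change h ^ (k + 1) • x ∈ Jset N (h ^ k • x)
    rw [pow_succ, mul_smul]
    exact (JPart_Jset_smul hm hNn (h ^ k) x (h • x)).2 hy
  have hfix : ∀ k j, ak (k + j) • xk k = xk k := by
    intro k j
    induction j generalizing k with
    | zero => exact hfix0 k
    | succ j ih =>
      by_contra hne
      have h1 := hJ k (ak (k + (j + 1))) (hakN _) hne
      have h2 := ih (k + 1)
      rw [show k + 1 + j = k + (j + 1) by omega] at h2
      exact JPart_ne_of_mem hm hne h1 h2
  obtain ⟨g, hg⟩ := htr o x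
  refine hs (fun k => g⁻¹ * ak k * g) (fun k => ?_) (fun k k' hkk => ?_)
  · have h1 := hfix 0 k
    rw [Nat.zero_add] at h1
    have h2 : xk 0 = x := by
      change h ^ 0 • x = x
      rw [pow_zero, one_smul]
    rw [h2] at h1
    rw [mul_smul, hg, mul_smul, h1, ← hg, inv_smul_smul]
  · refine ⟨g⁻¹ • xk (k + 1), ?_, ?_⟩
    · intro h1
      rw [mul_smul, smul_inv_smul, mul_smul] at h1
      exact hmov k (smul_left_cancel _ h1)
    · have h1 := hfix (k + 1) (k' - (k + 1))
      rw [show k + 1 + (k' - (k + 1)) = k' by omega] at h1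
      rw [mul_smul, smul_inv_smul, mul_smul, h1]

private theorem part_sub (hm : Mono G Ω) (htr : ∀ x y : Ω, ∃ g : G, g • x = y) {o : Ω}
    (hs : Small G o) {N : Subgroup G} (hNn : N.Normal) {x y : Ω} (hy : y ∈ Jset N x) :
    Jset N x ⊆ Jset N y := by
  intro z hz a ha hay
  have h1 := part_claim hm htr hs hNn hy ha hay
  have h2 := comp_eq_of_mem hm h1
  rw [← h2]
  exact hz a ha (JPart_ne_of_mem hm hay h1)

/-- the sets `Jset N x` form a partition -/
theorem jset_part (hm : Mono G Ω) (htr : ∀ x y : Ω, ∃ g : G, g • x = y) {o : Ω}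
    (hs : Small G o) {N : Subgroup G} (hNn : N.Normal) :
    ∀ x y : Ω, y ∈ Jset N x → Jset N y = Jset N x := by
  intro x y hy
  have h1 := part_sub hm htr hs hNn hy
  exact Set.Subset.antisymm (part_sub hm htr hs hNn (h1 (JPart_self x))) h1

/-- the dichotomy -/
theorem jset_split (hm : Mono G Ω) (htr : ∀ x y : Ω, ∃ g : G, g • x = y) (hprim : Prim G Ω)
    {o : Ω} (hs : Small G o) {N : Subgroup G} (hNn : N.Normal) :
    (∀ x : Ω, Jset N x = {x}) ∨
      ∀ a ∈ N, (∀ x : Ω, a • x = x) ∨ (∀ x : Ω, comp a x = Set.univ) := by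
  have p3 : ∀ x y z w : Ω, y ∈ Jset N x → w ∈ Jset N x → y ≤ z → z ≤ w → z ∈ Jset N x := by
    intro x y z w hy hw hyz hzw a ha hax
    obtain ⟨⟨m, hm⟩, -⟩ := hy a ha hax
    obtain ⟨-, ⟨n, hn⟩⟩ := hw a ha hax
    exact ⟨⟨m, hm.trans hyz⟩, ⟨n, hzw.trans hn⟩⟩
  rcases hprim (Jset N) (fun x => JPart_self x) (jset_part hm htr hs hNn) p3
    (fun g x y hy => (JPart_Jset_smul hm hNn g x y).2 hy) with h | h
  · exact Or.inl h
  · right
    intro a ha
    by_cases hfix : ∀ x : Ω, a • x = x
    · exact Or.inl hfix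
    · right
      push Not at hfix
      obtain ⟨x₀, hx₀⟩ := hfix
      have h1 : comp a x₀ = Set.univ := by
        rw [Set.eq_univ_iff_forall]
        intro z
        have hz : z ∈ Jset N x₀ := by
          rw [h]
          exact Set.mem_univ z
        exact hz a ha hx₀
      intro x
      have h2 : x ∈ comp a x₀ := by
        rw [h1]
        exact Set.mem_univ x
      rw [comp_eq_of_mem hm h2, h1]

end Pool.Agent.IsoHnn
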