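import Pool.Agent.IsoOrd.Main
import Pool.Agent.IsoOrd.TransHom

/-!
# Relative hyper-NFS groups, centrality of discrete translations, an affine lemma
-/

set_option autoImplicit false

namespace Pool.Agent.IsoHnn

open Pool.Agent.IsoOrd

/-- the quotient by `K` is hyper-NFS: every nontrivial quotient of it has a nontrivial normal
subgroup without free subsemigroups of rank two -/
def HNrel (G : Type*) [Group G] (K : Subgroup G) : Prop :=
  ∀ L : Subgroup G, L.Normal → K ≤ L → L ≠ ⊤ → ∃ N : Subgroup G, N.Normal ∧ L < N ∧ RelNFS N L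

variable {G : Type*} [Group G]

private theorem rel_normal_sSup {c : Set (Subgroup G)} (hne : c.Nonempty)
    (hc : IsChain (· ≤ ·) c) (h : ∀ s ∈ c, s.Normal) : (sSup c).Normal := by
  refine ⟨fun n hn g => ?_⟩
  rw [Subgroup.mem_sSup_of_directedOn hne hc.directedOn] at hn ⊢
  obtain ⟨s, hs, hns⟩ := hn
  exact ⟨s, hs, (h s hs).conj_mem n hns g⟩

/-- a maximal normal subgroup without free subsemigroups modulo `L` -/
theorem exists_max_rel {K L : Subgroup G} (h : HNrel G K) (hL : L.Normal) (hKL : K ≤ L)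
    (hne : L ≠ ⊤) : ∃ N : Subgroup G, N.Normal ∧ L < N ∧ RelNFS N L ∧
      ∀ M : Subgroup G, M.Normal → N < M → ¬ RelNFS M L := by
  obtain ⟨N₀, hN₀, hKN₀, hrel₀⟩ := h L hL hKL hne
  obtain ⟨N, hle, hN⟩ := zorn_le_nonempty₀ {M : Subgroup G | M.Normal ∧ RelNFS M L} (by
    intro c hc hch y hy
    have hcne : c.Nonempty := ⟨y, hy⟩
    refine ⟨sSup c, ⟨rel_normal_sSup hcne hch fun s hs => (hc hs).1, ?_⟩,
      fun z hz => le_sSup hz⟩
    intro a ha b hb
    rw [Subgroup.mem_sSup_of_directedOn hcne hch.directedOn] at ha hb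
    obtain ⟨s, hs, has⟩ := ha
    obtain ⟨t, ht, hbt⟩ := hb
    rcases hch.total hs ht with hst | hst
    · exact (hc ht).2 a (hst has) b hbt
    · exact (hc hs).2 a has b (hst hbt)) N₀ ⟨hN₀, hrel₀⟩
  refine ⟨N, hN.prop.1, lt_of_lt_of_le hKN₀ hle, hN.prop.2, ?_⟩
  intro M hM hNM hrel
  have := hN.le_of_ge (show M ∈ {M : Subgroup G | M.Normal ∧ RelNFS M L} from ⟨hM, hrel⟩) hNM.le
  exact absurd this (not_le_of_gt hNM)

/-- a normal subgroup with discrete translations is central modulo the kernel -/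
theorem discrete_central {Ω : Type*} [LinearOrder Ω] [MulAction G Ω] (hm : Mono G Ω)
    {N : Subgroup G} (hNn : N.Normal) (o : Ω) (t : G → ℝ)
    (ht : ∀ a ∈ N, ∀ b ∈ N, t (a * b) = t a + t b)
    (htp : ∀ a ∈ N, ∀ x : Ω, (0 < t a ↔ x < a • x)) {n₁ : G} (hn₁ : n₁ ∈ N)
    (hk : ∀ a ∈ N, ∃ k : ℤ, t a = k * t n₁) :
    ∀ g : G, ∀ n ∈ N, ∀ x : Ω, (g * n * g⁻¹ * n⁻¹) • x = x := by
  have ht1 : t 1 = 0 := by
    have := ht 1 (one_mem N) 1 (one_mem N)
    rw [mul_one] at this
    linarith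
  have hti : ∀ a ∈ N, t a⁻¹ = - t a := by
    intro a ha
    have := ht a ha a⁻¹ (inv_mem ha)
    rw [mul_inv_cancel, ht1] at this
    linarith
  have htz : ∀ a ∈ N, t a = 0 → ∀ x : Ω, a • x = x := by
    intro a ha h0 x
    by_contra hne
    rcases lt_or_gt_of_ne hne with hlt | hlt
    · have h1 : x < a⁻¹ • x := by
        have := hm a⁻¹ _ _ hlt
        rwa [inv_smul_smul] at this
      have := (htp a⁻¹ (inv_mem ha) x).2 h1
      rw [hti a ha] at this
      linarith
    · have := (htp a ha x).2 hlt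
      linarith
  by_cases hn1 : t n₁ = 0
  · intro g n hn x
    refine htz _ (mul_mem (hNn.conj_mem n hn g) (inv_mem hn)) ?_ x
    obtain ⟨k, hk'⟩ := hk _ (mul_mem (hNn.conj_mem n hn g) (inv_mem hn))
    rw [hk', hn1, mul_zero]
  have key : ∀ g : G, ∃ l : ℝ, 0 < l ∧ ∀ a ∈ N, t (g * a * g⁻¹) = l * t a := by
    intro g
    apply hom_unique N t (fun a => t (g * a * g⁻¹)) ht
    · intro a ha b hb
      have : g * (a * b) * g⁻¹ = (g * a * g⁻¹) * (g * b * g⁻¹) := by group
      change t (g * (a * b) * g⁻¹) = _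
      rw [this, ht _ (hNn.conj_mem a ha g) _ (hNn.conj_mem b hb g)]
    · intro a ha
      rw [htp a ha (g⁻¹ • o), htp _ (hNn.conj_mem a ha g) o]
      constructor
      · intro h1
        have h2 := hm g _ _ h1
        rw [smul_inv_smul] at h2
        rw [mul_smul, mul_smul]
        exact h2
      · intro h1
        have h2 := hm g⁻¹ _ _ h1
        rw [mul_smul, mul_smul, inv_smul_smul] at h2
        exact h2
  have hlam : ∀ g : G, ∀ n ∈ N, t (g * n * g⁻¹) = t n := by
    intro g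
    obtain ⟨l, hl, hla⟩ := key g
    obtain ⟨l', hl', hla'⟩ := key g⁻¹
    have hll : l' * l = 1 := by
      have h1 := hla' (g * n₁ * g⁻¹) (hNn.conj_mem n₁ hn₁ g)
      have h2 : g⁻¹ * (g * n₁ * g⁻¹) * g⁻¹⁻¹ = n₁ := by group
      rw [h2, hla n₁ hn₁] at h1
      have h3 : (l' * l - 1) * t n₁ = 0 := by linarith
      rcases mul_eq_zero.1 h3 with h4 | h4
      · linarith
      · exact absurd h4 hn1
    obtain ⟨k, hk1⟩ := hk _ (hNn.conj_mem n₁ hn₁ g)
    obtain ⟨k', hk2⟩ := hk _ (hNn.conj_mem n₁ hn₁ g⁻¹)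
    have e1 : l = k := by
      rw [hla n₁ hn₁] at hk1
      exact mul_right_cancel₀ hn1 hk1
    have e2 : l' = k' := by
      rw [hla' n₁ hn₁] at hk2
      exact mul_right_cancel₀ hn1 hk2
    have hkpos : (0 : ℤ) < k := by
      have : (0:ℝ) < k := by rw [← e1]; exact hl
      exact_mod_cast this
    have hkpos' : (0 : ℤ) < k' := by
      have : (0:ℝ) < k' := by rw [← e2]; exact hl'
      exact_mod_cast this
    have hkk : k' * k = 1 := by
      have : ((k' * k : ℤ) : ℝ) = 1 := by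
        push_cast
        rw [← e1, ← e2]
        exact hll
      exact_mod_cast this
    have hk1' : k = 1 := by
      have h5 : 1 ≤ k := hkpos
      have h6 : 1 ≤ k' := hkpos'
      have h7 : k ≤ k' * k := by
        calc k = 1 * k := (one_mul k).symm
          _ ≤ k' * k := Int.mul_le_mul_of_nonneg_right h6 (le_of_lt hkpos)
      omega
    intro n hn
    rw [hla n hn, e1, hk1']
    push_cast
    ring
  intro g n hn x
  have hmem : g * n * g⁻¹ * n⁻¹ ∈ N := mul_mem (hNn.conj_mem n hn g) (inv_mem hn)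
  refine htz _ hmem ?_ x
  rw [ht _ (hNn.conj_mem n hn g) _ (inv_mem hn), hlam g n hn, hti n hn]
  ring

/-- an endomorphism which moves all small translations and their inverses down -/
theorem affine_contra {E : Subgroup G} (lam τ : G → ℝ) (hl : ∀ g, 0 < lam g)
    (hlm : ∀ g h, lam (g * h) = lam g * lam h) (hτ : ∀ g h, τ (g * h) = τ g + lam g * τ h)
    (φ : G →* G) {w w' : G} (hw : 0 < τ w) (hw' : τ w' < 0)
    (hE : ∀ a ∈ E, lam a = 1)
    (hdense : ∀ r s : ℝ, r < s → ∃ a ∈ E, r < τ a ∧ τ a < s)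
    (key : ∀ u, 0 < τ u → τ u < τ w → τ w' < τ u⁻¹ →
      τ (φ u) < τ u ∧ τ (φ u)⁻¹ < τ u⁻¹) : False := by
  have hl1 : lam 1 = 1 := by
    have := hlm 1 1
    rw [mul_one] at this
    have h0 := (hl 1).ne'
    field_simp at this
    linarith [this]
  have hτ1 : τ 1 = 0 := by
    have := hτ 1 1
    rw [mul_one, hl1] at this
    linarith
  have hli : ∀ g, lam g⁻¹ = (lam g)⁻¹ := by
    intro g
    have := hlm g g⁻¹
    rw [mul_inv_cancel, hl1] at this
    exact eq_inv_of_mul_eq_one_right this.symm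
  have hτi : ∀ g, lam g = 1 → τ g⁻¹ = - τ g := by
    intro g hg
    have := hτ g g⁻¹
    rw [mul_inv_cancel, hτ1, hg] at this
    linarith
  -- the final contradiction
  have fin : ∀ u, lam u = 1 → lam (φ u) = 1 → 0 < τ u → τ u < τ w → τ u < - τ w' → False := by
    intro u h1 h2 h3 h4 h5
    obtain ⟨k1, k2⟩ := key u h3 h4 (by rw [hτi u h1]; linarith)
    rw [hτi u h1, hτi _ h2] at k2
    linarith
  obtain ⟨δ, hδ, hδ1, hδ2⟩ : ∃ δ : ℝ, 0 < δ ∧ δ ≤ τ w ∧ δ ≤ - τ w' :=
    ⟨min (τ w) (- τ w'), lt_min hw (by linarith), min_le_left _ _, min_le_right _ _⟩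
  by_cases h1 : ∃ h, lam h ≠ 1
  · obtain ⟨h, hh⟩ := h1
    have hne : 0 < |lam h - 1| := abs_pos.2 (sub_ne_zero.2 hh)
    obtain ⟨e, heE, he1, he2⟩ := hdense 0 (δ / |lam h - 1|) (div_pos hδ hne)
    have hle : lam e = 1 := hE e heE
    set u := h * e * h⁻¹ * e⁻¹ with hu
    have hlu : lam u = 1 := by
      rw [hu, hlm, hlm, hlm, hli, hli, hle]
      have := (hl h).ne'
      field_simp
    have hτu : τ u = (lam h - 1) * τ e := by
      have h2 : τ (h * h⁻¹) = 0 := by rw [mul_inv_cancel, hτ1]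
      rw [hτ] at h2
      have h3 := (hl h).ne'
      have e1 : lam (h * e) = lam h := by rw [hlm, hle, mul_one]
      have e2 : lam (h * e * h⁻¹) = 1 := by
        rw [hlm, e1, hli]
        exact mul_inv_cancel₀ h3
      have e3 : τ (h * e * h⁻¹ * e⁻¹) = τ (h * e * h⁻¹) + lam (h * e * h⁻¹) * τ e⁻¹ := hτ _ _
      have e4 : τ (h * e * h⁻¹) = τ (h * e) + lam (h * e) * τ h⁻¹ := hτ _ _
      have e5 : τ (h * e) = τ h + lam h * τ e := hτ _ _
      rw [hu, e3, e2, e4, e1, e5, hτi e hle]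
      linarith
    have hφu : lam (φ u) = 1 := by
      rw [hu, map_mul, map_mul, map_mul, map_inv, map_inv, hlm, hlm, hlm, hli, hli]
      have h2 := (hl (φ h)).ne'
      have h3 := (hl (φ e)).ne'
      field_simp
    have hsmall : |τ u| < δ := by
      rw [hτu, abs_mul, abs_of_pos he1]
      rwa [lt_div_iff₀ hne, mul_comm] at he2
    have hne0 : τ u ≠ 0 := by
      rw [hτu]
      exact mul_ne_zero (sub_ne_zero.2 hh) he1.ne'
    rcases lt_or_gt_of_ne hne0 with h2 | h2
    · have h3 : τ u⁻¹ = - τ u := hτi u hlu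
      rw [abs_of_neg h2] at hsmall
      refine fin u⁻¹ ?_ ?_ (by rw [h3]; linarith) (by rw [h3]; linarith) (by rw [h3]; linarith)
      · rw [hli, hlu, inv_one]
      · rw [map_inv, hli, hφu, inv_one]
    · rw [abs_of_pos h2] at hsmall
      exact fin u hlu hφu h2 (by linarith) (by linarith)
  · push Not at h1
    obtain ⟨e, heE, he1, he2⟩ := hdense 0 δ hδ
    exact fin e (h1 e) (h1 _) he1 (by linarith) (by linarith)

end Pool.Agent.IsoHnn
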