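import Pool.Agent.IsoHnn.LineC
import Pool.Agent.IsoHnn.Part
import Pool.Agent.IsoHnn.Rel

/-!
# The final contradiction

A parabolic element `c` at `o` (`c x < x` near `o` on both sides, on the right up to a fixed point
`β`) cannot have a group `M` with `c M c⁻¹ ≤ M`, hyper-NFS modulo elements acting trivially, which
moves `o` inside the basin to both sides and acts primitively on its orbit `M o`.
-/

set_option autoImplicit false

namespace Pool.Agent.IsoHnn

open Pool.Agent.IsoOrd

theorem ev_coe {G : Type*} [Group G] {M : Subgroup G} (a b : M) (w : List Bool) :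
    ((ev a b w : M) : G) = ev (a : G) (b : G) w := by
  unfold ev
  induction w with
  | nil => simp
  | cons i w ih =>
    simp only [List.map_cons, List.prod_cons, Subgroup.coe_mul, ih]
    cases i <;> rfl

variable {G X : Type*} [Group G] [CompleteLinearOrder X] [MulAction G X]

/-- the ends of the component at `o` -/
theorem exists_NF (hm : Mono G X) {e : G} {o a b : X} (he : e • o ≠ o)
    (ha : ∀ k : ℤ, a ≤ e ^ k • o) (hb : ∀ k : ℤ, e ^ k • o ≤ b) :
    ∃ p q : X, NF e p q ∧ a ≤ p ∧ p < o ∧ o < q ∧ q ≤ b := by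
  have main : ∀ e : G, o < e • o → (∀ k : ℤ, a ≤ e ^ k • o) → (∀ k : ℤ, e ^ k • o ≤ b) →
      ∃ p q : X, NF e p q ∧ a ≤ p ∧ p < o ∧ o < q ∧ q ≤ b := by
    intro e he ha hb
    obtain ⟨q, q1, q2, q3, q4⟩ := tool_sup hm he
    obtain ⟨p, p1, p2, p3, p4⟩ := tool_inf hm (inv_lt hm he)
    have p1' := fix_of_inv p1
    refine ⟨p, q, ⟨p1', q1, ?_⟩, ?_, p2, q2, ?_⟩
    · intro x h1 h2 h3
      rcases le_total o x with h | h
      · exact absurd (q3 x h3 h) (not_le.2 h2)
      · exact absurd (p3 x (inv_fix h3) h) (not_le.2 h1)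
    · by_contra h
      obtain ⟨n, hn⟩ := p4 a (not_le.1 h)
      have h1 := hn n le_rfl
      have h2 := ha (-(n : ℤ))
      rw [zpow_neg, zpow_natCast, ← inv_pow] at h2
      exact absurd h1 (not_lt.2 h2)
    · by_contra h
      obtain ⟨n, hn⟩ := q4 b (not_le.1 h)
      have h1 := hn n le_rfl
      have h2 := hb (n : ℤ)
      rw [zpow_natCast] at h2
      exact absurd h1 (not_lt.2 h2)
  rcases lt_or_gt_of_ne he with h | h
  · obtain ⟨p, q, h1, h2⟩ := main e⁻¹ (lt_inv hm h) (fun k => by rw [inv_zpow']; exact ha (-k))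
      (fun k => by rw [inv_zpow']; exact hb (-k))
    refine ⟨p, q, ?_, h2⟩
    have := h1.inv
    rwa [inv_inv] at this
  · exact main e h ha hb

/-- the final contradiction -/
theorem fin_contra (hm : Mono G X) {o β u : X} {c : G} (hco : c • o = o) (hcβ : c • β = β)
    (hR : ∀ x : X, o < x → x < β → c • x < x) (hL : ∀ x : X, u ≤ x → x < o → c • x < x)
    {M : Subgroup G} (hc : ∀ g ∈ M, c * g * c⁻¹ ∈ M)
    {w w' : G} (hw : w ∈ M) (hwo : o < w • o) (hwβ : w • o < β)
    (hw' : w' ∈ M) (hwo' : w' • o < o) (hwu : u ≤ w' • o)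
    {K : Subgroup G} (hK : ∀ k ∈ K, k ∈ M → ∀ g ∈ M, k • g • o = g • o)
    (hHN : HNrel M (K.subgroupOf M))
    (hprim : ∀ H : Subgroup G, H ≤ M → (∀ g ∈ M, ∀ h ∈ H, o ≤ g • o → g • o ≤ h • o → g ∈ H) →
      (∀ h ∈ H, h • o = o) ∨ H = M)
    (hfin : ∀ d : ℕ → G, (∀ k, d k ∈ M) → (∀ k, d k • o = o) →
      (∀ k k', k < k' → ∃ x : X, d k • x ≠ x ∧ d k' • x = x) → False) : False := by
  classical
  let Ω := MulAction.orbit M o
  let o' : Ω := ⟨o, MulAction.mem_orbit_self o⟩
  have hsm : ∀ (g : M) (x : Ω), ((g • x : Ω) : X) = (g : G) • (x : X) := fun g x => rfl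
  have hmΩ : Mono M Ω := fun g x y h => hm (g : G) (x : X) (y : X) h
  have htr0 : ∀ x : Ω, ∃ g : M, g • o' = x := by
    rintro ⟨x, g, hg⟩
    exact ⟨g, Subtype.ext hg⟩
  have htr : ∀ x y : Ω, ∃ g : M, g • x = y := by
    intro x y
    obtain ⟨g, rfl⟩ := htr0 x
    obtain ⟨h, rfl⟩ := htr0 y
    exact ⟨h * g⁻¹, by rw [mul_smul, inv_smul_smul]⟩
  have hs : Small M o' := by
    intro d hd1 hd2
    refine hfin (fun k => (d k : G)) (fun k => (d k).2) (fun k => congrArg Subtype.val (hd1 k))
      (fun k k' hkk => ?_)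
    obtain ⟨x, hx1, hx2⟩ := hd2 k k' hkk
    exact ⟨x, fun h => hx1 (Subtype.ext h), congrArg Subtype.val hx2⟩
  -- primitivity
  have hprimΩ : Prim M Ω := by
    intro J p1 p2 p3 p4
    have hJinv : ∀ g : M, g • o' ∈ J o' → J (g • o') = J o' := fun g hg => p2 _ _ hg
    let H : Subgroup G :=
      { carrier := {g | ∃ hg : g ∈ M, (⟨g, hg⟩ : M) • o' ∈ J o'}
        mul_mem' := by
          rintro a b ⟨ha, ha'⟩ ⟨hb, hb'⟩
          refine ⟨mul_mem ha hb, ?_⟩
          have h1 := p4 ⟨a, ha⟩ _ _ hb'
          rw [hJinv _ ha'] at h1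
          have h2 : (⟨a * b, mul_mem ha hb⟩ : M) = ⟨a, ha⟩ * ⟨b, hb⟩ := rfl
          rw [h2, mul_smul]
          exact h1
        one_mem' := by
          refine ⟨one_mem M, ?_⟩
          have h2 : (⟨1, one_mem M⟩ : M) = 1 := rfl
          rw [h2, one_smul]
          exact p1 o'
        inv_mem' := by
          rintro a ⟨ha, ha'⟩
          refine ⟨inv_mem ha, ?_⟩
          have h1 := p4 (⟨a, ha⟩ : M)⁻¹ _ _ ha'
          rw [inv_smul_smul] at h1
          have h3 := p2 _ _ h1
          have h2 : (⟨a⁻¹, inv_mem ha⟩ : M) = (⟨a, ha⟩ : M)⁻¹ := rfl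
          rw [h2, h3]
          exact p1 _ }
    have hmem : ∀ g : M, (g : G) ∈ H ↔ g • o' ∈ J o' := fun g =>
      ⟨fun ⟨_, h⟩ => h, fun h => ⟨g.2, h⟩⟩
    rcases hprim H (fun g hg => hg.1) (by
      rintro g hg h ⟨hh, hh'⟩ h1 h2
      exact ⟨hg, p3 o' o' _ _ (p1 o') hh' h1 h2⟩) with h1 | h1
    · left
      intro x
      obtain ⟨g, rfl⟩ := htr0 x
      ext y
      rw [Set.mem_singleton_iff]
      constructor
      · intro hy
        obtain ⟨f, rfl⟩ := htr0 y
        have h2 := p4 g⁻¹ _ _ hy
        rw [inv_smul_smul, ← mul_smul] at h2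
        have h3 := h1 _ ((hmem _).2 h2)
        have h4 : (g⁻¹ * f) • o' = o' := Subtype.ext h3
        rw [mul_smul, inv_smul_eq_iff] at h4
        exact h4
      · rintro rfl
        exact p1 _
    · right
      have h2 : J o' = Set.univ := by
        rw [Set.eq_univ_iff_forall]
        intro y
        obtain ⟨f, rfl⟩ := htr0 y
        rw [← hmem, h1]
        exact f.2
      intro x
      rw [p2 o' x (by rw [h2]; exact Set.mem_univ x), h2]
  -- the kernel and a maximal normal subgroup
  have hker : ∀ k ∈ ker M Ω, ∀ x : Ω, k • x = x := fun k hk => hk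
  have hKker : K.subgroupOf M ≤ ker M Ω := by
    intro k hk x
    obtain ⟨g, rfl⟩ := htr0 x
    exact Subtype.ext (hK _ hk k.2 _ g.2)
  have hkne : ker M Ω ≠ ⊤ := by
    intro h
    have h1 : (⟨w, hw⟩ : M) ∈ ker M Ω := by
      rw [h]
      exact Subgroup.mem_top _
    have h2 := congrArg Subtype.val (h1 o')
    exact hwo.ne' h2
  obtain ⟨E, hEn, hkE, hE, hEmax⟩ := exists_max_rel hHN (ker_normal M Ω) hKker hkne
  rcases jset_split hmΩ htr hprimΩ hs hEn with hJ | hdich
  · -- the components shrink to `o`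
    have hout : ∀ g : M, g • o' ≠ o' → ∃ e ∈ E, e • o' ≠ o' ∧ g • o' ∉ comp e o' := by
      intro g hg
      by_contra hcon
      push Not at hcon
      have h1 : g • o' ∈ Jset E o' := fun e he heo => hcon e he heo
      rw [hJ] at h1
      exact hg h1
    have hW : (⟨w, hw⟩ : M) • o' ≠ o' := fun h => hwo.ne' (congrArg Subtype.val h)
    have hW' : (⟨w', hw'⟩ : M) • o' ≠ o' := fun h => hwo'.ne (congrArg Subtype.val h)
    obtain ⟨e₁, he₁, hm₁, hn₁⟩ := hout _ hW
    obtain ⟨e₂, he₂, hm₂, hn₂⟩ := hout _ hW'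
    obtain ⟨e, he, heo, heW, heW'⟩ : ∃ e ∈ E, e • o' ≠ o' ∧ (⟨w, hw⟩ : M) • o' ∉ comp e o' ∧
        (⟨w', hw'⟩ : M) • o' ∉ comp e o' := by
      rcases cross hmΩ hE hker he₁ he₂ o' o' ⟨o', cross_mem_self _ _, cross_mem_self _ _⟩ with
        h | h
      · exact ⟨e₁, he₁, hm₁, hn₁, fun h' => hn₂ (h h')⟩
      · exact ⟨e₂, he₂, hm₂, fun h' => hn₁ (h h'), hn₂⟩
    have hpow : ∀ k : ℤ, ((e ^ k • o' : Ω) : X) = (e : G) ^ k • o := by
      intro k
      rw [hsm, SubgroupClass.coe_zpow]
    have hb : ∀ k : ℤ, (e : G) ^ k • o ≤ w • o := by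
      intro k
      by_contra h
      apply heW
      refine ⟨⟨0, ?_⟩, ⟨k, ?_⟩⟩
      · rw [zpow_zero, one_smul]
        exact hwo.le
      · change ((⟨w, hw⟩ : M) • o' : Ω).1 ≤ (e ^ k • o' : Ω).1
        rw [hpow]
        exact (not_le.1 h).le
    have ha : ∀ k : ℤ, w' • o ≤ (e : G) ^ k • o := by
      intro k
      by_contra h
      apply heW'
      refine ⟨⟨k, ?_⟩, ⟨0, ?_⟩⟩
      · change (e ^ k • o' : Ω).1 ≤ ((⟨w', hw'⟩ : M) • o' : Ω).1
        rw [hpow]
        exact (not_le.1 h).le
      · rw [zpow_zero, one_smul]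
        exact hwo'.le
    obtain ⟨p, q, hNF, hp1, hp2, hq1, hq2⟩ := exists_NF hm (e := (e : G)) (o := o)
      (fun h => heo (Subtype.ext h)) ha hb
    have S : Sit M (E.map M.subtype) c o β :=
      { hm := hm
        hE := by
          rintro a ⟨a', ha', rfl⟩ b ⟨b', hb', rfl⟩
          obtain ⟨w₁, w₂, hne, hwk⟩ := hE a' ha' b' hb'
          refine ⟨w₁, w₂, hne, fun g hg => ?_⟩
          have h1 := hker _ hwk ((⟨g, hg⟩ : M) • o')
          rw [mul_smul, inv_smul_eq_iff] at h1
          have h2 := congrArg Subtype.val h1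
          rw [hsm, hsm, hsm, ev_coe, ev_coe] at h2
          exact h2.symm
        hEM := by
          rintro a ⟨a', ha', rfl⟩
          exact a'.2
        hn := by
          rintro g hg a ⟨a', ha', rfl⟩
          exact ⟨⟨g, hg⟩ * a' * (⟨g, hg⟩ : M)⁻¹, hEn.conj_mem a' ha' _, rfl⟩
        hc := hc
        hco := hco
        hcβ := hcβ
        hR := hR
        hfin := hfin }
    exact S.line ⟨e, he, rfl⟩ hNF (fun x h1 h2 => hL x (hwu.trans (hp1.trans h1)) h2) hp2 hq1
      (hq2.trans_lt hwβ)
  · -- translations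
    let φ : M →* M :=
      { toFun := fun g => ⟨c * g * c⁻¹, hc g g.2⟩
        map_one' := Subtype.ext (by simp)
        map_mul' := fun a b => Subtype.ext (by simp) }
    have hφo : ∀ g : M, ((φ g • o' : Ω) : X) = c • (g : G) • o := by
      intro g
      change (c * (g : G) * c⁻¹) • o = _
      rw [mul_smul, mul_smul, inv_fix hco]
    have hφo' : ∀ g : M, (((φ g)⁻¹ • o' : Ω) : X) = c • (g : G)⁻¹ • o := by
      intro g
      rw [← map_inv]
      exact hφo g⁻¹
    obtain ⟨n, hnE, hnk⟩ := SetLike.exists_of_lt hkE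
    have hn' : ∃ x : Ω, n • x ≠ x := by
      by_contra hcon
      push Not at hcon
      exact hnk hcon
    obtain ⟨x₁, hx₁⟩ := hn'
    have hcof : ∀ x : Ω, comp n x = Set.univ := by
      rcases hdich n hnE with h | h
      · exact absurd (h x₁) hx₁
      · exact h
    obtain ⟨t, ht, htp⟩ := exists_trans_hom hmΩ o' hdich
    rcases discrete_or_dense t ht with ⟨n₁, hn₁, hk⟩ | hdense
    · -- discrete
      have hcent := discrete_central hmΩ hEn o' t ht htp hn₁ hk
      have hEtop : E = ⊤ := by
        by_contra hne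
        obtain ⟨N₂, hN₂, hlt, hrel⟩ := hHN E hEn (hKker.trans hkE.le) hne
        exact hEmax N₂ hN₂ hlt (central_ext (ker_normal M Ω)
          (fun g n hn => hcent g n hn) hrel)
      have hall : ∀ g : M, g ∈ E := fun g => by rw [hEtop]; exact Subgroup.mem_top g
      have htlt : ∀ a b : M, t a < t b ↔ a • o' < b • o' := by
        intro a b
        have h1 := htp (a⁻¹ * b) (hall _) o'
        have ht1 : t 1 = 0 := by
          have := ht 1 (one_mem E) 1 (one_mem E)
          rw [mul_one] at this
          linarith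
        have h2 : t a⁻¹ = - t a := by
          have := ht a (hall a) a⁻¹ (hall _)
          rw [mul_inv_cancel, ht1] at this
          linarith
        rw [ht _ (hall _) _ (hall _), h2, mul_smul] at h1
        constructor
        · intro h
          have h3 := h1.1 (by linarith)
          have h4 := hmΩ a _ _ h3
          rwa [smul_inv_smul] at h4
        · intro h
          have h3 := hmΩ a⁻¹ _ _ h
          rw [inv_smul_smul] at h3
          have h4 := h1.2 h3
          linarith
      have ht1 : t 1 = 0 := by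
        have := ht 1 (one_mem E) 1 (one_mem E)
        rw [mul_one] at this
        linarith
      -- the sequence
      set a : ℕ → M := fun k => (φ^[k]) ⟨w, hw⟩ with ha
      have hastep : ∀ k, a (k + 1) = φ (a k) := fun k => Function.iterate_succ_apply' _ _ _
      have hao : ∀ k, o < ((a k : M) : G) • o ∧ ((a k : M) : G) • o < β := by
        intro k
        induction k with
        | zero => exact ⟨hwo, hwβ⟩
        | succ k ih =>
          have h1 := hφo (a k)
          rw [← hastep] at h1
          have h2 : ((a (k + 1) : M) : G) • o = c • ((a k : M) : G) • o := h1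
          rw [h2]
          refine ⟨?_, (hR _ ih.1 ih.2).trans ih.2⟩
          have h3 := hm c _ _ ih.1
          rwa [hco] at h3
      have hdec : ∀ k, t (a (k + 1)) < t (a k) := by
        intro k
        rw [htlt, hastep]
        change ((φ (a k) • o' : Ω) : X) < ((a k • o' : Ω) : X)
        rw [hφo]
        exact hR _ (hao k).1 (hao k).2
      have hpos : ∀ k, 0 < t (a k) := by
        intro k
        rw [← ht1, htlt, one_smul]
        exact (hao k).1
      have hn1 : t n₁ ≠ 0 := by
        intro h0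
        obtain ⟨k, hk'⟩ := hk (a 0) (hall _)
        have h1 := hpos 0
        rw [hk', h0, mul_zero] at h1
        exact lt_irrefl _ h1
      have hδ : 0 < |t n₁| := abs_pos.2 hn1
      have hstep : ∀ k, t (a (k + 1)) + |t n₁| ≤ t (a k) := by
        intro k
        obtain ⟨i, hi⟩ := hk (a k) (hall _)
        obtain ⟨j, hj⟩ := hk (a (k + 1)) (hall _)
        have h1 := hdec k
        rw [hi, hj] at h1 ⊢
        have h2 : 0 < ((i : ℝ) - j) * t n₁ := by linarith
        have h3 : (1 : ℝ) ≤ |(i : ℝ) - j| := by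
          have h4 : i - j ≠ 0 := by
            intro h5
            have h6 : (i : ℝ) - j = 0 := by exact_mod_cast congrArg (fun z : ℤ => (z : ℝ)) h5
            rw [h6, zero_mul] at h2
            exact lt_irrefl _ h2
          have h7 := Int.one_le_abs h4
          exact_mod_cast h7
        have h4 : |t n₁| ≤ ((i : ℝ) - j) * t n₁ := by
          rw [← abs_of_pos h2, abs_mul]
          nlinarith
        linarith
      have hsum : ∀ k : ℕ, t (a k) ≤ t (a 0) - k * |t n₁| := by
        intro k
        induction k with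
        | zero => simp
        | succ k ih =>
          have := hstep k
          push_cast
          linarith
      obtain ⟨k, hk'⟩ := exists_nat_gt (t (a 0) / |t n₁|)
      rw [div_lt_iff₀ hδ] at hk'
      have h1 := hsum k
      have h2 := hpos k
      linarith
    · -- dense
      obtain ⟨lam, τ, hl, hlm, hτ, hτp, hτ0, hτE⟩ := affine_rep hmΩ hprimΩ hEn o' t ht htp
        ⟨n, hnE, hcof o'⟩ hdense
      have hl1 : lam 1 = 1 := (hτE 1 (one_mem E)).1
      have hτ1 : τ 1 = 0 := hτ0 1 (one_smul _ _)
      have hli : ∀ g, τ g = - lam g * τ g⁻¹ := by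
        intro g
        have := hτ g g⁻¹
        rw [mul_inv_cancel, hτ1] at this
        linarith
      have hsign : ∀ g : M, 0 < τ g → o' < g • o' := by
        intro g hg
        rcases lt_trichotomy (g • o') o' with h | h | h
        · exfalso
          have h1 := hmΩ g⁻¹ _ _ h
          rw [inv_smul_smul] at h1
          have h2 := hτp _ h1
          have h3 := hli g
          nlinarith [hl g, mul_pos (hl g) h2]
        · rw [hτ0 g h] at hg
          exact absurd hg (lt_irrefl _)
        · exact h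
      have hlt : ∀ a b : M, (τ a < τ b ↔ a • o' < b • o') := by
        have one : ∀ a b : M, τ a < τ b → a • o' < b • o' := by
          intro a b h
          have h1 : 0 < τ (a⁻¹ * b) := by
            rw [hτ]
            have h2 := hli a⁻¹
            rw [inv_inv] at h2
            rw [h2]
            have h3 := mul_pos (hl a⁻¹) (sub_pos.2 h)
            nlinarith
          have h4 := hmΩ a _ _ (hsign _ h1)
          rwa [mul_smul, smul_inv_smul] at h4
        have two : ∀ a b : M, a • o' < b • o' → τ a < τ b := by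
          intro a b h
          have h1 := hmΩ a⁻¹ _ _ h
          rw [inv_smul_smul, ← mul_smul] at h1
          have h2 := hτp _ h1
          rw [hτ] at h2
          have h3 := hli a⁻¹
          rw [inv_inv] at h3
          rw [h3] at h2
          have h4 := hl a⁻¹
          nlinarith
        exact fun a b => ⟨one a b, two a b⟩
      refine affine_contra lam τ hl hlm hτ φ (w := ⟨w, hw⟩) (w' := ⟨w', hw'⟩) (E := E) ?_ ?_
        (fun a ha => (hτE a ha).1) (fun r s hrs => ?_) (fun v h1 h2 h3 => ?_)
      · rw [← hτ1, hlt, one_smul]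
        exact hwo
      · rw [← hτ1, hlt, one_smul]
        exact hwo'
      · obtain ⟨a, haE, h1, h2⟩ := hdense r s hrs
        exact ⟨a, haE, by rw [(hτE a haE).2]; exact ⟨h1, h2⟩⟩
      · rw [← hτ1, hlt, one_smul] at h1
        rw [hlt] at h2 h3
        have h1' : o < (v : G) • o := h1
        have h2' : (v : G) • o < w • o := h2
        have h3' : w' • o < (v : G)⁻¹ • o := h3
        constructor
        · rw [hlt]
          change ((φ v • o' : Ω) : X) < ((v • o' : Ω) : X)
          rw [hφo]
          exact hR _ h1' (h2'.trans hwβ)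
        · rw [hlt]
          change (((φ v)⁻¹ • o' : Ω) : X) < ((v⁻¹ • o' : Ω) : X)
          rw [hφo']
          exact hL _ (hwu.trans h3'.le) (inv_lt hm h1')

end Pool.Agent.IsoHnn
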