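import Pool.Agent.IsoHnn.Min

/-!
# The gap lemma

`Γ` acts on the orbit `Γ o` without relatively convex subgroups between the stabiliser of `o` and
`Γ`, with a small stabiliser, and `Γ o` accumulates at `o` from the right. If `N` is a normal
subgroup of `Γ` and `N o` does not meet `(o, v)` then `N` is central modulo the kernel of the action
of `Γ` on `Γ o`.

Let `p` be the infimum of the points `n o > o`. `aa`: if `o ≤ x < p` and `o ≤ n x < p` then
`n o = o`. `bb`: elements of `N` fixing `o` fix the points of the orbit in `(o, p)` (otherwise one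
finds a strictly nested infinite sequence of supports). So `N` acts freely modulo the kernel. If `p`
is not attained then it is fixed by `Γ`, a contradiction. If `p = b o` then `b` is central modulo
the kernel and `N` is generated by `b` modulo the kernel.
-/

set_option autoImplicit false

namespace Pool.Agent.IsoHnn

open Pool.Agent.IsoOrd

variable {G X : Type*} [Group G] [CompleteLinearOrder X] [MulAction G X]

/-- a subgroup containing all elements which move `o` a little to the right is everything -/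
theorem core (hm : Mono G X) {Γ S : Subgroup G} {o p : X}
    (hacc : ∃ g ∈ Γ, o < g • o ∧ g • o < p)
    (hprim : ∀ H, RCvx Γ H o → (∀ h ∈ H, h • o = o) ∨ ∀ g ∈ Γ, g ∈ H)
    (hloc : ∀ g ∈ Γ, o ≤ g • o → g • o < p → g ∈ S) : ∀ g ∈ Γ, g ∈ S := by
  let H : Subgroup G :=
    { carrier := {g | g ∈ Γ ∧ ∀ g' ∈ Γ, ((o ≤ g' • o ∧ g' • o ≤ g • o) ∨
        (g • o ≤ g' • o ∧ g' • o ≤ o)) → g' ∈ S}
      mul_mem' := by
        rintro g h ⟨hg, hg'⟩ ⟨hh, hh'⟩
        have hgS : g ∈ S := by
          refine hg' g hg ?_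
          rcases le_total o (g • o) with h1 | h1
          · exact Or.inl ⟨h1, le_rfl⟩
          · exact Or.inr ⟨le_rfl, h1⟩
        have two : ∀ g' ∈ Γ, ((g • o ≤ g' • o ∧ g' • o ≤ (g * h) • o) ∨
            ((g * h) • o ≤ g' • o ∧ g' • o ≤ g • o)) → g' ∈ S := by
          intro g' hg'Γ hb
          have h1 : g⁻¹ * g' ∈ S := by
            refine hh' _ (mul_mem (inv_mem hg) hg'Γ) ?_
            rcases hb with ⟨h2, h3⟩ | ⟨h2, h3⟩
            · left
              rw [mul_smul]
              constructor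
              · rwa [← le_iff hm g, smul_inv_smul]
              · rw [← le_iff hm g, smul_inv_smul]
                rwa [mul_smul] at h3
            · right
              rw [mul_smul]
              constructor
              · rw [← le_iff hm g, smul_inv_smul]
                rwa [mul_smul] at h2
              · rwa [← le_iff hm g, smul_inv_smul]
          have h4 : g' = g * (g⁻¹ * g') := by group
          rw [h4]
          exact mul_mem hgS h1
        refine ⟨mul_mem hg hh, fun g' hg'Γ hb => ?_⟩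
        rcases hb with ⟨h1, h2⟩ | ⟨h1, h2⟩
        · rcases le_total (g' • o) (g • o) with h3 | h3
          · exact hg' g' hg'Γ (Or.inl ⟨h1, h3⟩)
          · exact two g' hg'Γ (Or.inl ⟨h3, h2⟩)
        · rcases le_total (g' • o) (g • o) with h3 | h3
          · exact two g' hg'Γ (Or.inr ⟨h1, h3⟩)
          · exact hg' g' hg'Γ (Or.inr ⟨h3, h2⟩)
      one_mem' := by
        refine ⟨one_mem Γ, fun g' hg'Γ hb => ?_⟩
        have h1 : g' • o = o := by
          rw [one_smul] at hb
          rcases hb with ⟨h1, h2⟩ | ⟨h1, h2⟩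
          · exact le_antisymm h2 h1
          · exact le_antisymm h2 h1
        obtain ⟨g, _, h2, h3⟩ := hacc
        exact hloc g' hg'Γ h1.ge (h1.trans_lt (h2.trans h3))
      inv_mem' := by
        rintro g ⟨hg, hg'⟩
        have hgS : g ∈ S := by
          refine hg' g hg ?_
          rcases le_total o (g • o) with h1 | h1
          · exact Or.inl ⟨h1, le_rfl⟩
          · exact Or.inr ⟨le_rfl, h1⟩
        refine ⟨inv_mem hg, fun g' hg'Γ hb => ?_⟩
        have h1 : g * g' ∈ S := by
          refine hg' _ (mul_mem hg hg'Γ) ?_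
          rw [mul_smul]
          rcases hb with ⟨h2, h3⟩ | ⟨h2, h3⟩
          · right
            constructor
            · rwa [le_iff hm]
            · rwa [← le_iff hm g⁻¹, inv_smul_smul]
          · left
            constructor
            · rwa [← le_iff hm g⁻¹, inv_smul_smul]
            · rwa [le_iff hm]
        have h4 : g' = g⁻¹ * (g * g') := by group
        rw [h4]
        exact mul_mem (inv_mem hgS) h1 }
  have hH : RCvx Γ H o := by
    refine ⟨fun g hg => hg.1, fun g hg h hh h1 h2 => ⟨hg, fun g' hg' hb => ?_⟩⟩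
    rcases hb with ⟨h3, h4⟩ | ⟨h3, h4⟩
    · exact hh.2 g' hg' (Or.inl ⟨h3, h4.trans h2⟩)
    · have h5 : g' • o = o := le_antisymm h4 (h1.trans h3)
      refine hh.2 g' hg' (Or.inl ⟨h5.ge, ?_⟩)
      rw [h5]
      exact h1.trans h2
  rcases hprim H hH with h1 | h1
  · obtain ⟨g, hg, h2, h3⟩ := hacc
    have h4 : g ∈ H := by
      refine ⟨hg, fun g' hg' hb => ?_⟩
      rcases hb with ⟨h4, h5⟩ | ⟨h4, h5⟩
      · exact hloc g' hg' h4 (h5.trans_lt h3)
      · exact absurd (h4.trans h5) (not_le.2 h2)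
    exact absurd (h1 g h4) h2.ne'
  · intro g hg
    refine (h1 g hg).2 g hg ?_
    rcases le_total o (g • o) with h2 | h2
    · exact Or.inl ⟨h2, le_rfl⟩
    · exact Or.inr ⟨le_rfl, h2⟩

/-- the hypotheses of the gap lemma -/
structure GS (Γ N : Subgroup G) (o v : X) : Prop where
  hm : Mono G X
  le : N ≤ Γ
  hN : ∀ g ∈ Γ, ∀ n ∈ N, g * n * g⁻¹ ∈ N
  hov : o < v
  hacc : ∃ g ∈ Γ, o < g • o ∧ g • o < v
  hprim : ∀ H, RCvx Γ H o → (∀ h ∈ H, h • o = o) ∨ ∀ g ∈ Γ, g ∈ H
  hfin : ∀ d : ℕ → G, (∀ k, d k ∈ Γ) → (∀ k, d k • o = o) →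
    (∀ k k', k < k' → ∃ x : X, d k • x ≠ x ∧ d k' • x = x) → False
  hgap : ∀ n ∈ N, ¬ (o < n • o ∧ n • o < v)

/-- the infimum of the points `n o > o` -/
def pt (N : Subgroup G) (o : X) : X := sInf {x | ∃ n ∈ N, o < n • o ∧ x = n • o}

variable {Γ N : Subgroup G} {o v : X}

theorem pt_le {n : G} (hn : n ∈ N) (h : o < n • o) : pt N o ≤ n • o := sInf_le ⟨n, hn, h, rfl⟩

theorem GS.v_le (S : GS Γ N o v) : v ≤ pt N o := by
  refine le_sInf ?_
  rintro _ ⟨n, hn, h1, rfl⟩
  by_contra h2
  exact S.hgap n hn ⟨h1, not_le.1 h2⟩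

theorem GS.o_lt (S : GS Γ N o v) : o < pt N o := S.hov.trans_le S.v_le

theorem GS.conj (S : GS Γ N o v) {g n : G} (hg : g ∈ Γ) (hn : n ∈ N) : g⁻¹ * n * g ∈ N := by
  have := S.hN g⁻¹ (inv_mem hg) n hn
  rwa [inv_inv] at this

theorem GS.aa (S : GS Γ N o v) {n : G} (hn : n ∈ N) {x : X} (h1 : o ≤ x) (h2 : x < pt N o)
    (h3 : o ≤ n • x) (h4 : n • x < pt N o) : n • o = o := by
  rcases lt_trichotomy (n • o) o with h | h | h
  · exfalso
    have h5 := pt_le (inv_mem hn) (lt_inv S.hm h)
    have h6 := h2.trans_le h5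
    rw [← lt_iff S.hm n, smul_inv_smul] at h6
    exact absurd h3 (not_le.2 h6)
  · exact h
  · exfalso
    have h5 := pt_le hn h
    have h6 : n • o ≤ n • x := (le_iff S.hm n).2 h1
    exact absurd (h5.trans h6) (not_le.2 h4)

/-- elements of `N` fixing `o` fix the points of the orbit in `(o, p)` -/
theorem GS.bb (S : GS Γ N o v) {n : G} (hn : n ∈ N) (hno : n • o = o) {g : G} (hg : g ∈ Γ)
    (h1 : o < g • o) (h2 : g • o < pt N o) : n • g • o = g • o := by
  by_contra hmov
  have hm := S.hm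
  -- the conjugates
  let a : ℕ → G := fun k => g ^ k * n * (g ^ k)⁻¹
  have hgk : ∀ k : ℕ, g ^ k ∈ Γ := fun k => pow_mem hg k
  have haN : ∀ k, a k ∈ N := fun k => S.hN _ (hgk k) n hn
  have hfix0 : ∀ k, a k • g ^ k • o = g ^ k • o := by
    intro k
    change (g ^ k * n * (g ^ k)⁻¹) • g ^ k • o = g ^ k • o
    rw [mul_smul, inv_smul_smul, mul_smul, hno]
  have hmov' : ∀ k, a k • g ^ (k + 1) • o ≠ g ^ (k + 1) • o := by
    intro k hk
    have h3 : g ^ (k + 1) • o = g ^ k • g • o := by rw [pow_succ, mul_smul]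
    have h4 : a k • g ^ k • g • o = g ^ k • n • g • o := by
      change (g ^ k * n * (g ^ k)⁻¹) • g ^ k • g • o = _
      rw [mul_smul, inv_smul_smul, mul_smul]
    rw [h3, h4] at hk
    exact hmov (smul_left_cancel _ hk)
  have hfix : ∀ j k, a (k + j) • g ^ k • o = g ^ k • o := by
    intro j
    induction j with
    | zero => exact fun k => hfix0 k
    | succ j ih =>
      intro k
      have h3 := ih (k + 1)
      rw [show k + 1 + j = k + (j + 1) by omega] at h3
      set b : G := (g ^ k)⁻¹ * a (k + (j + 1)) * g ^ k with hb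
      have hbN : b ∈ N := S.conj (hgk k) (haN _)
      have h4 : b • g • o = g • o := by
        rw [hb, mul_smul, mul_smul, inv_smul_eq_iff, smul_smul (g ^ k) g o, ← pow_succ]
        exact h3
      have h5 := S.aa hbN h1.le h2 (by rw [h4]; exact h1.le) (by rw [h4]; exact h2)
      rw [hb, mul_smul, mul_smul, inv_smul_eq_iff] at h5
      exact h5
  refine S.hfin a (fun k => S.le (haN k)) (fun k => ?_) (fun k k' hkk => ?_)
  · have h3 := hfix k 0
    rwa [Nat.zero_add, pow_zero, one_smul] at h3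
  · refine ⟨g ^ (k + 1) • o, hmov' k, ?_⟩
    have h3 := hfix (k' - (k + 1)) (k + 1)
    rwa [show k + 1 + (k' - (k + 1)) = k' by omega] at h3

theorem GS.accp (S : GS Γ N o v) : ∃ g ∈ Γ, o < g • o ∧ g • o < pt N o := by
  obtain ⟨g, hg, h1, h2⟩ := S.hacc
  exact ⟨g, hg, h1, h2.trans_le S.v_le⟩

/-- elements of `N` fixing `o` act trivially on the orbit -/
theorem GS.cc (S : GS Γ N o v) {n : G} (hn : n ∈ N) (hno : n • o = o) {g : G} (hg : g ∈ Γ) :
    n • g • o = g • o := by
  let T : Subgroup G :=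
    { carrier := {g | g ∈ Γ ∧ ∀ n ∈ N, (n • g • o = g • o ↔ n • o = o)}
      mul_mem' := by
        rintro a b ⟨ha, ha'⟩ ⟨hb, hb'⟩
        refine ⟨mul_mem ha hb, fun n hn => ?_⟩
        have h1 := hb' _ (S.conj ha hn)
        have h2 := ha' n hn
        rw [mul_smul, mul_smul, inv_smul_eq_iff, mul_smul, mul_smul, inv_smul_eq_iff] at h1
        rw [mul_smul, h1, h2]
      one_mem' := ⟨one_mem Γ, fun n _ => by rw [one_smul]⟩
      inv_mem' := by
        rintro a ⟨ha, ha'⟩
        refine ⟨inv_mem ha, fun n hn => ?_⟩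
        have h1 := ha' _ (S.hN a ha n hn)
        have e1 : (a * n * a⁻¹) • a • o = a • n • o := by
          rw [mul_smul, inv_smul_smul, mul_smul]
        have e2 : (a * n * a⁻¹) • o = o ↔ n • a⁻¹ • o = a⁻¹ • o := by
          rw [mul_smul, mul_smul, smul_eq_iff_eq_inv_smul]
        rw [e1, e2, smul_left_cancel_iff] at h1
        exact h1.symm }
  have h1 := core S.hm (S := T) S.accp S.hprim (fun g hg h1 h2 => ?_) g hg
  · exact (h1.2 n hn).2 hno
  · refine ⟨hg, fun n hn => ⟨fun h => ?_, fun h => ?_⟩⟩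
    · exact S.aa hn h1 h2 (by rw [h]; exact h1) (by rw [h]; exact h2)
    · rcases h1.eq_or_lt with h3 | h3
      · rw [← h3, h]
      · exact S.bb hn h hg h3 h2

/-- the infimum is attained -/
theorem GS.att (S : GS Γ N o v) (hne : ∃ n ∈ N, n • o ≠ o) :
    ∃ b ∈ N, o < b • o ∧ pt N o = b • o := by
  have hm := S.hm
  by_contra hcon
  push Not at hcon
  have hfix : ∀ g ∈ Γ, o ≤ g • o → g • o < pt N o → g ∈ MulAction.stabilizer G (pt N o) := by
    intro g hg h1 h2
    rw [MulAction.mem_stabilizer_iff]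
    apply le_antisymm
    · refine le_sInf ?_
      rintro _ ⟨n, hn, h3, rfl⟩
      have h4 : pt N o < n • o := lt_of_le_of_ne (pt_le hn h3) (hcon n hn h3)
      obtain ⟨_, ⟨n₂, hn₂, h5, rfl⟩, h6⟩ := sInf_lt_iff.1 h4
      have h7 : o < (n₂⁻¹ * n) • o := by
        rw [mul_smul, ← lt_iff hm n₂, smul_inv_smul]
        exact h6
      have h8 : n₂ • g • o < n • o := by
        have h9 := h2.trans_le (pt_le (mul_mem (inv_mem hn₂) hn) h7)
        rw [← lt_iff hm n₂, mul_smul, smul_inv_smul] at h9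
        exact h9
      have h10 : g • o < n₂ • g • o :=
        h2.trans_le ((pt_le hn₂ h5).trans ((le_iff hm n₂).2 h1))
      have h11 : o < (g⁻¹ * n₂ * g) • o := by
        rw [mul_smul, mul_smul, ← lt_iff hm g, smul_inv_smul]
        exact h10
      have h12 := pt_le (S.conj hg hn₂) h11
      rw [← le_iff hm g, mul_smul, mul_smul, smul_inv_smul] at h12
      exact h12.trans h8.le
    · have h3 : g⁻¹ • pt N o ≤ pt N o := by
        refine le_sInf ?_
        rintro _ ⟨n, hn, h3, rfl⟩
        rw [← le_iff hm g, smul_inv_smul]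
        by_contra h4
        have h5 : (g * n * g⁻¹) • g • o = g • n • o := by
          rw [mul_smul, inv_smul_smul, mul_smul]
        have h6 : g • o < g • n • o := hm g _ _ h3
        have h7 := S.aa (S.hN g hg n hn) h1 h2 (by rw [h5]; exact h1.trans h6.le)
          (by rw [h5]; exact not_le.1 h4)
        have h8 := S.cc (S.hN g hg n hn) h7 hg
        rw [h5] at h8
        exact h6.ne' h8
      rwa [← le_iff hm g, smul_inv_smul] at h3
  have hall := core hm S.accp S.hprim hfix
  obtain ⟨n₀, hn₀, hne₀⟩ := hne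
  obtain ⟨n, hn, hno⟩ : ∃ n ∈ N, o < n • o := by
    rcases lt_or_gt_of_ne hne₀ with h | h
    · exact ⟨n₀⁻¹, inv_mem hn₀, lt_inv hm h⟩
    · exact ⟨n₀, hn₀, h⟩
  have h1 : n • pt N o = pt N o := hall n (S.le hn)
  have h2 := hm n _ _ S.o_lt
  rw [h1] at h2
  exact absurd (pt_le hn hno) (not_le.2 h2)

/-- the elements which are central modulo the kernel of the action on the orbit -/
def cen (Γ : Subgroup G) (o : X) : Subgroup G where
  carrier := {x | x ∈ Γ ∧ ∀ g ∈ Γ, ∀ h ∈ Γ, x • g • h • o = g • x • h • o}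
  mul_mem' := by
    rintro x y ⟨hx, hx'⟩ ⟨hy, hy'⟩
    refine ⟨mul_mem hx hy, fun g hg h hh => ?_⟩
    have h1 := hx' g hg (y * h) (mul_mem hy hh)
    rw [mul_smul] at h1
    rw [mul_smul, mul_smul, hy' g hg h hh, h1]
  one_mem' := ⟨one_mem Γ, fun g _ h _ => by rw [one_smul, one_smul]⟩
  inv_mem' := by
    rintro x ⟨hx, hx'⟩
    refine ⟨inv_mem hx, fun g hg h hh => ?_⟩
    have h1 := hx' g hg (x⁻¹ * h) (mul_mem (inv_mem hx) hh)
    rw [mul_smul, smul_inv_smul] at h1
    rw [inv_smul_eq_iff, h1]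

theorem GS.triv_cen (S : GS Γ N o v) {n : G} (hn : n ∈ N) (hno : n • o = o) :
    n ∈ cen Γ o := by
  refine ⟨S.le hn, fun g hg h hh => ?_⟩
  have h1 := S.cc hn hno (mul_mem hg hh)
  rw [mul_smul] at h1
  rw [h1, S.cc hn hno hh]

/-- `N` is central modulo the kernel -/
theorem GS.cent (S : GS Γ N o v) : N ≤ cen Γ o := by
  have hm := S.hm
  by_cases hne : ∃ n ∈ N, n • o ≠ o
  · obtain ⟨b, hb, hbo, hp⟩ := S.att hne
    have claim1 : ∀ g ∈ Γ, o ≤ g • o → g • o < pt N o → g • b • o = b • g • o := by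
      intro g hg h1 h2
      apply le_antisymm
      · have h3 : g • o < b • g • o := by
          rw [hp] at h2
          exact h2.trans_le ((le_iff hm b).2 h1)
        have h4 : o < (g⁻¹ * b * g) • o := by
          rw [mul_smul, mul_smul, ← lt_iff hm g, smul_inv_smul]
          exact h3
        have h5 := pt_le (S.conj hg hb) h4
        rw [← le_iff hm g, mul_smul, mul_smul, smul_inv_smul, hp] at h5
        exact h5
      · by_contra h3
        rw [not_le] at h3
        have hb' : g * b * g⁻¹ ∈ N := S.hN g hg b hb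
        set b' : G := g * b * g⁻¹ with hb'd
        have h4 : b' • g • o = g • b • o := by
          rw [hb'd, mul_smul, inv_smul_smul, mul_smul]
        rw [← h4] at h3
        have h5 : g • o < b' • g • o := by
          rw [h4]
          exact hm g _ _ hbo
        rcases lt_trichotomy (b' • o) o with h6 | h6 | h6
        · have h7 := h2.trans_le (pt_le (inv_mem hb') (lt_inv hm h6))
          rw [← lt_iff hm b', smul_inv_smul] at h7
          exact absurd (h7.trans_le h1) (not_lt.2 h5.le)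
        · exact h5.ne' (S.cc hb' h6 hg)
        · have h7 := pt_le hb' h6
          rw [hp] at h7
          have h8 : o ≤ (b⁻¹ * b') • o := by
            rw [mul_smul, ← le_iff hm b, smul_inv_smul]
            exact h7
          rcases h8.eq_or_lt with h9 | h9
          · have h10 := S.cc (mul_mem (inv_mem hb) hb') h9.symm hg
            rw [mul_smul, inv_smul_eq_iff] at h10
            exact h3.ne h10
          · have h10 := h2.trans_le (pt_le (mul_mem (inv_mem hb) hb') h9)
            rw [← lt_iff hm b, mul_smul, smul_inv_smul] at h10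
            exact absurd (h10.trans_le ((le_iff hm b').2 h1)) (not_lt.2 h3.le)
    let T : Subgroup G :=
      { carrier := {g | g ∈ Γ ∧ ∀ h ∈ Γ, b • g • h • o = g • b • h • o}
        mul_mem' := by
          rintro x y ⟨hx, hx'⟩ ⟨hy, hy'⟩
          refine ⟨mul_mem hx hy, fun h hh => ?_⟩
          have h1 := hx' (y * h) (mul_mem hy hh)
          rw [mul_smul] at h1
          rw [mul_smul, mul_smul, h1, hy' h hh]
        one_mem' := ⟨one_mem Γ, fun h _ => by rw [one_smul, one_smul]⟩
        inv_mem' := by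
          rintro x ⟨hx, hx'⟩
          refine ⟨inv_mem hx, fun h hh => ?_⟩
          have h1 := hx' (x⁻¹ * h) (mul_mem (inv_mem hx) hh)
          rw [mul_smul, smul_inv_smul] at h1
          rw [h1, inv_smul_smul] }
    have hT := core hm (S := T) S.accp S.hprim (fun g hg h1 h2 => by
      refine ⟨hg, fun h hh => ?_⟩
      have hz : g⁻¹ * b⁻¹ * g * b ∈ N := mul_mem (S.conj hg (inv_mem hb)) hb
      have hzo : (g⁻¹ * b⁻¹ * g * b) • o = o := by
        rw [mul_smul, mul_smul, mul_smul, claim1 g hg h1 h2, inv_smul_smul, inv_smul_smul]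
      have h3 := S.cc hz hzo hh
      rw [mul_smul, mul_smul, mul_smul, inv_smul_eq_iff, inv_smul_eq_iff] at h3
      exact h3.symm)
    have hbc : b ∈ cen Γ o := ⟨S.le hb, fun g hg h hh => (hT g hg).2 h hh⟩
    have hbk : ∀ k : ℤ, b ^ k ∈ cen Γ o := fun k => zpow_mem hbc k
    have hbk1 : ∀ (k : ℤ) (g : G), g ∈ Γ → b ^ k • g • o = g • b ^ k • o := by
      intro k g hg
      have h1 := (hbk k).2 g hg 1 (one_mem Γ)
      rwa [one_smul] at h1
    have hstep : ∀ k : ℤ, b ^ k • o < b ^ (k + 1) • o := by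
      intro k
      rw [zpow_add, zpow_one, mul_smul]
      exact hm _ _ _ hbo
    have hmono : StrictMono fun k : ℤ => b ^ k • o := strictMono_int_of_lt_succ hstep
    -- the hull of the powers
    let H : Subgroup G :=
      { carrier := {g | g ∈ Γ ∧ ∃ m k : ℤ, b ^ m • o ≤ g • o ∧ g • o ≤ b ^ k • o}
        mul_mem' := by
          rintro x y ⟨hx, m, k, h1, h2⟩ ⟨hy, m', k', h3, h4⟩
          refine ⟨mul_mem hx hy, m' + m, k' + k, ?_, ?_⟩
          · rw [zpow_add, mul_smul, mul_smul]
            refine ((le_iff hm _).2 h1).trans ?_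
            rw [hbk1 _ x hx]
            exact (le_iff hm _).2 h3
          · rw [zpow_add, mul_smul, mul_smul]
            refine ((le_iff hm _).2 h4).trans ?_
            rw [← hbk1 _ x hx]
            exact (le_iff hm _).2 h2
        one_mem' := ⟨one_mem Γ, 0, 0, by simp, by simp⟩
        inv_mem' := by
          rintro x ⟨hx, m, k, h1, h2⟩
          refine ⟨inv_mem hx, -k, -m, ?_, ?_⟩
          · rw [← le_iff hm (b ^ k), zpow_neg, smul_inv_smul, hbk1 _ _ (inv_mem hx),
              ← le_iff hm x, smul_inv_smul]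
            exact h2
          · rw [← le_iff hm (b ^ m), zpow_neg, smul_inv_smul, hbk1 _ _ (inv_mem hx),
              ← le_iff hm x, smul_inv_smul]
            exact h1 }
    have hH : RCvx Γ H o := by
      refine ⟨fun g hg => hg.1, ?_⟩
      rintro g hg h ⟨_, m, k, h1, h2⟩ h3 h4
      exact ⟨hg, 0, k, by rw [zpow_zero, one_smul]; exact h3, h4.trans h2⟩
    have hHall : ∀ g ∈ Γ, g ∈ H := by
      rcases S.hprim H hH with h1 | h1
      · have h2 : b ∈ H := ⟨S.le hb, 0, 1, by rw [zpow_zero, one_smul]; exact hbo.le,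
          by rw [zpow_one]⟩
        exact absurd (h1 b h2) hbo.ne'
      · exact h1
    intro n hn
    obtain ⟨_, m, k, h1, h2⟩ := hHall n (S.le hn)
    obtain ⟨j, hj, hj'⟩ := Int.exists_greatest_of_bdd (P := fun j : ℤ => b ^ j • o ≤ n • o)
      ⟨k, fun z hz => hmono.le_iff_le.1 (hz.trans h2)⟩ ⟨m, h1⟩
    have hlt : n • o < b ^ (j + 1) • o := by
      by_contra h3
      have h4 := hj' (j + 1) (not_lt.1 h3)
      omega
    have hn' : (b ^ j)⁻¹ * n ∈ N := mul_mem (inv_mem (zpow_mem hb j)) hn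
    have h5 : o ≤ ((b ^ j)⁻¹ * n) • o := by
      rw [mul_smul, ← le_iff hm (b ^ j), smul_inv_smul]
      exact hj
    have h6 : ((b ^ j)⁻¹ * n) • o < b • o := by
      rw [mul_smul, ← lt_iff hm (b ^ j), smul_inv_smul, smul_smul, ← zpow_add_one]
      exact hlt
    have h7 : ((b ^ j)⁻¹ * n) • o = o := by
      rcases h5.eq_or_lt with h8 | h8
      · exact h8.symm
      · have h9 := pt_le hn' h8
        rw [hp] at h9
        exact absurd h9 (not_le.2 h6)
    have h8 := mul_mem (hbk j) (S.triv_cen hn' h7)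
    rwa [mul_inv_cancel_left] at h8
  · push Not at hne
    intro n hn
    exact S.triv_cen hn (hne n hn)

/-- the gap lemma -/
theorem gap (S : GS Γ N o v) : ∀ n ∈ N, ∀ g ∈ Γ, ∀ h ∈ Γ,
    (n * g * n⁻¹ * g⁻¹) • h • o = h • o := by
  intro n hn g hg h hh
  have h1 := (S.cent hn).2 g hg (n⁻¹ * g⁻¹ * h)
    (mul_mem (mul_mem (inv_mem (S.le hn)) (inv_mem hg)) hh)
  simp only [mul_smul] at h1 ⊢
  rw [h1, smul_inv_smul, smul_inv_smul]

/-- relative convexity does not depend on the direction of the order -/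
theorem RCvx.of_dual (hm : Mono G X) {H : Subgroup G}
    (hH : RCvx (X := Xᵒᵈ) Γ H (OrderDual.toDual o)) : RCvx Γ H o := by
  refine ⟨hH.le, fun g hg h hh h1 h2 => ?_⟩
  have h3 : h⁻¹ * g ∈ H := by
    refine hH.cvx (h⁻¹ * g) (mul_mem (inv_mem (hH.le hh)) hg) h⁻¹ (inv_mem hh) ?_ ?_
    · show (h⁻¹ * g) • o ≤ o
      rw [mul_smul, ← le_iff hm h, smul_inv_smul]
      exact h2
    · show h⁻¹ • o ≤ (h⁻¹ * g) • o
      rw [mul_smul, le_iff hm]
      exact h1
  have h4 : g = h * (h⁻¹ * g) := by group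
  rw [h4]
  exact mul_mem hh h3

/-- the gap lemma with a gap on the left -/
theorem gap_left (hm : Mono G X) (le : N ≤ Γ) (hN : ∀ g ∈ Γ, ∀ n ∈ N, g * n * g⁻¹ ∈ N)
    (hvo : v < o) (hacc : ∃ g ∈ Γ, v < g • o ∧ g • o < o)
    (hprim : ∀ H, RCvx Γ H o → (∀ h ∈ H, h • o = o) ∨ ∀ g ∈ Γ, g ∈ H)
    (hfin : ∀ d : ℕ → G, (∀ k, d k ∈ Γ) → (∀ k, d k • o = o) →
      (∀ k k', k < k' → ∃ x : X, d k • x ≠ x ∧ d k' • x = x) → False)
    (hgap : ∀ n ∈ N, ¬ (v < n • o ∧ n • o < o)) : ∀ n ∈ N, ∀ g ∈ Γ, ∀ h ∈ Γ,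
    (n * g * n⁻¹ * g⁻¹) • h • o = h • o := by
  have S : GS (X := Xᵒᵈ) Γ N (OrderDual.toDual o) (OrderDual.toDual v) :=
    { hm := mono_dual hm
      le := le
      hN := hN
      hov := hvo
      hacc := by
        obtain ⟨g, hg, h1, h2⟩ := hacc
        exact ⟨g, hg, h2, h1⟩
      hprim := fun H hH => hprim H (hH.of_dual hm)
      hfin := hfin
      hgap := fun n hn h => hgap n hn ⟨h.2, h.1⟩ }
  exact gap (X := Xᵒᵈ) S

end Pool.Agent.IsoHnn
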