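import Pool.Agent.IsoOrd.Cross

/-!
# Order preserving actions on complete linear orders: tools

`NF a p q`: the points `p`, `q` are fixed by `a` and no point between them is fixed.
`tool_sup`, `tool_inf`: limits of `g ^ k • x`.
`crossing`: two intervals `NF a p q`, `NF b r s` with `p < r < q < s` give a free subsemigroup; it acts
freely on the orbit of the base point.
-/

set_option autoImplicit false

namespace Pool.Agent.IsoHnn

open Pool.Agent.IsoOrd

variable {G X : Type*} [Group G] [CompleteLinearOrder X] [MulAction G X]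

theorem lt_iff (hm : Mono G X) (g : G) {x y : X} : g • x < g • y ↔ x < y := by
  constructor
  · intro h
    have := hm g⁻¹ _ _ h
    rwa [inv_smul_smul, inv_smul_smul] at this
  · exact hm g x y

theorem le_iff (hm : Mono G X) (g : G) {x y : X} : g • x ≤ g • y ↔ x ≤ y := by
  rw [← not_lt, lt_iff hm, not_lt]

theorem inv_fix {g : G} {x : X} (h : g • x = x) : g⁻¹ • x = x := by
  rw [inv_smul_eq_iff, h]

theorem pow_fix {g : G} {x : X} (h : g • x = x) (k : ℕ) : g ^ k • x = x := by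
  induction k with
  | zero => rw [pow_zero, one_smul]
  | succ k ih => rw [pow_succ, mul_smul, h, ih]

theorem fix_of_inv {g : G} {x : X} (h : g⁻¹ • x = x) : g • x = x := by
  have := inv_fix h
  rwa [inv_inv] at this

theorem lt_inv (hm : Mono G X) {g : G} {x : X} (h : g • x < x) : x < g⁻¹ • x := by
  rw [← lt_iff hm g, smul_inv_smul]
  exact h

theorem inv_lt (hm : Mono G X) {g : G} {x : X} (h : x < g • x) : g⁻¹ • x < x := by
  rw [← lt_iff hm g, smul_inv_smul]
  exact h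

theorem pow_up (hm : Mono G X) {g : G} {x : X} (h : x < g • x) {k l : ℕ} (hkl : k < l) :
    g ^ k • x < g ^ l • x := by
  have : StrictMono fun k : ℕ => g ^ k • x := by
    refine strictMono_nat_of_lt_succ fun n => ?_
    change g ^ n • x < g ^ (n + 1) • x
    rw [pow_succ, mul_smul]
    exact hm _ _ _ h
  exact this hkl

theorem pow_down (hm : Mono G X) {g : G} {x : X} (h : g • x < x) {k l : ℕ} (hkl : k < l) :
    g ^ l • x < g ^ k • x := by
  have : StrictAnti fun k : ℕ => g ^ k • x := by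
    refine strictAnti_nat_of_succ_lt fun n => ?_
    change g ^ (n + 1) • x < g ^ n • x
    rw [pow_succ, mul_smul]
    exact hm _ _ _ h
  exact this hkl

theorem pow_up' (hm : Mono G X) {g : G} {x : X} (h : x < g • x) {k l : ℕ} (hkl : k ≤ l) :
    g ^ k • x ≤ g ^ l • x := by
  rcases hkl.lt_or_eq with h1 | h1
  · exact (pow_up hm h h1).le
  · rw [h1]

theorem pow_down' (hm : Mono G X) {g : G} {x : X} (h : g • x < x) {k l : ℕ} (hkl : k ≤ l) :
    g ^ l • x ≤ g ^ k • x := by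
  rcases hkl.lt_or_eq with h1 | h1
  · exact (pow_down hm h h1).le
  · rw [h1]

/-- the limit of an increasing orbit -/
theorem tool_sup (hm : Mono G X) {g : G} {x : X} (h : x < g • x) :
    ∃ s : X, g • s = s ∧ x < s ∧ (∀ y, g • y = y → x ≤ y → s ≤ y) ∧
      ∀ z, z < s → ∃ n : ℕ, ∀ k, n ≤ k → z < g ^ k • x := by
  have hle : ∀ k : ℕ, g ^ k • x ≤ ⨆ k : ℕ, g ^ k • x := fun k =>
    le_iSup (fun k : ℕ => g ^ k • x) k
  have hup : ∀ z, (∀ k : ℕ, g ^ k • x ≤ z) → (⨆ k : ℕ, g ^ k • x) ≤ z := fun z hz => iSup_le hz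
  refine ⟨⨆ k : ℕ, g ^ k • x, ?_, ?_, ?_, ?_⟩
  · apply le_antisymm
    · rw [← le_iff hm g⁻¹, inv_smul_smul]
      by_contra hcon
      rw [not_le] at hcon
      obtain ⟨k, hk⟩ := lt_iSup_iff.1 hcon
      have h1 := (lt_iff hm g).2 hk
      rw [smul_inv_smul, ← mul_smul, ← pow_succ'] at h1
      exact absurd (hle (k + 1)) (not_le.2 h1)
    · refine hup _ fun k => ?_
      refine (pow_up' hm h (Nat.le_succ k)).trans ?_
      rw [pow_succ', mul_smul, le_iff hm]
      exact hle k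
  · refine lt_of_lt_of_le h ?_
    have := hle 1
    rwa [pow_one] at this
  · intro y hy hxy
    refine hup _ fun k => ?_
    rw [← pow_fix hy k, le_iff hm]
    exact hxy
  · intro z hz
    obtain ⟨n, hn⟩ := lt_iSup_iff.1 hz
    exact ⟨n, fun k hk => hn.trans_le (pow_up' hm h hk)⟩

/-- the limit of a decreasing orbit -/
theorem tool_inf (hm : Mono G X) {g : G} {x : X} (h : g • x < x) :
    ∃ s : X, g • s = s ∧ s < x ∧ (∀ y, g • y = y → y ≤ x → y ≤ s) ∧
      ∀ z, s < z → ∃ n : ℕ, ∀ k, n ≤ k → g ^ k • x < z := by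
  have hle : ∀ k : ℕ, (⨅ k : ℕ, g ^ k • x) ≤ g ^ k • x := fun k =>
    iInf_le (fun k : ℕ => g ^ k • x) k
  have hup : ∀ z, (∀ k : ℕ, z ≤ g ^ k • x) → z ≤ ⨅ k : ℕ, g ^ k • x := fun z hz => le_iInf hz
  refine ⟨⨅ k : ℕ, g ^ k • x, ?_, ?_, ?_, ?_⟩
  · apply le_antisymm
    · refine hup _ fun k => ?_
      refine le_trans ?_ (pow_down' hm h (Nat.le_succ k))
      rw [pow_succ', mul_smul, le_iff hm]
      exact hle k
    · rw [← le_iff hm g⁻¹, inv_smul_smul]
      by_contra hcon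
      rw [not_le] at hcon
      obtain ⟨k, hk⟩ := iInf_lt_iff.1 hcon
      have h1 := (lt_iff hm g).2 hk
      rw [smul_inv_smul, ← mul_smul, ← pow_succ'] at h1
      exact absurd (hle (k + 1)) (not_le.2 h1)
  · refine lt_of_le_of_lt ?_ h
    have := hle 1
    rwa [pow_one] at this
  · intro y hy hxy
    refine hup _ fun k => ?_
    rw [← pow_fix hy k, le_iff hm]
    exact hxy
  · intro z hz
    obtain ⟨n, hn⟩ := iInf_lt_iff.1 hz
    exact ⟨n, fun k hk => (pow_down' hm h hk).trans_lt hn⟩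

/-- `p`, `q` are fixed and no point between them is -/
structure NF (a : G) (p q : X) : Prop where
  l : a • p = p
  r : a • q = q
  mov : ∀ x, p < x → x < q → a • x ≠ x

theorem NF.inv {a : G} {p q : X} (h : NF a p q) : NF a⁻¹ p q :=
  ⟨inv_fix h.l, inv_fix h.r, fun x h1 h2 h3 => h.mov x h1 h2 (fix_of_inv h3)⟩

theorem NF.conj (hm : Mono G X) {a : G} {p q : X} (h : NF a p q) (g : G) :
    NF (g * a * g⁻¹) (g • p) (g • q) := by
  refine ⟨?_, ?_, fun x h1 h2 h3 => ?_⟩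
  · rw [mul_smul, mul_smul, inv_smul_smul, h.l]
  · rw [mul_smul, mul_smul, inv_smul_smul, h.r]
  · refine h.mov (g⁻¹ • x) ?_ ?_ ?_
    · rwa [← lt_iff hm g, smul_inv_smul]
    · rwa [← lt_iff hm g, smul_inv_smul]
    · rw [mul_smul, mul_smul, smul_eq_iff_eq_inv_smul] at h3
      exact h3

/-- all points move in the same direction -/
theorem NF.dir (hm : Mono G X) {a : G} {p q : X} (h : NF a p q) {z x : X} (hpz : p < z)
    (hzq : z < q) (hz : z < a • z) (hpx : p < x) (hxq : x < q) : x < a • x := by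
  by_contra hcon
  have hx : a • x < x := lt_of_le_of_ne (not_lt.1 hcon) (h.mov x hpx hxq)
  rcases lt_trichotomy x z with hxz | hxz | hxz
  · obtain ⟨s, hs1, hs2, -, hs4⟩ := tool_sup hm (lt_inv hm hx)
    have hsz : s ≤ z := by
      by_contra hc
      obtain ⟨n, hn⟩ := hs4 z (not_le.1 hc)
      have h1 := hn n le_rfl
      have h2 : a⁻¹ ^ n • x < a⁻¹ ^ n • z := hm _ _ _ hxz
      have h3 := pow_down' hm (inv_lt hm hz) (Nat.zero_le n)
      rw [pow_zero, one_smul] at h3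
      exact absurd (h1.trans (h2.trans_le h3)) (lt_irrefl _)
    exact h.mov s (hpx.trans hs2) (hsz.trans_lt hzq) (fix_of_inv hs1)
  · rw [hxz] at hx
    exact absurd (hx.trans hz) (lt_irrefl _)
  · obtain ⟨s, hs1, hs2, -, hs4⟩ := tool_inf hm hx
    have hsz : z ≤ s := by
      by_contra hc
      obtain ⟨n, hn⟩ := hs4 z (not_le.1 hc)
      have h1 := hn n le_rfl
      have h2 : a ^ n • z < a ^ n • x := hm _ _ _ hxz
      have h3 := pow_up' hm hz (Nat.zero_le n)
      rw [pow_zero, one_smul] at h3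
      exact absurd (h1.trans_le (h3.trans h2.le)) (lt_irrefl _)
    exact h.mov s (hpz.trans_le hsz) (hs2.trans hxq) hs1

theorem NF.to_right (hm : Mono G X) {a : G} {p q : X} (h : NF a p q) {x : X} (hpx : p < x)
    (hxq : x < q) (hx : x < a • x) {z : X} (hz : z < q) :
    ∃ n : ℕ, ∀ k, n ≤ k → z < a ^ k • x := by
  obtain ⟨s, hs1, hs2, hs3, hs4⟩ := tool_sup hm hx
  have hsq : s = q := by
    rcases (hs3 q h.r hxq.le).lt_or_eq with h1 | h1
    · exact absurd hs1 (h.mov s (hpx.trans hs2) h1)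
    · exact h1
  rw [hsq] at hs4
  exact hs4 z hz

theorem NF.to_left (hm : Mono G X) {a : G} {p q : X} (h : NF a p q) {x : X} (hpx : p < x)
    (hxq : x < q) (hx : a • x < x) {z : X} (hz : p < z) :
    ∃ n : ℕ, ∀ k, n ≤ k → a ^ k • x < z := by
  obtain ⟨s, hs1, hs2, hs3, hs4⟩ := tool_inf hm hx
  have hsq : s = p := by
    rcases (hs3 p h.l hpx.le).lt_or_eq with h1 | h1
    · exact absurd hs1 (h.mov s h1 (hs2.trans hxq))
    · exact h1.symm
  rw [hsq] at hs4
  exact hs4 z hz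

/-- ping-pong with a point in the given set -/
theorem ping' {f g : G} {T : Set X} {x₀ : X} (hx₀ : x₀ ∈ T) (hf : ∀ x ∈ T, f • x ∈ T)
    (hg : ∀ x ∈ T, g • x ∈ T) (hd : ∀ x ∈ T, ∀ y ∈ T, f • x ≠ g • y) {w₁ : List Bool} :
    ∀ {w₂ : List Bool}, w₁ ≠ w₂ → ∃ x ∈ T, ev f g w₁ • x ≠ ev f g w₂ • x := by
  have hnil : ∀ x : X, ev f g [] • x = x := fun x => by simp [ev]
  have key : ∀ (j : Bool) (t : List Bool), ∃ x ∈ T, x ≠ ev f g (j :: t) • x := by
    intro j t
    cases j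
    · refine ⟨f • x₀, hf _ hx₀, ?_⟩
      rw [cross_ev_cons, mul_smul]
      exact hd x₀ hx₀ _ (cross_ev_mem hf hg t _ (hf x₀ hx₀))
    · refine ⟨g • x₀, hg _ hx₀, ?_⟩
      rw [cross_ev_cons, mul_smul]
      exact (hd _ (cross_ev_mem hf hg t _ (hg x₀ hx₀)) x₀ hx₀).symm
  induction w₁ with
  | nil =>
    intro w₂ hw
    cases w₂ with
    | nil => exact absurd rfl hw
    | cons j t =>
      obtain ⟨x, hx, h⟩ := key j t
      exact ⟨x, hx, by rwa [hnil]⟩
  | cons i s ih =>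
    intro w₂ hw
    cases w₂ with
    | nil =>
      obtain ⟨x, hx, h⟩ := key i s
      exact ⟨x, hx, by rw [hnil]; exact h.symm⟩
    | cons j t =>
      by_cases hij : i = j
      · subst hij
        have hst : s ≠ t := fun h => hw (by rw [h])
        obtain ⟨x, hx, h⟩ := ih hst
        refine ⟨x, hx, fun h1 => h ?_⟩
        rw [cross_ev_cons, cross_ev_cons, mul_smul, mul_smul] at h1
        exact smul_left_cancel _ h1
      · refine ⟨x₀, hx₀, ?_⟩
        rw [cross_ev_cons, cross_ev_cons, mul_smul, mul_smul]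
        have h1 := cross_ev_mem hf hg s _ hx₀
        have h2 := cross_ev_mem hf hg t _ hx₀
        cases i <;> cases j
        · exact absurd rfl hij
        · exact (hd _ h2 _ h1).symm
        · exact hd _ h1 _ h2
        · exact absurd rfl hij

/-- two crossing intervals give a free subsemigroup -/
theorem crossing (hm : Mono G X) {M E : Subgroup G} {o : X}
    (hE : ∀ a ∈ E, ∀ b ∈ E, ∃ w₁ w₂ : List Bool, w₁ ≠ w₂ ∧
      ∀ g ∈ M, ev a b w₁ • g • o = ev a b w₂ • g • o)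
    (hEM : E ≤ M) {a b : G} (ha : a ∈ E) (hb : b ∈ E) {p q r s : X} (hA : NF a p q)
    (hB : NF b r s) (hpr : p < r) (hrq : r < q) (hqs : q < s) {g : G} (hg : g ∈ M)
    (hpg : p < g • o) (hgq : g • o < q) : False := by
  obtain ⟨a', ha', hA', hz⟩ : ∃ a' ∈ E, NF a' p q ∧ g • o < a' • g • o := by
    rcases lt_or_gt_of_ne (hA.mov _ hpg hgq) with h | h
    · exact ⟨a⁻¹, E.inv_mem ha, hA.inv, lt_inv hm h⟩
    · exact ⟨a, ha, hA, h⟩
  obtain ⟨b', hb', hB', hq⟩ : ∃ b' ∈ E, NF b' r s ∧ b' • q < q := by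
    rcases lt_or_gt_of_ne (hB.mov q hrq hqs) with h | h
    · exact ⟨b, hb, hB, h⟩
    · exact ⟨b⁻¹, E.inv_mem hb, hB.inv, inv_lt hm h⟩
  have hr := hA'.dir hm hpg hgq hz hpr hrq
  obtain ⟨i, hi⟩ := hA'.to_right hm hpr hrq hr hq
  have hi := hi i le_rfl
  obtain ⟨k, hk⟩ := hA'.to_right hm hpg hgq hz hrq
  have hk := hk k le_rfl
  have hrb : r < b' • q := by
    rw [← hB'.l, lt_iff hm]
    exact hrq
  have hqi : ∀ (i : ℕ) (x : X), x < q → a' ^ i • x < q := by
    intro i x hx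
    rw [← pow_fix hA'.r i, lt_iff hm]
    exact hx
  let T : Set X := {x | (∃ g ∈ M, x = g • o) ∧ r < x ∧ x < q}
  have hx₀ : a' ^ k • g • o ∈ T :=
    ⟨⟨a' ^ k * g, M.mul_mem (M.pow_mem (hEM ha') k) hg, (mul_smul _ _ _).symm⟩, hk,
      hqi k _ hgq⟩
  have hf : ∀ x ∈ T, a' ^ i • x ∈ T := by
    rintro x ⟨⟨g, hg, rfl⟩, h1, h2⟩
    refine ⟨⟨a' ^ i * g, M.mul_mem (M.pow_mem (hEM ha') i) hg, (mul_smul _ _ _).symm⟩, ?_,
      hqi i _ h2⟩
    exact hrb.trans (hi.trans (hm _ _ _ h1))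
  have hg' : ∀ x ∈ T, b' • x ∈ T := by
    rintro x ⟨⟨g, hg, rfl⟩, h1, h2⟩
    refine ⟨⟨b' * g, M.mul_mem (hEM hb') hg, (mul_smul _ _ _).symm⟩, ?_, ?_⟩
    · rw [← hB'.l, lt_iff hm]
      exact h1
    · exact (hm _ _ _ h2).trans hq
  have hd : ∀ x ∈ T, ∀ y ∈ T, a' ^ i • x ≠ b' • y := by
    rintro x ⟨-, h1, -⟩ y ⟨-, -, h2⟩ heq
    have h3 : b' • y < a' ^ i • x := (hm _ _ _ h2).trans (hi.trans (hm _ _ _ h1))
    rw [heq] at h3
    exact lt_irrefl _ h3
  obtain ⟨w₁, w₂, hw, hw'⟩ := hE _ (E.pow_mem ha' i) _ hb'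
  obtain ⟨x, ⟨⟨g, hg, rfl⟩, -, -⟩, hne⟩ := ping' hx₀ hf hg' hd hw
  exact hne (hw' g hg)

end Pool.Agent.IsoHnn
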