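import Pool.Agent.IsoHnn.LineA

/-!
# No leaf inside the basin

Situation `Sit`: `c` fixes `o` and `β`, and moves the points between `o` and `β` to the left; `M` is a
group with `c M c⁻¹ ≤ M`; `E` is a normal subgroup of `M` without free subsemigroups on the orbit of
`o`. `hfin`: stabilisers of `o` are small.

`one`: if `o < g o < β` then `g β ≤ β`. `two`: if moreover `g β < β` then `c g β ≤ g o`.
`shift`: for `a ∈ E` with the component `(p, q)` at `o` some conjugate `d` of `a` (or its inverse) moves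
`o` to the right and fixes a point `y` between `o` and `c q`.
`fixed`: the case that `a` fixes `β`. `line`: the theorem.
-/

set_option autoImplicit false

namespace Pool.Agent.IsoHnn

open Pool.Agent.IsoOrd

variable {G X : Type*} [Group G] [CompleteLinearOrder X] [MulAction G X]

/-- the situation of the line theorem -/
structure Sit (M E : Subgroup G) (c : G) (o β : X) : Prop where
  hm : Mono G X
  hE : ∀ a ∈ E, ∀ b ∈ E, ∃ w₁ w₂ : List Bool, w₁ ≠ w₂ ∧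
    ∀ g ∈ M, ev a b w₁ • g • o = ev a b w₂ • g • o
  hEM : E ≤ M
  hn : ∀ g ∈ M, ∀ a ∈ E, g * a * g⁻¹ ∈ E
  hc : ∀ g ∈ M, c * g * c⁻¹ ∈ M
  hco : c • o = o
  hcβ : c • β = β
  hR : ∀ x : X, o < x → x < β → c • x < x
  hfin : ∀ d : ℕ → G, (∀ k, d k ∈ M) → (∀ k, d k • o = o) →
    (∀ k k', k < k' → ∃ x : X, d k • x ≠ x ∧ d k' • x = x) → False

variable {M E : Subgroup G} {c : G} {o β : X}

theorem Sit.cpow (S : Sit M E c o β) {g : G} (hg : g ∈ M) (k : ℕ) :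
    c ^ k * g * (c ^ k)⁻¹ ∈ M := by
  induction k with
  | zero => simpa using hg
  | succ k ih =>
    have h1 := S.hc _ ih
    have h2 : c * (c ^ k * g * (c ^ k)⁻¹) * c⁻¹ = c ^ (k + 1) * g * (c ^ (k + 1))⁻¹ := by
      rw [pow_succ' c k]
      group
    rwa [h2] at h1

/-- `c ^ k x` tends to `o` -/
theorem Sit.to_o (S : Sit M E c o β) {x : X} (h1 : o < x) (h2 : x < β) {z : X} (hz : o < z) :
    ∃ n : ℕ, ∀ k, n ≤ k → c ^ k • x < z := by
  have hNF : NF c o β := ⟨S.hco, S.hcβ, fun y hy1 hy2 => (S.hR y hy1 hy2).ne⟩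
  exact hNF.to_left S.hm h1 h2 (S.hR x h1 h2) hz

/-- `c⁻¹ ^ k x` tends to `β` -/
theorem Sit.to_β (S : Sit M E c o β) {x : X} (h1 : o < x) (h2 : x < β) {z : X} (hz : z < β) :
    ∃ n : ℕ, ∀ k, n ≤ k → z < c⁻¹ ^ k • x := by
  have hNF : NF c o β := ⟨S.hco, S.hcβ, fun y hy1 hy2 => (S.hR y hy1 hy2).ne⟩
  exact hNF.inv.to_right S.hm h1 h2 (lt_inv S.hm (S.hR x h1 h2)) hz

/-- `c⁻¹ ^ k p` tends to `o` -/
theorem Sit.left_o (S : Sit M E c o β) {p : X} (hL : ∀ x, p ≤ x → x < o → c • x < x)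
    (hpo : p < o) {z : X} (hz : z < o) : ∃ n : ℕ, ∀ k, n ≤ k → z < c⁻¹ ^ k • p := by
  obtain ⟨s, hs1, hs2, hs3, hs4⟩ := tool_sup S.hm (lt_inv S.hm (hL p le_rfl hpo))
  have hso : s = o := by
    rcases (hs3 o (inv_fix S.hco) hpo.le).lt_or_eq with h1 | h1
    · exact absurd (fix_of_inv hs1) (hL s hs2.le h1).ne
    · exact h1
  rw [hso] at hs4
  exact hs4 z hz

theorem cinv_pow (c : G) (k : ℕ) (x : X) : c ^ k • c⁻¹ ^ k • x = x := by
  rw [inv_pow, smul_inv_smul]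

theorem conj_pow_smul (c g : G) (k : ℕ) (x : X) :
    (c ^ k * g * (c ^ k)⁻¹) • x = c ^ k • g • c⁻¹ ^ k • x := by
  rw [mul_smul, mul_smul, inv_pow]

theorem Sit.one (S : Sit M E c o β) {p q : X} {e : G} (he : e ∈ E) (hNF : NF e p q)
    (hL : ∀ x, p ≤ x → x < o → c • x < x) (hpo : p < o) (hoq : o < q) (hqβ : q < β) {g : G}
    (hg : g ∈ M) (h1 : o < g • o) (h2 : g • o < β) : g • β ≤ β := by
  have hm := S.hm
  by_contra hcon
  rw [not_le] at hcon
  obtain ⟨n1, hn1⟩ := S.left_o hL hpo (inv_lt hm h1)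
  obtain ⟨n2, hn2⟩ := S.to_β hoq hqβ h2
  obtain ⟨n3, hn3⟩ := S.to_β hoq hqβ (inv_lt hm hcon)
  set k := max n1 (max n2 n3) with hk
  have e1 := hn1 k (le_max_left _ _)
  have e2 := hn2 k ((le_max_left _ _).trans (le_max_right _ _))
  have e3 := hn3 k ((le_max_right _ _).trans (le_max_right _ _))
  rw [← lt_iff hm g, smul_inv_smul] at e1 e3
  have hpk : c⁻¹ ^ k • p < o := by
    rw [← pow_fix (inv_fix S.hco) k, lt_iff hm]
    exact hpo
  have hqk : c⁻¹ ^ k • q < β := by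
    rw [← pow_fix (inv_fix S.hcβ) k, lt_iff hm]
    exact hqβ
  have hγ := S.cpow hg k
  refine crossing hm S.hE S.hEM he (S.hn _ hγ _ he) hNF (hNF.conj hm _) ?_ ?_ ?_
    (one_mem M) (by rwa [one_smul]) (by rwa [one_smul])
  · rw [conj_pow_smul, ← lt_iff hm (c⁻¹ ^ k), ← mul_smul (c⁻¹ ^ k), inv_pow, inv_mul_cancel,
      one_smul, ← inv_pow]
    exact hpk.trans e1
  · rw [conj_pow_smul, ← lt_iff hm (c⁻¹ ^ k), ← mul_smul (c⁻¹ ^ k), inv_pow, inv_mul_cancel,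
      one_smul, ← inv_pow]
    exact ((lt_iff hm g).2 hpk).trans e2
  · rw [conj_pow_smul, ← lt_iff hm (c⁻¹ ^ k), ← mul_smul (c⁻¹ ^ k), inv_pow, inv_mul_cancel,
      one_smul, ← inv_pow]
    exact hqk.trans e3

theorem Sit.two (S : Sit M E c o β) (hone : ∀ g ∈ M, o < g • o → g • o < β → g • β ≤ β) {d : G}
    (hd : d ∈ M) (h1 : o < d • o) (h2 : d • β < β) : c • d • β ≤ d • o := by
  have hm := S.hm
  by_contra hcon
  rw [not_le] at hcon
  have hoβ : o < β := by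
    rw [← lt_iff hm d]
    have h3 : d • o < c • d • β := hcon
    have h4 : o < d • β := by
      rw [← lt_iff hm c, S.hco]
      exact h1.trans h3
    exact h3.trans (S.hR _ h4 h2)
  have hdo : d • o < d • β := hm _ _ _ hoβ
  have hφ := S.hc d hd
  have e1 : (c * d * c⁻¹) • o = c • d • o := by
    rw [mul_smul, mul_smul, inv_fix S.hco]
  have e2 : (c * d * c⁻¹) • β = c • d • β := by
    rw [mul_smul, mul_smul, inv_fix S.hcβ]
  have hc1 : c • d • o < d • o := S.hR _ h1 (hdo.trans h2)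
  have hc2 : c • d • β < d • β := S.hR _ (h1.trans hdo) h2
  have h3 := hone ((c * d * c⁻¹)⁻¹ * d) (M.mul_mem (M.inv_mem hφ) hd) ?_ ?_
  · rw [mul_smul, ← le_iff hm (c * d * c⁻¹), smul_inv_smul, e2] at h3
    exact absurd h3 (not_le.2 hc2)
  · rw [mul_smul, ← lt_iff hm (c * d * c⁻¹), smul_inv_smul, e1]
    exact hc1
  · rw [mul_smul, ← lt_iff hm (c * d * c⁻¹), smul_inv_smul, e2]
    exact hcon

/-- a conjugate which fixes a point near `o` -/
theorem Sit.shift (S : Sit M E c o β) {p q : X} {a : G} (ha : a ∈ E) (hNF : NF a p q)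
    (hL : ∀ x, p ≤ x → x < o → c • x < x) (hpo : p < o) (hoq : o < q) (hqβ : q < β)
    (hao : o < a • o) :
    ∃ d ∈ E, ∃ y s t : X, o < y ∧ y < c • q ∧ o < d • o ∧ d • y = y ∧ NF d s t ∧ s < o ∧
      o < t ∧ t ≤ y := by
  have hm := S.hm
  have hcq : c • q < q := S.hR q hoq hqβ
  have hcp : c • p < p := hL p le_rfl hpo
  have hocq : o < c • q := by
    rw [← S.hco, lt_iff hm]
    exact hoq
  set b := c * a * c⁻¹ with hb
  have hbM : b ∈ M := S.hc a (S.hEM ha)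
  have hNb : NF b (c • p) (c • q) := hNF.conj hm c
  have hbo : o < b • o := by
    rw [hb, mul_smul, mul_smul, inv_fix S.hco]
    rw [← S.hco, lt_iff hm, S.hco]
    exact hao
  have hcpo : c • p < o := hcp.trans hpo
  have hbp : p < b • p := hNb.dir hm hcpo hocq hbo hcp (hpo.trans hocq)
  obtain ⟨k0, hk0⟩ := hNb.to_right hm hcp (hpo.trans hocq) hbp hocq
  have hlt : ∀ k : ℕ, b ^ k • p < c • q := by
    intro k
    rw [← pow_fix hNb.r k, lt_iff hm]
    exact hpo.trans hocq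
  obtain ⟨k, hk1, hk2⟩ : ∃ k, k0 ≤ k ∧ (b ^ k * a * (b ^ k)⁻¹) • o ≠ o := by
    by_contra hcon
    push Not at hcon
    refine S.hfin (fun k => b ^ (k0 + k) * a * (b ^ (k0 + k))⁻¹) ?_ ?_ ?_
    · intro k
      exact M.mul_mem (M.mul_mem (M.pow_mem hbM _) (S.hEM ha)) (M.inv_mem (M.pow_mem hbM _))
    · intro k
      exact hcon _ (Nat.le_add_right _ _)
    · intro k k' hkk
      refine ⟨b ^ (k0 + k') • p, ?_, ?_⟩
      · refine (hNF.conj hm (b ^ (k0 + k))).mov _ ?_ ?_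
        · exact pow_up hm hbp (by omega)
        · refine (hlt _).trans ?_
          rw [← pow_fix hNb.r (k0 + k), lt_iff hm]
          exact hcq
      · exact (hNF.conj hm (b ^ (k0 + k'))).l
  have hx : b ^ k ∈ M := M.pow_mem hbM k
  have hdE : b ^ k * a * (b ^ k)⁻¹ ∈ E := S.hn _ hx _ ha
  have hfix : (b ^ k * a * (b ^ k)⁻¹) • (b ^ k • p) = b ^ k • p := (hNF.conj hm (b ^ k)).l
  obtain ⟨d, hd, hdo, hdy⟩ : ∃ d ∈ E, o < d • o ∧ d • (b ^ k • p) = b ^ k • p := by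
    rcases lt_or_gt_of_ne hk2 with h | h
    · exact ⟨_, E.inv_mem hdE, lt_inv hm h, inv_fix hfix⟩
    · exact ⟨_, hdE, h, hfix⟩
  have hy : o < b ^ k • p := hk0 k hk1
  obtain ⟨t, ht1, ht2, ht3, -⟩ := tool_sup hm hdo
  obtain ⟨s, hs1, hs2, hs3, -⟩ := tool_inf hm (inv_lt hm hdo)
  refine ⟨d, hd, b ^ k • p, s, t, hy, hlt k, hdo, hdy, ⟨fix_of_inv hs1, ht1, ?_⟩, hs2, ht2,
    ht3 _ hdy hy.le⟩
  intro x h1 h2 h3
  rcases le_total o x with h4 | h4
  · exact absurd (ht3 x h3 h4) (not_le.2 h2)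
  · exact absurd (hs3 x (inv_fix h3) h4) (not_le.2 h1)

end Pool.Agent.IsoHnn
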