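import Pool.Agent.IsoHnn.LineB

/-!
# The line theorem

`fixed`: `a ∈ E` with the component `(p, q)` at `o`, `p < o < q < β`, cannot fix `β`. Let `d` be as in
`shift`, `(s, t)` its component at `o`, `t ≤ y < c q`. For `n` with `c ^ n q < t` the element
`a_n = c ^ n a c ^ -n` moves `p` up to `c ^ n q`, so by `crossing` it moves `q` below `t`; so some power
of `a` moves `q_n = c ^ -n q` below `q_(n-1)`, hence `a` has no fixed point in `(ρ, β)`, where
`ρ ≥ q` is the limit of `a ^ k q_m`. The inverse powers of `a_m` move `q` towards `β`, and `p` down: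
the component `(p, q)` moved by them crosses `(ρ, β)`.
`line`: the general case; the element `d` of `shift` fixes `β`.
-/

set_option autoImplicit false

namespace Pool.Agent.IsoHnn

open Pool.Agent.IsoOrd

variable {G X : Type*} [Group G] [CompleteLinearOrder X] [MulAction G X]

variable {M E : Subgroup G} {c : G} {o β : X}

theorem Sit.fixed (S : Sit M E c o β) {p q : X} {a : G} (ha : a ∈ E) (hNF : NF a p q)
    (hL : ∀ x, p ≤ x → x < o → c • x < x) (hpo : p < o) (hoq : o < q) (hqβ : q < β)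
    (hao : o < a • o) (haβ : a • β = β) : False := by
  have hm := S.hm
  obtain ⟨d, hd, y, s, t, hoy, hyq, hdo, hdy, hdN, hso, hot, hty⟩ :=
    S.shift ha hNF hL hpo hoq hqβ hao
  have hcq : c • q < q := S.hR q hoq hqβ
  have hcp : c • p < p := hL p le_rfl hpo
  obtain ⟨m', hm'⟩ := S.to_o hoq hqβ hot
  obtain ⟨m, hm1, hm2⟩ : ∃ m, 1 ≤ m ∧ ∀ k, m ≤ k → c ^ k • q < t :=
    ⟨max 1 m', le_max_left _ _, fun k hk => hm' k ((le_max_right _ _).trans hk)⟩
  -- points
  have hoqn : ∀ n : ℕ, o < c⁻¹ ^ n • q := by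
    intro n
    rw [← pow_fix (inv_fix S.hco) n, lt_iff hm]
    exact hoq
  have hqnβ : ∀ n : ℕ, c⁻¹ ^ n • q < β := by
    intro n
    rw [← pow_fix (inv_fix S.hcβ) n, lt_iff hm]
    exact hqβ
  have hocq : ∀ n : ℕ, o < c ^ n • q := by
    intro n
    rw [← pow_fix S.hco n, lt_iff hm]
    exact hoq
  have hcpo : ∀ n : ℕ, c ^ n • p < o := by
    intro n
    rw [← pow_fix S.hco n, lt_iff hm]
    exact hpo
  have hqlt : ∀ n : ℕ, c⁻¹ ^ n • q < c⁻¹ ^ (n + 1) • q := fun n =>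
    pow_up hm (lt_inv hm hcq) (Nat.lt_succ_self n)
  -- the elements `a_n`
  have hNn : ∀ n : ℕ, NF (c ^ n * a * (c ^ n)⁻¹) (c ^ n • p) (c ^ n • q) := fun n =>
    hNF.conj hm (c ^ n)
  have hnM : ∀ n : ℕ, c ^ n * a * (c ^ n)⁻¹ ∈ M := fun n => S.cpow (S.hEM ha) n
  have hno : ∀ n : ℕ, o < (c ^ n * a * (c ^ n)⁻¹) • o := by
    intro n
    rw [conj_pow_smul, pow_fix (inv_fix S.hco) n]
    conv_lhs => rw [← pow_fix S.hco n]
    exact hm _ _ _ hao
  have hnp : ∀ n : ℕ, 1 ≤ n → p < (c ^ n * a * (c ^ n)⁻¹) • p := by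
    intro n hn
    refine (hNn n).dir hm (hcpo n) (hocq n) (hno n) ?_ (hpo.trans (hocq n))
    have := pow_down hm hcp hn
    rwa [pow_zero, one_smul] at this
  -- claim A
  have hA : ∀ n : ℕ, m ≤ n + 1 → ∃ k : ℕ, a ^ k • c⁻¹ ^ (n + 1) • q < c⁻¹ ^ n • q := by
    intro n hn
    have hlt : c ^ (n + 1) • p < p := by
      have := pow_down hm hcp (Nat.succ_pos n)
      rwa [pow_zero, one_smul] at this
    obtain ⟨k, hk⟩ := (hNn (n + 1)).to_right hm hlt (hpo.trans (hocq (n + 1)))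
      (hnp (n + 1) (Nat.succ_le_succ (Nat.zero_le n))) (hocq (n + 1))
    have hk := hk k le_rfl
    have hx : (c ^ (n + 1) * a * (c ^ (n + 1))⁻¹) ^ k ∈ M := M.pow_mem (hnM _) k
    have h1 : (c ^ (n + 1) * a * (c ^ (n + 1))⁻¹) ^ k • q ≤ t := by
      by_contra hcon
      rw [not_le] at hcon
      refine crossing hm S.hE S.hEM hd (S.hn _ hx _ ha) hdN (hNF.conj hm _) (hso.trans hk) ?_
        hcon (one_mem M) (by rwa [one_smul]) (by rwa [one_smul])
      refine lt_trans ?_ (hm2 (n + 1) hn)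
      rw [← pow_fix (hNn (n + 1)).r k, lt_iff hm]
      exact hpo.trans (hocq (n + 1))
    refine ⟨k, ?_⟩
    have h2 : (c ^ (n + 1) * a * (c ^ (n + 1))⁻¹) ^ k • q =
        c ^ (n + 1) • a ^ k • c⁻¹ ^ (n + 1) • q := by
      rw [conj_pow, conj_pow_smul]
    rw [h2] at h1
    have h3 : c ^ (n + 1) • a ^ k • c⁻¹ ^ (n + 1) • q < c • q := h1.trans_lt (hty.trans_lt hyq)
    rw [pow_succ', mul_smul, lt_iff hm] at h3
    rw [← lt_iff hm (c ^ n), cinv_pow]
    exact h3
  -- fixed points of `a` below `β`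
  obtain ⟨m0, rfl⟩ : ∃ m0, m = m0 + 1 := ⟨m - 1, by omega⟩
  have hB : ∀ z : X, a • z = z → z < β → z < c⁻¹ ^ m0 • q := by
    intro z hz hzβ
    obtain ⟨n, hn⟩ := S.to_β hoq hqβ hzβ
    have key : ∀ j : ℕ, z < c⁻¹ ^ (m0 + j) • q → z < c⁻¹ ^ m0 • q := by
      intro j
      induction j with
      | zero => exact fun h => h
      | succ j ih =>
        intro h
        apply ih
        obtain ⟨k, hk⟩ := hA (m0 + j) (by omega)
        refine lt_trans ?_ hk
        rw [← pow_fix hz k, lt_iff hm]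
        exact h
    exact key n (hn (m0 + n) (Nat.le_add_left _ _))
  -- `a` moves `q_m` down
  have hqm : a • c⁻¹ ^ (m0 + 1) • q < c⁻¹ ^ (m0 + 1) • q := by
    obtain ⟨k, hk⟩ := hA m0 le_rfl
    by_contra hcon
    rw [not_lt] at hcon
    rcases hcon.lt_or_eq with h1 | h1
    · have h2 := pow_up' hm h1 (Nat.zero_le k)
      rw [pow_zero, one_smul] at h2
      exact absurd ((h2.trans_lt hk).trans (hqlt m0)) (lt_irrefl _)
    · rw [pow_fix h1.symm k] at hk
      exact absurd (hk.trans (hqlt m0)) (lt_irrefl _)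
  obtain ⟨ρ, hρ1, hρ2, hρ3, -⟩ := tool_inf hm hqm
  have hNρ : NF a ρ β := by
    refine ⟨hρ1, haβ, fun z h1 h2 h3 => ?_⟩
    exact absurd (hρ3 z h3 ((hB z h3 h2).trans (hqlt m0)).le) (not_le.2 h1)
  have hqρ : q ≤ ρ := by
    refine hρ3 q hNF.r ?_
    have := pow_up' hm (lt_inv hm hcq) (Nat.zero_le (m0 + 1))
    rwa [pow_zero, one_smul] at this
  have hρβ : ρ < β := hρ2.trans (hqnβ _)
  -- `a_m` and `q`
  have hNρn : NF (c ^ (m0 + 1) * a * (c ^ (m0 + 1))⁻¹) (c ^ (m0 + 1) • ρ) β := by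
    have := hNρ.conj hm (c ^ (m0 + 1))
    rwa [pow_fix S.hcβ] at this
  have h1 : c ^ (m0 + 1) • ρ < q := by
    rw [← cinv_pow c (m0 + 1) q, lt_iff hm]
    exact hρ2
  have h2 : (c ^ (m0 + 1) * a * (c ^ (m0 + 1))⁻¹) • q < q := by
    rw [conj_pow_smul]
    conv_rhs => rw [← cinv_pow c (m0 + 1) q]
    exact hm _ _ _ hqm
  obtain ⟨k, hk⟩ := hNρn.inv.to_right hm h1 hqβ (lt_inv hm h2) hρβ
  have hk := hk k le_rfl
  have hx : (c ^ (m0 + 1) * a * (c ^ (m0 + 1))⁻¹)⁻¹ ^ k ∈ M :=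
    M.pow_mem (M.inv_mem (hnM _)) k
  refine crossing hm S.hE S.hEM (S.hn _ hx _ ha) ha (hNF.conj hm _) hNρ ?_ hk ?_ hx
    (hm _ _ _ hpo) (hm _ _ _ hoq)
  · have h3 := pow_down' hm (inv_lt hm (hnp (m0 + 1) hm1)) (Nat.zero_le k)
    rw [pow_zero, one_smul] at h3
    exact h3.trans_lt ((hpo.trans hoq).trans_le hqρ)
  · rw [← pow_fix hNρn.inv.r k, lt_iff hm]
    exact hqβ

/-- the line theorem -/
theorem Sit.line (S : Sit M E c o β) {p q : X} {e : G} (he : e ∈ E) (hNF : NF e p q)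
    (hL : ∀ x, p ≤ x → x < o → c • x < x) (hpo : p < o) (hoq : o < q) (hqβ : q < β) : False := by
  have hm := S.hm
  wlog heo : o < e • o generalizing e
  · have h1 := hNF.mov o hpo hoq
    exact this (E.inv_mem he) hNF.inv (lt_inv hm (lt_of_le_of_ne (not_lt.1 heo) h1))
  obtain ⟨d, hd, y, s, t, hoy, hyq, hdo, hdy, hdN, hso, hot, hty⟩ :=
    S.shift he hNF hL hpo hoq hqβ heo
  have hcq : c • q < q := S.hR q hoq hqβ
  have hone : ∀ g ∈ M, o < g • o → g • o < β → g • β ≤ β := fun g hg h1 h2 =>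
    S.one he hNF hL hpo hoq hqβ hg h1 h2
  have hoβ : o < β := hoq.trans hqβ
  have hdoy : d • o < y := by
    rw [← hdy, lt_iff hm]
    exact hoy
  have hyβ : y < β := hyq.trans (hcq.trans hqβ)
  have hdβ : d • β = β := by
    by_contra hne
    have hlt : d • β < β := lt_of_le_of_ne (hone d (S.hEM hd) hdo (hdoy.trans hyβ)) hne
    have h1 := S.two hone (S.hEM hd) hdo hlt
    have h2 : d • β < q := by
      rw [← lt_iff hm c]
      exact h1.trans_lt (hdoy.trans hyq)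
    obtain ⟨r, hr1, hr2, hr3, -⟩ := tool_inf hm hlt
    obtain ⟨u, hu1, hu2, hu3, -⟩ := tool_sup hm (lt_inv hm hlt)
    have hN : NF d r u := by
      refine ⟨hr1, fix_of_inv hu1, fun x h3 h4 h5 => ?_⟩
      rcases le_total x β with h6 | h6
      · exact absurd (hr3 x h5 h6) (not_le.2 h3)
      · exact absurd (hu3 x (inv_fix h5) h6) (not_le.2 h4)
    have hyr : y ≤ r := hr3 y hdy hyβ.le
    have hrq : r < q := by
      refine lt_trans ?_ h2
      rw [← hr1, lt_iff hm]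
      exact hr2
    exact crossing hm S.hE S.hEM he hd hNF hN (hpo.trans (hoy.trans_le hyr)) hrq
      (hqβ.trans hu2) (one_mem M) (by rwa [one_smul]) (by rwa [one_smul])
  have htq : t < q := hty.trans_lt (hyq.trans hcq)
  have hps : p ≤ s := by
    by_contra hcon
    exact crossing hm S.hE S.hEM hd he hdN hNF (not_le.1 hcon) (hpo.trans hot) htq (one_mem M)
      (by rwa [one_smul]) (by rwa [one_smul])
  exact S.fixed hd hdN (fun x h1 h2 => hL x (hps.trans h1) h2) hso hot (htq.trans hqβ) hdo hdβ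

end Pool.Agent.IsoHnn
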