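import Pool.Agent.IsoHnn.ParB

/-!
# The parabolic point of an isolated order

`parabolic`: `P` an isolated order, `C` its largest proper convex subgroup, `Ω = G / C`. Either every
element acts trivially or cofinally on `Ω`, or there are `c ∈ C`, parabolic at `o` in the completion,
and `w`, `w'` which move `o` into the right and left part of the basin.
-/

set_option autoImplicit false

universe u

namespace Pool.Agent.IsoHnn

open Pool.Agent.IsoOrd

section line

variable {G X : Type*} [Group G] [CompleteLinearOrder X] [MulAction G X]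

/-- the component of a point which is moved -/
theorem exists_compNF (hm : Mono G X) {e : G} {x : X} (h : e • x ≠ x) : ∃ p q : X, NF e p q ∧
    p < x ∧ x < q ∧ (∀ y, e • y = y → y ≤ x → y ≤ p) ∧ ∀ y, e • y = y → x ≤ y → q ≤ y := by
  wlog hup : x < e • x generalizing e
  · have h1 : x < e⁻¹ • x := lt_inv hm (lt_of_le_of_ne (not_lt.1 hup) h)
    obtain ⟨p, q, hN, hp, hq, h2, h3⟩ := this h1.ne' h1
    refine ⟨p, q, ?_, hp, hq, fun y hy => h2 y (inv_fix hy), fun y hy => h3 y (inv_fix hy)⟩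
    have := hN.inv
    rwa [inv_inv] at this
  obtain ⟨q, hq1, hq2, hq3, -⟩ := tool_sup hm hup
  obtain ⟨p, hp1, hp2, hp3, -⟩ := tool_inf hm (inv_lt hm hup)
  have h2 : ∀ y, e • y = y → y ≤ x → y ≤ p := fun y hy => hp3 y (inv_fix hy)
  refine ⟨p, q, ⟨fix_of_inv hp1, hq1, fun y h3 h4 h5 => ?_⟩, hp2, hq2, h2, hq3⟩
  rcases le_total y x with h6 | h6
  · exact absurd (h2 y h5 h6) (not_le.2 h3)
  · exact absurd (hq3 y h5 h6) (not_le.2 h4)

/-- the right end of the basin -/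
theorem exists_basin (hm : Mono G X) {c : G} {o v : X} (hco : c • o = o) (hov : o < v)
    (h : ∀ x, o < x → x < v → c • x < x) :
    ∃ β, v ≤ β ∧ c • β = β ∧ ∀ x, o < x → x < β → c • x < x := by
  set A : Set X := {x | o < x ∧ x ≤ c • x} with hA
  have h1 : v ≤ sInf A := by
    refine le_sInf fun x hx => ?_
    by_contra h2
    exact absurd (h x hx.1 (not_le.1 h2)) (not_lt.2 hx.2)
  have h2 : ∀ x, o < x → x < sInf A → c • x < x := by
    intro x hx1 hx2
    by_contra h3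
    exact absurd (sInf_le (show x ∈ A from ⟨hx1, not_lt.1 h3⟩)) (not_le.2 hx2)
  have hoβ : o < sInf A := hov.trans_le h1
  refine ⟨sInf A, h1, le_antisymm ?_ ?_, h2⟩
  · by_contra h3
    have h4 := inv_lt hm (not_le.1 h3)
    have h5 : o < c⁻¹ • sInf A := by
      rw [← lt_iff hm c, smul_inv_smul, hco]
      exact hoβ
    have h6 := h2 _ h5 h4
    rw [smul_inv_smul] at h6
    exact lt_asymm h4 h6
  · by_contra h3
    have h4 := lt_inv hm (not_le.1 h3)
    have h5 : c⁻¹ • sInf A ≤ sInf A := by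
      refine le_sInf fun x hx => ?_
      by_contra h6
      have h7 := hm c _ _ (not_le.1 h6)
      rw [smul_inv_smul] at h7
      exact absurd (hx.2.trans_lt h7) (not_lt.2 (sInf_le hx))
    exact absurd h5 (not_le.2 h4)

/-- all orbits in the interior are dense -/
def MinAct (G X : Type*) [Group G] [CompleteLinearOrder X] [MulAction G X] : Prop :=
  ∀ z : X, ⊥ < z → z < ⊤ → ∀ x y : X, x < y → ∃ g : G, x < g • z ∧ g • z < y

theorem MinAct.dual (h : MinAct G X) : MinAct G Xᵒᵈ := by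
  intro z h1 h2 x y hxy
  obtain ⟨g, hg1, hg2⟩ := h (OrderDual.ofDual z) h2 h1 (OrderDual.ofDual y) (OrderDual.ofDual x) hxy
  exact ⟨g, hg2, hg1⟩

/-- `C` acts trivially to the left of `o` -/
theorem triv_side (hm : Mono G X) (hmin : MinAct G X) {C : Subgroup G} {o u : X} (hu : u < o)
    (ho : o < ⊤) (hC : ∀ k ∈ C, ∀ T ≤ o, k • T = T)
    (hS : ∀ T, u < T → T < o → ∀ g : G, g • T = T → g ∈ C) {g : G} {z : X} (hz1 : ⊥ < z)
    (hz2 : z < ⊤) (hgz : g • z = z) (x : X) : g • x = x := by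
  have hob : ⊥ < o := bot_lt_of_lt hu
  have hdX : ∀ x y : X, x < y → ∃ z, x < z ∧ z < y := by
    intro x y hxy
    obtain ⟨g, hg⟩ := hmin o hob ho x y hxy
    exact ⟨_, hg⟩
  have claim : ∀ z : X, ⊥ < z → z < ⊤ → g • z = z → ∃ y, z < y ∧ ∀ x ≤ y, g • x = x := by
    intro z h1 h2 h3
    obtain ⟨h, hh1, hh2⟩ := hmin z h1 h2 u o hu
    have h4 : h * g * h⁻¹ ∈ C := by
      refine hS _ hh1 hh2 _ ?_
      rw [mul_smul, mul_smul, inv_smul_smul, h3]
    refine ⟨h⁻¹ • o, ?_, fun x hx => ?_⟩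
    · rw [← lt_iff hm h, smul_inv_smul]
      exact hh2
    · have h5 := hC _ h4 (h • x) (by rwa [← le_iff hm h⁻¹, inv_smul_smul])
      rw [mul_smul, mul_smul, inv_smul_smul] at h5
      exact smul_left_cancel h h5
  set A : Set X := {y | ∀ x ≤ y, g • x = x} with hA
  obtain ⟨y₁, hy₁, hy₁A⟩ := claim z hz1 hz2 hgz
  have hbelow : ∀ x, x < sSup A → g • x = x := by
    intro x hx
    obtain ⟨y, hy, hxy⟩ := lt_sSup_iff.1 hx
    exact hy x hxy.le
  have hle : ∀ k : G, (∀ x, x < sSup A → k • x = x) → sSup A ≤ k • sSup A := by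
    intro k hk
    refine le_of_forall_lt fun x hx => ?_
    obtain ⟨x', h1, h2⟩ := hdX _ _ hx
    refine h1.trans ?_
    rw [← hk x' h2, lt_iff hm]
    exact h2
  have hfix : g • sSup A = sSup A := by
    refine le_antisymm ?_ (hle g hbelow)
    have h1 := hle g⁻¹ fun x hx => inv_fix (hbelow x hx)
    rwa [← le_iff hm g, smul_inv_smul] at h1
  have htop : sSup A = ⊤ := by
    by_contra h1
    obtain ⟨y, hy1, hy2⟩ := claim _ (hz1.trans_le (hy₁.le.trans (le_sSup (show y₁ ∈ A from hy₁A))))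
      (lt_top_iff_ne_top.2 h1) hfix
    exact absurd (le_sSup (show y ∈ A from hy2)) (not_le.2 hy1)
  rcases (le_top : x ≤ ⊤).lt_or_eq with h1 | h1
  · exact hbelow x (by rwa [htop])
  · rw [h1, ← htop]
    exact hfix

end line

variable {G Ω X : Type*} [Group G] [LinearOrder Ω] [MulAction G Ω] [CompleteLinearOrder X]
  [MulAction G X] {ι : Ω → X}

/-- trivial or cofinal -/
theorem Cmp.dich (hι : Cmp (G := G) ι) (hends : ∀ x : Ω, ⊥ < ι x ∧ ι x < ⊤)
    (h : ∀ (g : G) (z : X), ⊥ < z → z < ⊤ → g • z = z → ∀ x : X, g • x = x) (a : G) :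
    (∀ x : Ω, a • x = x) ∨ (∀ x : Ω, comp a x = Set.univ) := by
  have hm := hι.hm
  have hinj : ∀ x y : Ω, ι x = ι y → x = y := by
    intro x y hxy
    rcases lt_trichotomy x y with h1 | h1 | h1
    · exact absurd hxy ((hι.lt _ _).2 h1).ne
    · exact h1
    · exact absurd hxy ((hι.lt _ _).2 h1).ne'
  have hle : ∀ x y : Ω, ι x ≤ ι y → x ≤ y := by
    intro x y hxy
    by_contra h1
    exact absurd hxy (not_le.2 ((hι.lt _ _).2 (not_le.1 h1)))
  have hpow : ∀ (a : G) (n : ℕ) (x : Ω), ι (a ^ n • x) = a ^ n • ι x := fun a n x =>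
    hι.eq _ _
  by_cases hfix : ∃ z : X, ⊥ < z ∧ z < ⊤ ∧ a • z = z
  · left
    obtain ⟨z, h1, h2, h3⟩ := hfix
    intro x
    apply hinj
    rw [hι.eq]
    exact h a z h1 h2 h3 _
  · right
    push Not at hfix
    have key : ∀ (a : G), (∀ z : X, ⊥ < z → z < ⊤ → a • z ≠ z) → ∀ x : Ω, ι x < a • ι x →
        comp a x = Set.univ := by
      intro a hfix x hx
      obtain ⟨s, hs1, hs2, -, hs4⟩ := tool_sup hm hx
      obtain ⟨t, ht1, ht2, -, ht4⟩ := tool_inf hm (inv_lt hm hx)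
      have hs : s = ⊤ := by
        by_contra h1
        exact hfix s (bot_lt_of_lt hs2) (lt_top_iff_ne_top.2 h1) hs1
      have ht : t = ⊥ := by
        by_contra h1
        exact hfix t (bot_lt_iff_ne_bot.2 h1) (ht2.trans_le le_top) (fix_of_inv ht1)
      rw [Set.eq_univ_iff_forall]
      intro z
      obtain ⟨n, hn⟩ := hs4 (ι z) (by rw [hs]; exact (hends z).2)
      obtain ⟨k, hk⟩ := ht4 (ι z) (by rw [ht]; exact (hends z).1)
      refine ⟨⟨-(k : ℤ), ?_⟩, ⟨(n : ℤ), ?_⟩⟩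
      · apply hle
        rw [zpow_neg, zpow_natCast, ← inv_pow, hpow]
        exact (hk k le_rfl).le
      · apply hle
        rw [zpow_natCast, hpow]
        exact (hn n le_rfl).le
    intro x
    rcases lt_or_gt_of_ne (hfix (ι x) (hends x).1 (hends x).2) with h1 | h1
    · have h2 := key a⁻¹ (fun z hz1 hz2 hz3 => hfix z hz1 hz2 (fix_of_inv hz3)) x (lt_inv hm h1)
      rw [Set.eq_univ_iff_forall] at h2 ⊢
      intro z
      obtain ⟨⟨m, hm'⟩, ⟨n, hn⟩⟩ := h2 z
      refine ⟨⟨-m, ?_⟩, ⟨-n, ?_⟩⟩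
      · rwa [zpow_neg, ← inv_zpow]
      · rwa [zpow_neg, ← inv_zpow]
    · exact key a hfix x h1

/-- a point of `Ω` which is moved -/
theorem Cmp.moved (hι : Cmp (G := G) ι) (hdn : ∀ x y : Ω, x < y → ∃ z, x < z ∧ z < y) {k : G}
    {T : X} (hT : k • T ≠ T) : ∃ w : Ω, k • ι w ≠ ι w ∧ min T (k • T) < ι w ∧
      ι w < max T (k • T) := by
  have hm := hι.hm
  rcases lt_or_gt_of_ne hT with h | h
  · obtain ⟨w, h1, h2⟩ := hι.dens hdn h
    refine ⟨w, ?_, by rwa [min_eq_right h.le], by rwa [max_eq_left h.le]⟩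
    exact ((hm k _ _ h2).trans h1).ne
  · obtain ⟨w, h1, h2⟩ := hι.dens hdn h
    refine ⟨w, ?_, by rwa [min_eq_left h.le], by rwa [max_eq_right h.le]⟩
    exact (h2.trans (hm k _ _ h1)).ne'

/-- the parabolic point -/
theorem parabolic {G : Type u} [Group G] {P F : Set G} (h : Isol ⊤ P F) {C : Subgroup G}
    (hC : Cvx P ⊤ C) (hne : C ≠ ⊤) (hmax : ∀ H, Cvx P ⊤ H → C ≤ H → H = C ∨ H = ⊤)
    (htop : TopAlt P C) {Ω : Type u} [LinearOrder Ω] [MulAction G Ω] {o : Ω}
    (hd : Dyn G Ω P C o) :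
    (∀ a : G, (∀ x : Ω, a • x = x) ∨ (∀ x : Ω, comp a x = Set.univ)) ∨
    ∃ (X : Type u) (_ : CompleteLinearOrder X) (_ : MulAction G X) (o' : X), Mono G X ∧
      (∀ g : G, g • o' = o' ↔ g ∈ C) ∧ ∃ (c w w' : G) (α β : X), Parab c α o' β ∧
        o' < w • o' ∧ w • o' < β ∧ w' • o' < o' ∧ α < w' • o' := by
  by_cases hdn : ∀ x y : Ω, x < y → ∃ z, x < z ∧ z < y
  swap
  · left
    push Not at hdn
    obtain ⟨x, y, hxy, hz⟩ := hdn
    exact disc_dich hd.mono hd.prim hxy fun z hz' => absurd hz'.2 (not_lt.2 (hz z hz'.1))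
  obtain ⟨X, i1, i2, ι, hm, hlt, heq, hd1, hd2⟩ := exists_compl (G := G) hd.mono
  have hι : Cmp (G := G) ι := ⟨hm, hlt, heq, hd1, hd2⟩
  have hmin : MinAct G X := fun z h1 h2 x y hxy => hι.dense_orbit hd.prim hdn h1 h2 hxy
  have hstab : ∀ g : G, g • ι o = ι o ↔ g ∈ C := by
    intro g
    rw [← hd.stab g, ← heq]
    constructor
    · intro h1
      rcases lt_trichotomy (g • o) o with h2 | h2 | h2
      · exact absurd h1 ((hlt _ _).2 h2).ne
      · exact h2
      · exact absurd h1 ((hlt _ _).2 h2).ne'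
    · intro h1
      rw [h1]
  -- no ends
  obtain ⟨g₀, hg₀⟩ : ∃ g : G, o < g • o := by
    by_contra hcon
    push Not at hcon
    apply hne
    rw [eq_top_iff]
    intro g _
    rw [← hd.stab]
    refine le_antisymm (hcon g) ?_
    by_contra h1
    have h2 := hd.mono g⁻¹ _ _ (not_le.1 h1)
    rw [inv_smul_smul] at h2
    exact absurd (hcon g⁻¹) (not_le.2 h2)
  have hends : ∀ x : Ω, ⊥ < ι x ∧ ι x < ⊤ := by
    intro x
    obtain ⟨a, rfl⟩ := hd.trans x
    constructor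
    · have h1 := hd.mono g₀⁻¹ _ _ hg₀
      rw [inv_smul_smul] at h1
      exact bot_lt_of_lt ((hlt _ _).2 (hd.mono a _ _ h1))
    · exact ((hlt _ _).2 (hd.mono a _ _ hg₀)).trans_le le_top
  have hCo : ∀ k ∈ C, k • ι o = ι o := fun k hk => (hstab k).2 hk
  obtain ⟨c, hc, u, v, hu, hv, hnear⟩ := hι.near h hC hne hd hdn htop
  -- stabilisers of points of `S`
  have hbig : ∀ T : X, ⊥ < T → T < ⊤ → (∀ f ∈ F, T ≤ f • T) → (∀ k ∈ C, k • T = T) →
      ∀ g : G, g • T = T → g ∈ C := by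
    intro T h1 h2 h3 h4 g hg
    have h5 := big_cvx hm h h3
    rcases hmax _ h5 (fun k hk => h4 k hk) with h6 | h6
    · rw [← h6]
      exact hg
    · exfalso
      obtain ⟨a, ha, -⟩ := hmin T h1 h2 T ⊤ h2
      have h7 : a ∈ MulAction.stabilizer G T := by
        rw [h6]
        exact Subgroup.mem_top a
      rw [MulAction.mem_stabilizer_iff] at h7
      rw [h7] at ha
      exact lt_irrefl _ ha
  by_cases hL : ∀ k ∈ C, ∀ T ≤ ι o, k • T = T
  · left
    refine hι.dich hends fun g z hz1 hz2 hgz => triv_side hm hmin hu (hends o).2 hL ?_ hz1 hz2 hgz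
    intro T hT1 hT2
    refine hbig T (bot_lt_of_lt hT1) (hT2.trans_le le_top) ?_ fun k hk => hL k hk T hT2.le
    rcases hnear T hT1 (hT2.trans hv) with h1 | h1
    · rw [hL c hc T hT2.le] at h1
      exact absurd h1 (lt_irrefl _)
    · exact h1
  by_cases hR : ∀ k ∈ C, ∀ T, ι o ≤ T → k • T = T
  · left
    refine hι.dich hends fun g z hz1 hz2 hgz =>
      triv_side (X := Xᵒᵈ) (mono_dual hm) hmin.dual (o := OrderDual.toDual (ι o))
        (u := OrderDual.toDual v) (C := C) hv (hends o).1 hR ?_ (z := OrderDual.toDual z)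
        hz2 hz1 hgz
    intro T hT1 hT2
    have hT1' : OrderDual.ofDual T < v := hT1
    have hT2' : ι o < OrderDual.ofDual T := hT2
    refine hbig (OrderDual.ofDual T) (bot_lt_of_lt hT2') (hT1'.trans_le le_top) ?_
      fun k hk => hR k hk _ hT2'.le
    rcases hnear _ (hu.trans hT2') hT1' with h1 | h1
    · rw [hR c hc _ hT2'.le] at h1
      exact absurd h1 (lt_irrefl _)
    · exact h1
  right
  push Not at hL hR
  -- the element moving `o`, from a moved point
  have hmk : ∀ (k : G), k ∈ C → ∀ w : Ω, k • ι w ≠ ι w → ∃ (e : G) (a : Ω), e • ι o ≠ ι o ∧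
      e • ι a = ι a ∧ (ι o < ι w → ι a < ι o) ∧ (ι w < ι o → ι o < ι a) := by
    intro k hk w hw
    obtain ⟨g, rfl⟩ := hd.trans w
    have e1 : ∀ x : X, (g⁻¹ * k * g) • x = g⁻¹ • k • g • x := by
      intro x
      rw [mul_smul, mul_smul]
    refine ⟨g⁻¹ * k * g, g⁻¹ • o, ?_, ?_, ?_, ?_⟩
    · intro h1
      apply hw
      rw [e1, inv_smul_eq_iff, ← heq] at h1
      exact h1
    · rw [e1, heq, smul_inv_smul, hCo k hk]
    · intro h1
      rw [heq, ← lt_iff hm g, smul_inv_smul, ← heq]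
      exact h1
    · intro h1
      rw [heq, ← lt_iff hm g, smul_inv_smul, ← heq]
      exact h1
  -- right side
  obtain ⟨v₁, hv₁, hv₁'⟩ : ∃ v₁, ι o < v₁ ∧ ∀ T, ι o < T → T < v₁ → c • T < T := by
    obtain ⟨k, hk, T, hT, hkT⟩ := hR
    have hT' : ι o < T := lt_of_le_of_ne hT (by rintro rfl; exact hkT (hCo k hk))
    obtain ⟨w, hw, hw1, -⟩ := hι.moved hdn hkT
    have hkT' : ι o < k • T := by
      rw [← hCo k hk, lt_iff hm]
      exact hT'
    obtain ⟨e, a, he1, he2, he3, -⟩ := hmk k hk w hw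
    have ha := he3 ((lt_min hT' hkT').trans hw1)
    obtain ⟨p, q, hN, hp, hq, hp', -⟩ := exists_compNF hm he1
    have hpb : ⊥ < p := (hends a).1.trans_le (hp' _ he2 ha.le)
    refine ⟨min q v, lt_min hq hv, fun T h1 h2 => ?_⟩
    rcases hnear T (hu.trans h1) (h2.trans_le (min_le_right _ _)) with h3 | h3
    · exact h3
    · exact absurd (hι.no_right h hd hdn hN hpb hp h1 (h2.trans_le (min_le_left _ _)) h3) id
  obtain ⟨u₁, hu₁, hu₁'⟩ : ∃ u₁, u₁ < ι o ∧ ∀ T, u₁ < T → T < ι o → c • T < T := by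
    obtain ⟨k, hk, T, hT, hkT⟩ := hL
    have hT' : T < ι o := lt_of_le_of_ne hT (by rintro rfl; exact hkT (hCo k hk))
    obtain ⟨w, hw, -, hw1⟩ := hι.moved hdn hkT
    have hkT' : k • T < ι o := by
      rw [← hCo k hk, lt_iff hm]
      exact hT'
    obtain ⟨e, a, he1, he2, -, he3⟩ := hmk k hk w hw
    have ha := he3 (hw1.trans (max_lt hT' hkT'))
    obtain ⟨p, q, hN, hp, hq, -, hq'⟩ := exists_compNF hm he1
    have hqt : q < ⊤ := (hq' _ he2 ha.le).trans_lt (hends a).2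
    refine ⟨max p u, max_lt hp hu, fun T h1 h2 => ?_⟩
    rcases hnear T ((le_max_right _ _).trans_lt h1) (h2.trans hv) with h3 | h3
    · exact h3
    · exact absurd (hι.no_left h hd hdn hN hqt hq h2 ((le_max_left _ _).trans_lt h1) h3) id
  obtain ⟨β, hβ1, hβ2, hβ3⟩ := exists_basin hm (hCo c hc) hv₁ hv₁'
  obtain ⟨α, hα1, hα2, hα3⟩ := exists_basin (X := Xᵒᵈ) (mono_dual hm) (c := c⁻¹)
    (o := OrderDual.toDual (ι o)) (v := OrderDual.toDual u₁) (inv_fix (hCo c hc)) hu₁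
    (fun x h1 h2 => lt_inv hm (hu₁' (OrderDual.ofDual x) h2 h1))
  have hP : Parab c (OrderDual.ofDual α) (ι o) β := by
    refine ⟨hCo c hc, fix_of_inv hα2, hβ2, hβ3, fun x h1 h2 => ?_⟩
    have h3 : x < c⁻¹ • x := hα3 (OrderDual.toDual x) h2 h1
    have h4 := hm c _ _ h3
    rwa [smul_inv_smul] at h4
  have hαo : OrderDual.ofDual α < ι o := lt_of_le_of_lt hα1 hu₁
  obtain ⟨a, ha1, ha2⟩ := hι.dens hdn (hv₁.trans_le hβ1)
  obtain ⟨b, hb1, hb2⟩ := hι.dens hdn hαo
  obtain ⟨w, rfl⟩ := hd.trans a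
  obtain ⟨w', rfl⟩ := hd.trans b
  rw [heq] at ha1 ha2 hb1 hb2
  exact ⟨X, i1, i2, ι o, hm, hstab, c, w, w', _, β, hP, ha1, ha2, hb2, hb1⟩

end Pool.Agent.IsoHnn
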