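import Pool.Agent.IsoHnn.ClsA
import Pool.Agent.IsoHnn.ParC
import Pool.Agent.IsoOrd.Main

/-!
# Isolated orders on good groups
-/

set_option autoImplicit false

universe u

namespace Pool.Agent.IsoHnn

open Pool.Agent.IsoOrd

/-- the statement of `NoWin` -/
def NoWinStat : Prop := ∀ (G X : Type u) (_ : Group G) (_ : CompleteLinearOrder X)
  (_ : MulAction G X), Mono G X → Good (⊤ : Subgroup G) ⊥ → ∀ (c w w' : G) (α o β : X),
  Parab c α o β → o < w • o → w • o < β → w' • o < o → α < w' • o →
  (∀ d : ℕ → G, (∀ k, d k • o = o) →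
    (∀ k k', k < k' → ∃ x : X, d k • x ≠ x ∧ d k' • x = x) → False) → False

/-- the last jump is Conradian -/
theorem dyn_good (hnw : NoWinStat.{u}) {G : Type u} [Group G] {P F : Set G} (h : Isol ⊤ P F)
    {C : Subgroup G} (hC : Cvx P ⊤ C) (hne : C ≠ ⊤)
    (hmax : ∀ H, Cvx P ⊤ H → C ≤ H → H = C ∨ H = ⊤) (htop : TopAlt P C) (hlev : LevBound C)
    (hG : Good (⊤ : Subgroup G) ⊥) :
    ∃ t : G → ℝ, (∀ x y, t (x * y) = t x + t y) ∧ (∀ x ∈ C, t x = 0) ∧
      (∀ x ∈ P, x ∉ C → 0 < t x) := by
  obtain ⟨Ω, i1, i2, o, hd⟩ := exists_dyn h.cone hC hne hmax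
  rcases parabolic h hC hne hmax htop hd with hdich | ⟨X, j1, j2, o', hm, hst, c, w, w', α, β,
    hP, h1, h2, h3, h4⟩
  · obtain ⟨t, ht, htp⟩ := exists_trans_hom hd.mono (N := ⊤) o fun a _ => hdich a
    have hadd : ∀ x y, t (x * y) = t x + t y := fun x y =>
      ht x (Subgroup.mem_top x) y (Subgroup.mem_top y)
    have ht1 : t 1 = 0 := by
      have := hadd 1 1
      rw [mul_one] at this
      linarith
    have hti : ∀ a, t a⁻¹ = - t a := by
      intro a
      have := hadd a a⁻¹
      rw [mul_inv_cancel, ht1] at this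
      linarith
    refine ⟨t, hadd, fun x hx => ?_, fun x hx hxC =>
      (htp x (Subgroup.mem_top x) o).2 (hd.pos x hx hxC)⟩
    have hxo : x • o = o := (hd.stab x).2 hx
    apply le_antisymm
    · by_contra hcon
      push Not at hcon
      have h5 := (htp x (Subgroup.mem_top x) o).1 hcon
      rw [hxo] at h5
      exact lt_irrefl _ h5
    · by_contra hcon
      push Not at hcon
      have h5 : 0 < t x⁻¹ := by rw [hti x]; linarith
      have h6 := (htp x⁻¹ (Subgroup.mem_top _) o).1 h5
      have h7 : x⁻¹ • o = o := by rw [inv_smul_eq_iff]; exact hxo.symm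
      rw [h7] at h6
      exact lt_irrefl _ h6
  · exfalso
    exact hnw G X _ _ _ hm hG c w w' α o' β hP h1 h2 h3 h4
      (hfin_of_lev hm h.cone hlev fun g hg => (hst g).1 hg)

/-- isolated orders on good groups come from Tararin series -/
theorem isol_good (hnw : NoWinStat.{u}) (n : ℕ) : ∀ (G : Type u) [Group G] (P F : Set G),
    Isol ⊤ P F → F.ncard ≤ n → Good (⊤ : Subgroup G) ⊥ →
      ∃ (j : ℕ) (Cs : ℕ → Subgroup G), TarSer P j Cs ∧ Cs j = ⊤ := by
  induction n with
  | zero =>
    intro G _ P F h hn hG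
    by_cases hbot : (⊤ : Subgroup G) = ⊥
    · refine ⟨0, fun _ => ⊥, ⟨rfl, ?_, ?_, ?_⟩, hbot.symm⟩
      · intro m hm
        omega
      · intro m hm
        omega
      · intro m hm
        omega
    · exfalso
      obtain ⟨C, _, _, _, f, hf, _⟩ := h.exists_max hbot
      have : F = ∅ := by
        rw [← Set.ncard_eq_zero h.fin]
        omega
      rw [this] at hf
      exact hf
  | succ n ih =>
    intro G _ P F h hn hG
    by_cases hbot : (⊤ : Subgroup G) = ⊥
    · refine ⟨0, fun _ => ⊥, ⟨rfl, ?_, ?_, ?_⟩, hbot.symm⟩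
      · intro m hm
        omega
      · intro m hm
        omega
      · intro m hm
        omega
    · obtain ⟨C, hC, hCne, hmax, f, hf, hfC⟩ := h.exists_max hbot
      have hres := h.restrict hC
      have hcard : ((fun x : C => (x : G)) ⁻¹' F).ncard ≤ n := by
        have h1 : ((fun x : C => (x : G)) '' ((fun x : C => (x : G)) ⁻¹' F)) ⊆ F \ {f} := by
          rintro _ ⟨x, hx, rfl⟩
          refine ⟨hx, ?_⟩
          intro hxf
          rw [Set.mem_singleton_iff] at hxf
          exact hfC (hxf ▸ x.2)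
        have h2 := Set.ncard_le_ncard h1 (h.fin.sdiff)
        rw [Set.ncard_image_of_injective _ Subtype.coe_injective] at h2
        have h3 := Set.ncard_sdiff_singleton_add_one hf h.fin
        omega
      obtain ⟨j, Cs, hCs, hj⟩ := ih C _ _ hres hcard (hG.type C)
      obtain ⟨hT, hTj⟩ := hCs.map hj
      set Ds : ℕ → Subgroup G := fun m => (Cs m).map C.subtype with hDs
      have hDj : Ds j = C := hTj
      have htop : TopAlt P C := by
        rw [← hDj]
        exact tar_topAlt h.cone hT
      have hlev : LevBound C := by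
        rw [← hDj]
        exact tar_levBound h.cone hT
      obtain ⟨t, ht, ht0, htp⟩ := dyn_good hnw h hC hCne hmax htop hlev hG
      obtain ⟨ψ, hψ, hψ0, hψp⟩ := rank_one h hC hmax ⟨f, hf, hfC⟩ t ht ht0 htp
      refine ⟨j + 1, _, hT.extend (by rw [hDj]; exact hCne) ψ hψ (by rw [hDj]; exact hψ0)
        (by rw [hDj]; exact hψp) ?_, ?_⟩
      · intro i hi
        subst hi
        exact exists_neg h hT (by rw [hDj]; exact hCne) ψ hψ (by rw [hDj]; exact hψ0)
          (by rw [hDj]; exact hψp)
      · simp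

/-- main theorem for good groups -/
theorem main_good (hnw : NoWinStat.{u}) {G : Type u} [Group G] (hG : Good (⊤ : Subgroup G) ⊥)
    {P F : Set G} (h : Isol ⊤ P F) : {Q : Set G | Cone ⊤ Q}.Finite := by
  obtain ⟨j, Cs, hCs, hj⟩ := isol_good hnw F.ncard G P F h le_rfl hG
  have := tar_finite h.cone hCs
  rwa [hj] at this

end Pool.Agent.IsoHnn
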