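import Pool.Agent.IsoHnn.ClsA

/-!
# Good groups have no windows

`no_win`: let `Γ = ⟨c, w, w'⟩` be good modulo a group which is central modulo the kernel of the
action of `Γ` on the orbit of `o`. Then `c` cannot be parabolic at `o` such that `w` and `w'` move
`o` into the right and into the left part of the basin, if the stabiliser of `o` is small.

Let `L` be the centre modulo the kernel and `N` the normal subgroup given by the goodness. The
relatively convex subgroups of `Γ` are `Γ` and groups fixing `o`. By the gap lemma `N` contains `w₁`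
and `w₁'` which move `o` into the two parts of the basin. The windows of `w₁`, `w₁'` are not
hyper-NFS modulo `L`, so `⟨c, w₁, w₁'⟩` is good modulo `L` and we can use the induction hypothesis.
-/

set_option autoImplicit false

namespace Pool.Agent.IsoHnn

open Pool.Agent.IsoOrd

variable {G X : Type*} [Group G] [CompleteLinearOrder X] [MulAction G X]

omit [CompleteLinearOrder X] in
theorem cen_norm (Γ : Subgroup G) (o : X) : NormIn (cen Γ o) Γ := by
  refine ⟨fun n hn => hn.1, fun g hg n hn => ?_⟩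
  have key : ∀ h ∈ Γ, (g * n * g⁻¹) • h • o = n • h • o := by
    intro h hh
    have h1 := hn.2 g hg (g⁻¹ * h) (mul_mem (inv_mem hg) hh)
    simp only [mul_smul, smul_inv_smul] at h1 ⊢
    exact h1.symm
  refine ⟨mul_mem (mul_mem hg hn.1) (inv_mem hg), fun x hx h hh => ?_⟩
  rw [← mul_smul x h o, key _ (mul_mem hx hh), key h hh, mul_smul]
  exact hn.2 x hx h hh

omit [CompleteLinearOrder X] in
theorem mem_cen {Γ : Subgroup G} {o : X} {n : G} (hn : n ∈ Γ)
    (h : ∀ g ∈ Γ, ∀ h ∈ Γ, (n * g * n⁻¹ * g⁻¹) • h • o = h • o) : n ∈ cen Γ o := by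
  refine ⟨hn, fun g hg k hk => ?_⟩
  have h1 := h g hg (g * n * k) (mul_mem (mul_mem hg hn) hk)
  simp only [mul_smul, inv_smul_smul] at h1
  exact h1

omit [CompleteLinearOrder X] in
theorem cen_comm {Γ : Subgroup G} {o : X} {n : G} (hn : n ∈ cen Γ o) :
    ∀ g ∈ Γ, ∀ h ∈ Γ, (n * g * n⁻¹ * g⁻¹) • h • o = h • o := by
  intro g hg h hh
  have h1 := hn.2 g hg (n⁻¹ * g⁻¹ * h) (mul_mem (mul_mem (inv_mem hn.1) (inv_mem hg)) hh)
  simp only [mul_smul] at h1 ⊢
  rw [h1, smul_inv_smul, smul_inv_smul]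

/-- good groups have no windows -/
theorem no_win (hm : Mono G X) {c : G} {α o β : X} (P : Parab c α o β) {Γ Z : Subgroup G}
    (hG : Good Γ Z) : ∀ {w w' : G}, o < w • o → w • o < β → w' • o < o → α < w' • o →
    Γ = Subgroup.closure {c, w, w'} →
    (∀ k ∈ Z, k ∈ Γ → ∀ g ∈ Γ, ∀ h ∈ Γ, (k * g * k⁻¹ * g⁻¹) • h • o = h • o) →
    (∀ d : ℕ → G, (∀ k, d k ∈ Γ) → (∀ k, d k • o = o) →
      (∀ k k', k < k' → ∃ x : X, d k • x ≠ x ∧ d k' • x = x) → False) → False := by
  induction hG with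
  | intro Γ K N hN hw ih =>
    intro w w' hwo hwβ hwo' hwα hΓ hZ hfin
    have hcΓ : c ∈ Γ := by
      rw [hΓ]
      exact Subgroup.subset_closure (by simp)
    have hwΓ : w ∈ Γ := by
      rw [hΓ]
      exact Subgroup.subset_closure (by simp)
    have hwΓ' : w' ∈ Γ := by
      rw [hΓ]
      exact Subgroup.subset_closure (by simp)
    have hL1 := cen_norm Γ o
    have hL2 : Γ ⊓ K ≤ cen Γ o := fun k hk => mem_cen hk.1 (hZ k hk.2 hk.1)
    have hL3 : cen Γ o ≠ Γ := by
      intro h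
      have h1 : c ∈ cen Γ o := by rw [h]; exact hcΓ
      have h2 := h1.2 w hwΓ 1 (one_mem Γ)
      rw [one_smul, P.co] at h2
      exact (P.hR _ hwo hwβ).ne h2
    obtain ⟨hN1, hN2⟩ := hN _ hL1 hL2 hL3
    have hprim : ∀ H, RCvx Γ H o → (∀ h ∈ H, h • o = o) ∨ ∀ g ∈ Γ, g ∈ H := by
      intro H hH
      by_cases htriv : ∀ h ∈ H, h • o = o
      · exact Or.inl htriv
      · right
        push Not at htriv
        have hcc : ∀ g ∈ Γ, c * g * c⁻¹ ∈ Γ := fun g hg =>
          mul_mem (mul_mem hcΓ hg) (inv_mem hcΓ)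
        have h1 : w' ∈ H := by
          have h := hH.left hm P hcc htriv hwΓ hwo hwβ hwΓ' hwo' hwα 0
          simpa using h
        obtain ⟨n₀, hn₀⟩ := hH.right hm P hcc htriv hwΓ hwo hwβ hwΓ' hwo' hwα
        have h2 : c ∈ H := hH.cvx c hcΓ w'⁻¹ (inv_mem h1) P.co.ge
          (by rw [P.co]; exact (lt_inv hm hwo').le)
        have h3 : w ∈ H := by
          have h := hn₀ n₀ le_rfl
          have e : w = (c ^ n₀)⁻¹ * (c ^ n₀ * w * (c ^ n₀)⁻¹) * c ^ n₀ := by group
          rw [e]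
          exact mul_mem (mul_mem (inv_mem (pow_mem h2 n₀)) h) (pow_mem h2 n₀)
        intro g hg
        rw [hΓ] at hg
        exact closure3_le h2 h3 h1 hg
    obtain ⟨w₁, hw₁, hw₁o, hw₁β⟩ : ∃ n ∈ N (cen Γ o), o < n • o ∧ n • o < β := by
      by_contra hcon
      push Not at hcon
      apply hN2
      have S : GS Γ (N (cen Γ o)) o β :=
        { hm := hm
          le := hN1.le
          hN := hN1.conj
          hov := hwo.trans hwβ
          hacc := ⟨w, hwΓ, hwo, hwβ⟩
          hprim := hprim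
          hfin := hfin
          hgap := fun n hn h => absurd h.2 (not_lt.2 (hcon n hn h.1)) }
      exact fun n hn => mem_cen (hN1.le hn) (gap S n hn)
    obtain ⟨w₁', hw₁', hw₁α, hw₁o'⟩ : ∃ n ∈ N (cen Γ o), α < n • o ∧ n • o < o := by
      by_contra hcon
      push Not at hcon
      apply hN2
      exact fun n hn => mem_cen (hN1.le hn) (gap_left hm hN1.le hN1.conj (hwα.trans hwo')
        ⟨w', hwΓ', hwα, hwo'⟩ hprim hfin (fun n hn h => absurd h.2 (not_lt.2 (hcon n hn h.1)))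
        n hn)
    have hw₁Γ := hN1.le hw₁
    have hw₁Γ' := hN1.le hw₁'
    by_cases c1 : HNrel (win c w₁ w₁') ((cen Γ o).subgroupOf (win c w₁ w₁'))
    · have hle : win c w₁ w₁' ≤ Γ := win_le hcΓ hw₁Γ hw₁Γ'
      exact window_contra hm P hw₁o hw₁β hw₁o' hw₁α
        (fun k hk _ g hg h hh => cen_comm hk g (hle hg) h (hle hh)) c1
        (fun d h1 h2 h3 => hfin d (fun k => hle (h1 k)) h2 h3)
    by_cases c2 : HNrel (win c⁻¹ w₁' w₁) ((cen Γ o).subgroupOf (win c⁻¹ w₁' w₁))
    · have hle : win c⁻¹ w₁' w₁ ≤ Γ := win_le (inv_mem hcΓ) hw₁Γ' hw₁Γ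
      exact window_contra_inv hm P hw₁o hw₁β hw₁o' hw₁α
        (fun k hk _ g hg h hh => cen_comm hk g (hle hg) h (hle hh)) c2
        (fun d h1 h2 h3 => hfin d (fun k => hle (h1 k)) h2 h3)
    · have hle : Subgroup.closure {c, w₁, w₁'} ≤ Γ := closure3_le hcΓ hw₁Γ hw₁Γ'
      exact ih _ hL1 hL2 hL3 c hcΓ w₁ hw₁ w₁' hw₁' c1 c2 hw₁o hw₁β hw₁o' hw₁α rfl
        (fun k hk _ g hg h hh => cen_comm hk g (hle hg) h (hle hh))
        (fun d h1 h2 h3 => hfin d (fun k => hle (h1 k)) h2 h3)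

end Pool.Agent.IsoHnn
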