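import Pool.Agent.IsoHnn.MainG
import Pool.Agent.IsoHnn.NoWin

/-!
# A good group with an isolated order has finitely many orders
-/

set_option autoImplicit false

universe u

namespace Pool.Agent.IsoHnn

open Pool.Agent.IsoOrd

theorem noWinStat : NoWinStat.{u} := by
  intro G X _ _ _ hm hG c w w' α o β P h1 h2 h3 h4 hfin
  refine no_win hm P (Γ := Subgroup.closure {c, w, w'}) (Z := ⊥) ?_ h1 h2 h3 h4 rfl ?_
    (fun d _ hd hd' => hfin d hd hd')
  · refine hG.sub (fun g _ k hk => ?_) le_top
    rw [Subgroup.mem_bot] at hk ⊢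
    rw [hk]
    group
  · intro k hk _ g _ h _
    rw [Subgroup.mem_bot] at hk
    rw [hk]
    have e : (1 : G) * g * 1⁻¹ * g⁻¹ = 1 := by group
    rw [e, one_smul]

/-- a good group with an isolated order has finitely many orders -/
theorem good_finite {G : Type u} [Group G] (hG : Good (⊤ : Subgroup G) ⊥) {P F : Set G}
    (h : Isol ⊤ P F) : {Q : Set G | Cone ⊤ Q}.Finite :=
  main_good noWinStat hG h

end Pool.Agent.IsoHnn
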