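import Pool.Agent.IsoHnn.Rel

/-!
# Heredity of relative hyper-NFS groups
-/

set_option autoImplicit false

namespace Pool.Agent.IsoHnn

open Pool.Agent.IsoOrd

theorem map_ev {G H : Type*} [Group G] [Group H] (φ : G →* H) (a b : G) (w : List Bool) :
    φ (ev a b w) = ev (φ a) (φ b) w := by
  unfold ev
  rw [map_list_prod, List.map_map]
  congr 1
  apply List.map_congr_left
  intro i _
  cases i <;> rfl

private theorem sub_mem_iff {G : Type*} [Group G] (K : Subgroup G) [K.Normal] (x y : G) :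
    x⁻¹ * y ∈ K ↔ QuotientGroup.mk' K x = QuotientGroup.mk' K y := by
  rw [QuotientGroup.mk'_apply, QuotientGroup.mk'_apply, QuotientGroup.eq]

private theorem sub_normal_sSup {G : Type*} [Group G] {c : Set (Subgroup G)} (hne : c.Nonempty)
    (hc : IsChain (· ≤ ·) c) (hn : ∀ s ∈ c, s.Normal) : (sSup c).Normal := by
  constructor
  intro x hx g
  rw [Subgroup.mem_sSup_of_directedOn hne hc.directedOn] at hx ⊢
  obtain ⟨s, hs, hxs⟩ := hx
  exact ⟨s, hs, (hn s hs).conj_mem x hxs g⟩

/-- pull-back along a homomorphism -/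
theorem HNrel.comap {G D : Type*} [Group G] [Group D] {K : Subgroup G} (hKn : K.Normal)
    (h : HNrel G K) (f : D →* G) : HNrel D (K.comap f) := by
  intro L hL hKL hne
  obtain ⟨S, hKS, hS⟩ := zorn_le_nonempty₀ {S : Subgroup G | S.Normal ∧ S.comap f ≤ L} (by
    intro c hc hch y hy
    have hcne : c.Nonempty := ⟨y, hy⟩
    refine ⟨sSup c, ⟨sub_normal_sSup hcne hch fun s hs => (hc hs).1, ?_⟩,
      fun z hz => le_sSup hz⟩
    intro x hx
    rw [Subgroup.mem_comap, Subgroup.mem_sSup_of_directedOn hcne hch.directedOn] at hx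
    obtain ⟨s, hs, hxs⟩ := hx
    exact (hc hs).2 hxs) K ⟨hKn, hKL⟩
  obtain ⟨hSn, hSL⟩ := hS.prop
  have hStop : S ≠ ⊤ := by
    rintro rfl
    apply hne
    rw [eq_top_iff]
    refine le_trans ?_ hSL
    intro x _
    exact Subgroup.mem_comap.2 (Subgroup.mem_top _)
  obtain ⟨N, hNn, hSN, hrel⟩ := h S hSn hKS hStop
  have hNL : ¬ N.comap f ≤ L := by
    intro hle
    have := hS.le_of_ge (show N ∈ {S : Subgroup G | S.Normal ∧ S.comap f ≤ L} from ⟨hNn, hle⟩)
      hSN.le
    exact absurd this (not_le_of_gt hSN)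
  have := hNn
  have hN' : (N.comap f).Normal := inferInstance
  refine ⟨L ⊔ N.comap f, Subgroup.sup_normal L _, ?_, ?_⟩
  · refine lt_of_le_of_ne le_sup_left ?_
    intro heq
    apply hNL
    rw [heq]
    exact le_sup_right
  · have hrep : ∀ a : D, a ∈ L ⊔ N.comap f → ∃ a' : D, f a' ∈ N ∧
        QuotientGroup.mk' L a = QuotientGroup.mk' L a' := by
      intro a ha
      have h1 : QuotientGroup.mk' L a ∈ (L ⊔ N.comap f).map (QuotientGroup.mk' L) :=
        Subgroup.mem_map_of_mem _ ha
      have h2 : L.map (QuotientGroup.mk' L) = ⊥ := by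
        rw [Subgroup.map_eq_bot_iff, QuotientGroup.ker_mk']
      rw [Subgroup.map_sup, h2, bot_sup_eq, Subgroup.mem_map] at h1
      obtain ⟨a', ha', he⟩ := h1
      exact ⟨a', Subgroup.mem_comap.1 ha', he.symm⟩
    intro a ha b hb
    obtain ⟨a', ha', hea⟩ := hrep a ha
    obtain ⟨b', hb', heb⟩ := hrep b hb
    obtain ⟨w₁, w₂, hw, hmem⟩ := hrel _ ha' _ hb'
    refine ⟨w₁, w₂, hw, ?_⟩
    rw [sub_mem_iff, map_ev, map_ev, hea, heb, ← map_ev, ← map_ev, ← sub_mem_iff]
    apply hSL
    rw [Subgroup.mem_comap, map_mul, map_inv, map_ev, map_ev]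
    exact hmem

/-- passing to a subgroup modulo which `K` is central -/
theorem HNrel.central {G : Type*} [Group G] {K L₀ : Subgroup G}
    (h : HNrel G K) (hcent : ∀ k ∈ K, ∀ g : G, k * g * k⁻¹ * g⁻¹ ∈ L₀) : HNrel G L₀ := by
  intro L hL hL₀ hne
  by_cases hKL : K ≤ L
  · exact h L hL hKL hne
  · have hc : ∀ k ∈ K, ∀ g : G, QuotientGroup.mk' L k * QuotientGroup.mk' L g =
        QuotientGroup.mk' L g * QuotientGroup.mk' L k := by
      intro k hk g
      have h1 : QuotientGroup.mk' L (k * g * k⁻¹ * g⁻¹) = 1 := by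
        rw [← MonoidHom.mem_ker, QuotientGroup.ker_mk']
        exact hL₀ (hcent k hk g)
      rw [map_mul, map_mul, map_mul, map_inv, map_inv, mul_inv_eq_one, mul_inv_eq_iff_eq_mul] at h1
      exact h1
    refine ⟨L ⊔ K, ⟨fun x hx g => ?_⟩, ?_, ?_⟩
    · have hcomap : ∀ y : G, y ∈ L ⊔ K ↔ QuotientGroup.mk' L y ∈ K.map (QuotientGroup.mk' L) := by
        intro y
        have h2 : L.map (QuotientGroup.mk' L) = ⊥ := by
          rw [Subgroup.map_eq_bot_iff, QuotientGroup.ker_mk']
        have h3 : (L ⊔ K).map (QuotientGroup.mk' L) = K.map (QuotientGroup.mk' L) := by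
          rw [Subgroup.map_sup, h2, bot_sup_eq]
        rw [← h3]
        constructor
        · exact fun hy => Subgroup.mem_map_of_mem _ hy
        · intro hy
          obtain ⟨z, hz, hzy⟩ := Subgroup.mem_map.1 hy
          rw [← sub_mem_iff] at hzy
          have h4 : y = z * (z⁻¹ * y) := by group
          rw [h4]
          exact mul_mem hz (Subgroup.mem_sup_left hzy)
      rw [hcomap] at hx ⊢
      obtain ⟨k, hk, hkx⟩ := Subgroup.mem_map.1 hx
      rw [map_mul, map_mul, map_inv, ← hkx, ← hc k hk g, mul_inv_cancel_right]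
      exact Subgroup.mem_map_of_mem _ hk
    · refine lt_of_le_of_ne le_sup_left ?_
      intro heq
      apply hKL
      rw [heq]
      exact le_sup_right
    · have hrep : ∀ a : G, a ∈ L ⊔ K → ∃ a' ∈ K, QuotientGroup.mk' L a' =
          QuotientGroup.mk' L a := by
        intro a ha
        have h1 : QuotientGroup.mk' L a ∈ (L ⊔ K).map (QuotientGroup.mk' L) :=
          Subgroup.mem_map_of_mem _ ha
        have h2 : L.map (QuotientGroup.mk' L) = ⊥ := by
          rw [Subgroup.map_eq_bot_iff, QuotientGroup.ker_mk']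
        rw [Subgroup.map_sup, h2, bot_sup_eq, Subgroup.mem_map] at h1
        exact h1
      intro a ha b hb
      obtain ⟨a', ha', hea⟩ := hrep a ha
      refine ⟨[true, false], [false, true], by decide, ?_⟩
      rw [sub_mem_iff]
      simp only [ev, List.map_cons, List.map_nil, List.prod_cons, List.prod_nil, cond_true,
        cond_false, mul_one]
      rw [map_mul, map_mul, ← hea]
      exact hc a' ha' b

end Pool.Agent.IsoHnn
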