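import Mathlib
import Pool.Agent.IsoOrd.Defs
import Pool.Agent.IsoHnn.LineA

/-!
# Tools for the transfer

`mono_dual`: the action on the dual order is order preserving.
`hfin_of_lev`: bounded levels of a point stabiliser give the finiteness condition of the line
theorem.
`rel_orbit`: relative freeness of semigroups passes to orbits.
-/

set_option autoImplicit false

namespace Pool.Agent.IsoHnn

open Pool.Agent.IsoOrd

variable {G X : Type*} [Group G] [CompleteLinearOrder X] [MulAction G X]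

theorem mono_dual (hm : Mono G X) : Mono G Xᵒᵈ := by
  intro g x y h
  exact hm g (OrderDual.ofDual y) (OrderDual.ofDual x) h

/-- the order of `C` seen from the point `x`, ties broken by `P` -/
theorem cone_at (hm : Mono G X) {P : Set G} (hP : Cone ⊤ P) (C : Subgroup G) (x : X) :
    Cone C {g | g ∈ C ∧ (x < g • x ∨ (g • x = x ∧ g ∈ P))} where
  sub := fun g hg => hg.1
  mul := by
    rintro g ⟨hg1, hg2⟩ h ⟨hh1, hh2⟩
    refine ⟨mul_mem hg1 hh1, ?_⟩
    rcases hh2 with hh2 | ⟨hh2, hh3⟩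
    · left
      rw [mul_smul]
      have h1 := hm g _ _ hh2
      rcases hg2 with hg2 | ⟨hg2, _⟩
      · exact hg2.trans h1
      · rwa [hg2] at h1
    · rcases hg2 with hg2 | ⟨hg2, hg3⟩
      · left
        rw [mul_smul, hh2]
        exact hg2
      · right
        exact ⟨by rw [mul_smul, hh2, hg2], hP.mul _ hg3 _ hh3⟩
  one := by
    rintro ⟨_, h | ⟨_, h⟩⟩
    · rw [one_smul] at h
      exact lt_irrefl _ h
    · exact hP.one h
  tot := by
    intro g hg hg1
    rcases lt_trichotomy (g • x) x with h | h | h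
    · right
      exact ⟨inv_mem hg, Or.inl (lt_inv hm h)⟩
    · rcases hP.tot g (Subgroup.mem_top g) hg1 with h1 | h1
      · left
        exact ⟨hg, Or.inr ⟨h, h1⟩⟩
      · right
        exact ⟨inv_mem hg, Or.inr ⟨inv_fix h, h1⟩⟩
    · left
      exact ⟨hg, Or.inl h⟩

/-- of two elements of the same level the second moves the points moved by the first -/
theorem fix_of_lev (hm : Mono G X) {P : Set G} (hP : Cone ⊤ P) {C : Subgroup G} {lev : G → ℕ}
    (hinv : ∀ x ∈ C, lev x⁻¹ = lev x)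
    (harch : ∀ Q, Cone C Q → ∀ a ∈ Q, ∀ b ∈ Q, lev a = lev b → ∀ m : ℕ, ∃ n : ℕ,
      (a ^ m)⁻¹ * b ^ n ∈ Q ∧ b ^ n * (a ^ m)⁻¹ ∈ Q)
    {a b : G} (ha : a ∈ C) (hb : b ∈ C) (hb1 : b ≠ 1) (hab : lev a = lev b) {x : X}
    (hax : a • x ≠ x) (hbx : b • x = x) : False := by
  have key : ∀ a ∈ C, lev a = lev b → x < a • x → False := by
    intro a ha hab hax
    have hQ := cone_at hm hP C x
    have main : ∀ b ∈ C, lev a = lev b → b • x = x → b ∈ P → False := by
      intro b hb hab hbx hbP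
      obtain ⟨n, ⟨_, h1⟩, _⟩ := harch _ hQ a ⟨ha, Or.inl hax⟩ b ⟨hb, Or.inr ⟨hbx, hbP⟩⟩ hab 1
      have h2 : ((a ^ 1)⁻¹ * b ^ n) • x = a⁻¹ • x := by
        rw [pow_one, mul_smul, pow_fix hbx n]
      rw [h2] at h1
      have h3 := inv_lt hm hax
      rcases h1 with h1 | ⟨h1, _⟩
      · exact lt_asymm h1 h3
      · exact h3.ne h1
    rcases hP.tot b (Subgroup.mem_top b) hb1 with h1 | h1
    · exact main b hb hab hbx h1
    · exact main b⁻¹ (inv_mem hb) (by rw [hinv b hb, hab]) (inv_fix hbx) h1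
  rcases lt_or_gt_of_ne hax with h | h
  · exact key a⁻¹ (inv_mem ha) (by rw [hinv a ha, hab]) (lt_inv hm h)
  · exact key a ha hab h

/-- the finiteness condition of the line theorem -/
theorem hfin_of_lev (hm : Mono G X) {P : Set G} (hP : Cone ⊤ P) {C : Subgroup G}
    (hlev : LevBound C) {o : X} (ho : ∀ g : G, g • o = o → g ∈ C) (d : ℕ → G)
    (hd : ∀ k, d k • o = o) (hx : ∀ k k', k < k' → ∃ x : X, d k • x ≠ x ∧ d k' • x = x) :
    False := by
  obtain ⟨j, lev, hj, hinv, harch⟩ := hlev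
  have hC : ∀ k, d k ∈ C := fun k => ho _ (hd k)
  have h1 : ∀ k, d k ≠ 1 := by
    intro k hk
    obtain ⟨x, hx1, _⟩ := hx k (k + 1) (Nat.lt_succ_self k)
    rw [hk, one_smul] at hx1
    exact hx1 rfl
  have hnotinj : ¬ Function.Injective (fun k : Fin (j + 2) =>
      (⟨lev (d k), Nat.lt_succ_of_le (hj _ (hC k))⟩ : Fin (j + 1))) := by
    intro hinj
    have := Fintype.card_le_of_injective _ hinj
    simp at this
  rw [Function.Injective] at hnotinj
  push Not at hnotinj
  obtain ⟨k, k', hkk, hne⟩ := hnotinj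
  have hkk' : lev (d k) = lev (d k') := by simpa using congrArg Fin.val hkk
  have hne' : (k : ℕ) ≠ (k' : ℕ) := fun h => hne (Fin.ext h)
  rcases lt_or_gt_of_ne hne' with h | h
  · obtain ⟨x, hx1, hx2⟩ := hx _ _ h
    exact fix_of_lev hm hP hinv harch (hC _) (hC _) (h1 _) hkk' hx1 hx2
  · obtain ⟨x, hx1, hx2⟩ := hx _ _ h
    exact fix_of_lev hm hP hinv harch (hC _) (hC _) (h1 _) hkk'.symm hx1 hx2

/-- relative freeness passes to points fixed by the elements of `K` -/
theorem rel_orbit {E K : Subgroup G} (h : RelNFS E K) {Y : Set X}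
    (hK : ∀ k ∈ K, ∀ y ∈ Y, k • y = y) : ∀ a ∈ E, ∀ b ∈ E, ∃ w₁ w₂ : List Bool, w₁ ≠ w₂ ∧
      ∀ y ∈ Y, ev a b w₁ • y = ev a b w₂ • y := by
  intro a ha b hb
  obtain ⟨w₁, w₂, hne, hw⟩ := h a ha b hb
  refine ⟨w₁, w₂, hne, fun y hy => ?_⟩
  have h1 := hK _ hw y hy
  rw [mul_smul, inv_smul_eq_iff] at h1
  exact h1.symm

end Pool.Agent.IsoHnn
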