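import Pool.Agent.IsoHnn.Fin
import Pool.Agent.IsoHnn.Sub
import Pool.Agent.IsoHnn.Tools

/-!
# The minimal relatively convex subgroup

`M` is a group with `c M c⁻¹ ≤ M` containing `w` and `w'`, where `c` is parabolic at `o` with the
basin `(α, β)` and `o < w o < β`, `α < w' o < o`. A subgroup `H ≤ M` is relatively convex if
`g ∈ M`, `h ∈ H`, `o ≤ g o ≤ h o` imply `g ∈ H` (`RCvx`). Every relatively convex subgroup which
moves `o` contains all `c ^ n w' c ^ -n`, and `c ^ n w c ^ -n` for large `n`.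
`window_contra`: no window is hyper-NFS modulo a group which is central modulo the kernel.
-/

set_option autoImplicit false

namespace Pool.Agent.IsoHnn

open Pool.Agent.IsoOrd

variable {G X : Type*} [Group G] [CompleteLinearOrder X] [MulAction G X]

/-- `c` is parabolic at `o` with the basin `(α, β)` -/
structure Parab (c : G) (α o β : X) : Prop where
  co : c • o = o
  cα : c • α = α
  cβ : c • β = β
  hR : ∀ x : X, o < x → x < β → c • x < x
  hL : ∀ x : X, α < x → x < o → c • x < x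

/-- `H` is a relatively convex subgroup of `M` with respect to the orbit of `o` -/
structure RCvx (M H : Subgroup G) (o : X) : Prop where
  le : H ≤ M
  cvx : ∀ g ∈ M, ∀ h ∈ H, o ≤ g • o → g • o ≤ h • o → g ∈ H

variable {c : G} {α o β : X}

theorem Parab.NFR (P : Parab c α o β) : NF c o β :=
  ⟨P.co, P.cβ, fun x h1 h2 => (P.hR x h1 h2).ne⟩

theorem Parab.NFL (P : Parab c α o β) : NF c α o :=
  ⟨P.cα, P.co, fun x h1 h2 => (P.hL x h1 h2).ne⟩

theorem Parab.pow_o (P : Parab c α o β) (n : ℕ) (g : G) :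
    (c ^ n * g * (c ^ n)⁻¹) • o = c ^ n • g • o := by
  rw [mul_smul, mul_smul, inv_fix (pow_fix P.co n)]

theorem Parab.pow_up (hm : Mono G X) (P : Parab c α o β) (n : ℕ) {x : X} (h : o < x) :
    o < c ^ n • x := by
  have h1 := hm (c ^ n) _ _ h
  rwa [pow_fix P.co n] at h1

theorem Parab.pow_low (hm : Mono G X) (P : Parab c α o β) (n : ℕ) {x : X} (h : x < o) :
    c ^ n • x < o := by
  have h1 := hm (c ^ n) _ _ h
  rwa [pow_fix P.co n] at h1

theorem Parab.pow_le (hm : Mono G X) (P : Parab c α o β) (n : ℕ) {x : X} (h1 : o < x)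
    (h2 : x < β) : c ^ n • x ≤ x := by
  have h := pow_down' hm (P.hR x h1 h2) (Nat.zero_le n)
  rwa [pow_zero, one_smul] at h

theorem Parab.pow_α (hm : Mono G X) (P : Parab c α o β) (n : ℕ) {x : X} (h : α < x) :
    α < c ^ n • x := by
  have h1 := hm (c ^ n) _ _ h
  rwa [pow_fix P.cα n] at h1

theorem Parab.pow (hm : Mono G X) (P : Parab c α o β) {n : ℕ} (hn : 0 < n) :
    Parab (c ^ n) α o β where
  co := pow_fix P.co n
  cα := pow_fix P.cα n
  cβ := pow_fix P.cβ n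
  hR := fun x h1 h2 => by
    have h := Pool.Agent.IsoHnn.pow_down hm (P.hR x h1 h2) hn
    rwa [pow_zero, one_smul] at h
  hL := fun x h1 h2 => by
    have h := Pool.Agent.IsoHnn.pow_down hm (P.hL x h1 h2) hn
    rwa [pow_zero, one_smul] at h

theorem conj_pow_mem {M : Subgroup G} (hc : ∀ g ∈ M, c * g * c⁻¹ ∈ M) {g : G} (hg : g ∈ M)
    (n : ℕ) : c ^ n * g * (c ^ n)⁻¹ ∈ M := by
  induction n with
  | zero => simpa using hg
  | succ n ih =>
    have h1 := hc _ ih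
    have h2 : c * (c ^ n * g * (c ^ n)⁻¹) * c⁻¹ = c ^ (n + 1) * g * (c ^ (n + 1))⁻¹ := by
      rw [pow_succ' c n]
      group
    rwa [h2] at h1

/-- every relatively convex subgroup moving `o` contains all `c ^ m w' c ^ -m` -/
theorem RCvx.left (hm : Mono G X) (P : Parab c α o β) {M H : Subgroup G}
    (hc : ∀ g ∈ M, c * g * c⁻¹ ∈ M) (hH : RCvx M H o) (hne : ∃ h ∈ H, h • o ≠ o)
    {w w' : G} (hw : w ∈ M) (hwo : o < w • o) (hwβ : w • o < β)
    (hw' : w' ∈ M) (hwo' : w' • o < o) (hwα : α < w' • o) (m : ℕ) :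
    c ^ m * w' * (c ^ m)⁻¹ ∈ H := by
  -- an element of `H` moving `o` to the right inside the basin
  obtain ⟨h, hhH, hho, hhβ⟩ : ∃ h ∈ H, o < h • o ∧ h • o < β := by
    obtain ⟨h₀, hh₀, hne₀⟩ := hne
    obtain ⟨h, hh, ho⟩ : ∃ h ∈ H, o < h • o := by
      rcases lt_or_gt_of_ne hne₀ with h1 | h1
      · exact ⟨h₀⁻¹, inv_mem hh₀, lt_inv hm h1⟩
      · exact ⟨h₀, hh₀, h1⟩
    by_cases hβ : h • o < β
    · exact ⟨h, hh, ho, hβ⟩
    · exact ⟨w, hH.cvx w hw h hh hwo.le (hwβ.le.trans (not_lt.1 hβ)), hwo, hwβ⟩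
  have hhn : ∀ n : ℕ, c ^ n * h * (c ^ n)⁻¹ ∈ H := by
    intro n
    refine hH.cvx _ (conj_pow_mem hc (hH.le hhH) n) h hhH ?_ ?_
    · rw [P.pow_o]
      exact (P.pow_up hm n hho).le
    · rw [P.pow_o]
      exact P.pow_le hm n hho hhβ
  by_contra hcon
  have hwm := conj_pow_mem hc hw' m
  have hwmo : (c ^ m * w' * (c ^ m)⁻¹) • o < o := by
    rw [P.pow_o]
    exact P.pow_low hm m hwo'
  have hwmα : α < (c ^ m * w' * (c ^ m)⁻¹) • o := by
    rw [P.pow_o]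
    exact P.pow_α hm m hwα
  set v : G := c ^ m * w' * (c ^ m)⁻¹ with hv
  have hbelow : ∀ n : ℕ, v • o < c ^ n • h⁻¹ • o := by
    intro n
    by_contra h1
    apply hcon
    have h2 : c ^ n • h⁻¹ • o = (c ^ n * h * (c ^ n)⁻¹)⁻¹ • o := by
      have h3 : (c ^ n * h * (c ^ n)⁻¹)⁻¹ = c ^ n * h⁻¹ * (c ^ n)⁻¹ := by group
      rw [h3, P.pow_o]
    rw [h2] at h1
    set k : G := c ^ n * h * (c ^ n)⁻¹ with hk
    have hkH : k ∈ H := hhn n
    have h4 : o ≤ (k * v) • o := by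
      rw [mul_smul, ← le_iff hm k⁻¹, inv_smul_smul]
      exact not_lt.1 h1
    have h5 : (k * v) • o ≤ k • o := by
      rw [mul_smul, le_iff hm]
      exact hwmo.le
    have h6 := hH.cvx _ (mul_mem (hH.le hkH) hwm) k hkH h4 h5
    have h7 : v = k⁻¹ * (k * v) := by group
    rw [h7]
    exact mul_mem (inv_mem hkH) h6
  have hh1 : h⁻¹ • o < o := inv_lt hm hho
  have hα1 : α < h⁻¹ • o := by
    have h1 := hbelow 0
    rw [pow_zero, one_smul] at h1
    exact hwmα.trans h1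
  obtain ⟨n, hn⟩ := P.NFL.to_left hm hα1 hh1 (P.hL _ hα1 hh1) hwmα
  exact absurd (hn n le_rfl) (not_lt.2 (hbelow n).le)

/-- and `c ^ n w c ^ -n` for large `n` -/
theorem RCvx.right (hm : Mono G X) (P : Parab c α o β) {M H : Subgroup G}
    (hc : ∀ g ∈ M, c * g * c⁻¹ ∈ M) (hH : RCvx M H o) (hne : ∃ h ∈ H, h • o ≠ o)
    {w w' : G} (hw : w ∈ M) (hwo : o < w • o) (hwβ : w • o < β)
    (hw' : w' ∈ M) (hwo' : w' • o < o) (hwα : α < w' • o) :
    ∃ n₀ : ℕ, ∀ n, n₀ ≤ n → c ^ n * w * (c ^ n)⁻¹ ∈ H := by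
  have h1 := hH.left hm P hc hne hw hwo hwβ hw' hwo' hwα 0
  have h2 : w' ∈ H := by simpa using h1
  obtain ⟨n₀, hn₀⟩ := P.NFR.to_left hm hwo hwβ (P.hR _ hwo hwβ) (lt_inv hm hwo')
  refine ⟨n₀, fun n hn => hH.cvx _ (conj_pow_mem hc hw n) w'⁻¹ (inv_mem h2) ?_ ?_⟩
  · rw [P.pow_o]
    exact (P.pow_up hm n hwo).le
  · rw [P.pow_o]
    exact (hn₀ n hn).le

/-- the window of `w`, `w'` -/
def win (c w w' : G) : Subgroup G :=
  Subgroup.closure {g | ∃ n : ℕ, g = c ^ n * w * (c ^ n)⁻¹ ∨ g = c ^ n * w' * (c ^ n)⁻¹}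

theorem win_left (c w w' : G) : w ∈ win c w w' :=
  Subgroup.subset_closure ⟨0, Or.inl (by simp)⟩

theorem win_right (c w w' : G) : w' ∈ win c w w' :=
  Subgroup.subset_closure ⟨0, Or.inr (by simp)⟩

theorem win_conj (c w w' : G) (m : ℕ) {H : Subgroup G}
    (h1 : ∀ n, m ≤ n → c ^ n * w * (c ^ n)⁻¹ ∈ H)
    (h2 : ∀ n, m ≤ n → c ^ n * w' * (c ^ n)⁻¹ ∈ H) :
    ∀ g ∈ win c w w', c ^ m * g * (c ^ m)⁻¹ ∈ H := by
  intro g hg
  unfold win at hg
  induction hg using Subgroup.closure_induction with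
  | mem x hx =>
    obtain ⟨n, rfl | rfl⟩ := hx
    · have h3 := h1 (m + n) (Nat.le_add_right m n)
      have h4 : c ^ m * (c ^ n * w * (c ^ n)⁻¹) * (c ^ m)⁻¹ =
          c ^ (m + n) * w * (c ^ (m + n))⁻¹ := by
        rw [pow_add]
        group
      rwa [h4]
    · have h3 := h2 (m + n) (Nat.le_add_right m n)
      have h4 : c ^ m * (c ^ n * w' * (c ^ n)⁻¹) * (c ^ m)⁻¹ =
          c ^ (m + n) * w' * (c ^ (m + n))⁻¹ := by
        rw [pow_add]
        group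
      rwa [h4]
  | one => simp
  | mul x y _ _ hx hy =>
    have h3 : c ^ m * (x * y) * (c ^ m)⁻¹ = (c ^ m * x * (c ^ m)⁻¹) * (c ^ m * y * (c ^ m)⁻¹) := by
      group
    rw [h3]
    exact mul_mem hx hy
  | inv x _ hx =>
    have h3 : c ^ m * x⁻¹ * (c ^ m)⁻¹ = (c ^ m * x * (c ^ m)⁻¹)⁻¹ := by group
    rw [h3]
    exact inv_mem hx

theorem win_stable (c w w' : G) : ∀ g ∈ win c w w', c * g * c⁻¹ ∈ win c w w' := by
  intro g hg
  have h := win_conj c w w' 1 (H := win c w w')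
    (fun n _ => Subgroup.subset_closure ⟨n, Or.inl rfl⟩)
    (fun n _ => Subgroup.subset_closure ⟨n, Or.inr rfl⟩) g hg
  rwa [pow_one] at h

/-- no window at a parabolic point is hyper-NFS -/
theorem window_contra (hm : Mono G X) (P : Parab c α o β) {w w' : G} (hwo : o < w • o)
    (hwβ : w • o < β) (hwo' : w' • o < o) (hwα : α < w' • o)
    {K : Subgroup G}
    (hKc : ∀ k ∈ K, k ∈ win c w w' → ∀ g ∈ win c w w', ∀ h ∈ win c w w',
      (k * g * k⁻¹ * g⁻¹) • h • o = h • o)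
    (hHN : HNrel (win c w w') (K.subgroupOf (win c w w')))
    (hfin : ∀ d : ℕ → G, (∀ k, d k ∈ win c w w') → (∀ k, d k • o = o) →
      (∀ k k', k < k' → ∃ x : X, d k • x ≠ x ∧ d k' • x = x) → False) : False := by
  set M : Subgroup G := win c w w' with hM
  have hc : ∀ g ∈ M, c * g * c⁻¹ ∈ M := win_stable c w w'
  have hw : w ∈ M := win_left c w w'
  have hw' : w' ∈ M := win_right c w w'
  -- the kernel of the action on the orbit
  let K₁ : Subgroup G :=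
    { carrier := {k | k ∈ M ∧ ∀ h ∈ M, k • h • o = h • o}
      mul_mem' := by
        rintro a b ⟨ha, ha'⟩ ⟨hb, hb'⟩
        exact ⟨mul_mem ha hb, fun h hh => by rw [mul_smul, hb' h hh, ha' h hh]⟩
      one_mem' := ⟨one_mem M, fun h _ => by rw [one_smul]⟩
      inv_mem' := by
        rintro a ⟨ha, ha'⟩
        exact ⟨inv_mem ha, fun h hh => by rw [inv_smul_eq_iff, ha' h hh]⟩ }
  have hK₁n : (K₁.subgroupOf M).Normal := by
    refine ⟨fun k hk g => ?_⟩
    rw [Subgroup.mem_subgroupOf] at hk ⊢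
    refine ⟨(g * k * g⁻¹).2, fun h hh => ?_⟩
    have h1 := hk.2 ((g : G)⁻¹ * h) (mul_mem (inv_mem g.2) hh)
    simp only [Subgroup.coe_mul, Subgroup.coe_inv, mul_smul] at h1 ⊢
    rw [h1, smul_inv_smul]
  have hHN₁ : HNrel M (K₁.subgroupOf M) := by
    refine hHN.central fun k hk g => ?_
    rw [Subgroup.mem_subgroupOf] at hk ⊢
    exact ⟨(k * g * k⁻¹ * g⁻¹).2, fun h hh => hKc _ hk k.2 _ g.2 h hh⟩
  -- the minimal relatively convex subgroup
  set F : Set (Subgroup G) := {H | RCvx M H o ∧ ∃ h ∈ H, h • o ≠ o} with hF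
  have hMF : M ∈ F := ⟨⟨le_rfl, fun g hg _ _ _ _ => hg⟩, w, hw, hwo.ne'⟩
  set H₀ : Subgroup G := sInf F with hH₀
  have hH₀w : ∀ m : ℕ, c ^ m * w' * (c ^ m)⁻¹ ∈ H₀ := by
    intro m
    rw [hH₀, Subgroup.mem_sInf]
    intro H hH
    exact hH.1.left hm P hc hH.2 hw hwo hwβ hw' hwo' hwα m
  have hw'0 : w' ∈ H₀ := by simpa using hH₀w 0
  have hH₀R : RCvx M H₀ o := by
    refine ⟨sInf_le hMF, fun g hg h hh h1 h2 => ?_⟩
    rw [hH₀, Subgroup.mem_sInf] at hh ⊢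
    exact fun H hH => hH.1.cvx g hg h (hh H hH) h1 h2
  have hne : ∃ h ∈ H₀, h • o ≠ o := ⟨w', hw'0, hwo'.ne⟩
  obtain ⟨n₀, hn₀⟩ := hH₀R.right hm P hc hne hw hwo hwβ hw' hwo' hwα
  set m : ℕ := n₀ + 1 with hm0
  have hmpos : 0 < m := Nat.succ_pos _
  have hstab : ∀ g ∈ M, c ^ m * g * (c ^ m)⁻¹ ∈ H₀ :=
    win_conj c w w' m (fun n hn => hn₀ n (by omega)) (fun n _ => hH₀w n)
  have hP := P.pow hm hmpos
  have hHN₂ : HNrel H₀ (K₁.subgroupOf H₀) := by
    have h1 := hHN₁.comap hK₁n (Subgroup.inclusion hH₀R.le)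
    have h2 : (K₁.subgroupOf M).comap (Subgroup.inclusion hH₀R.le) = K₁.subgroupOf H₀ := rfl
    rwa [h2] at h1
  refine fin_contra (o := o) (β := β) (u := w' • o) (c := c ^ m) (M := H₀)
    (w := c ^ m * w * (c ^ m)⁻¹) (w' := w') (K := K₁) hm hP.co hP.cβ hP.hR
    (fun x h1 h2 => hP.hL x (hwα.trans_le h1) h2) (fun g hg => hstab g (hH₀R.le hg))
    (hn₀ m (by omega)) ?_ ?_ hw'0 hwo' le_rfl (fun k hk _ g hg => hk.2 g (hH₀R.le hg)) hHN₂ ?_
    (fun d hd1 hd2 hd3 => hfin d (fun k => hH₀R.le (hd1 k)) hd2 hd3)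
  · rw [P.pow_o]
    exact P.pow_up hm m hwo
  · rw [P.pow_o]
    exact (P.pow_le hm m hwo hwβ).trans_lt hwβ
  · intro H hH hcv
    by_cases htriv : ∀ h ∈ H, h • o = o
    · exact Or.inl htriv
    · right
      push Not at htriv
      refine le_antisymm hH ?_
      refine sInf_le ⟨⟨hH.trans hH₀R.le, fun g hg h hh h1 h2 => ?_⟩, htriv⟩
      exact hcv g (hH₀R.cvx g hg h (hH hh) h1 h2) h hh h1 h2

theorem Parab.dual (hm : Mono G X) (P : Parab c α o β) :
    Parab (X := Xᵒᵈ) c⁻¹ (OrderDual.toDual β) (OrderDual.toDual o) (OrderDual.toDual α) where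
  co := inv_fix P.co
  cα := inv_fix P.cβ
  cβ := inv_fix P.cα
  hR := fun x h1 h2 => lt_inv hm (P.hL (OrderDual.ofDual x) h2 h1)
  hL := fun x h1 h2 => lt_inv hm (P.hR (OrderDual.ofDual x) h2 h1)

/-- the same for the windows of the inverse -/
theorem window_contra_inv (hm : Mono G X) (P : Parab c α o β) {w w' : G} (hwo : o < w • o)
    (hwβ : w • o < β) (hwo' : w' • o < o) (hwα : α < w' • o)
    {K : Subgroup G}
    (hKc : ∀ k ∈ K, k ∈ win c⁻¹ w' w → ∀ g ∈ win c⁻¹ w' w, ∀ h ∈ win c⁻¹ w' w,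
      (k * g * k⁻¹ * g⁻¹) • h • o = h • o)
    (hHN : HNrel (win c⁻¹ w' w) (K.subgroupOf (win c⁻¹ w' w)))
    (hfin : ∀ d : ℕ → G, (∀ k, d k ∈ win c⁻¹ w' w) → (∀ k, d k • o = o) →
      (∀ k k', k < k' → ∃ x : X, d k • x ≠ x ∧ d k' • x = x) → False) : False :=
  window_contra (X := Xᵒᵈ) (mono_dual hm) (P.dual hm) (w := w') (w' := w) hwo' hwα hwo hwβ
    (K := K) hKc hHN hfin

end Pool.Agent.IsoHnn
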