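import Pool.Agent.IsoHnn.Min
import Pool.Agent.IsoHnn.Compl

/-!
# Primitive actions: completion and the discrete case

`Cmp ι`: `X` is a completion of the ordered `G`-set `Ω`, `ι : Ω → X`.
`dense_orbit`: if the action on the densely ordered set `Ω` is primitive then all orbits in `X`
(except `⊥` and `⊤`) are dense.
`disc_dich`: if `Ω` has two neighbours then every element is trivial or cofinal.
-/

set_option autoImplicit false

namespace Pool.Agent.IsoHnn

open Pool.Agent.IsoOrd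

section discrete

variable {G Ω : Type*} [Group G] [LinearOrder Ω] [MulAction G Ω]

private theorem parA_up (hm : Mono G Ω) {a : G} {x : Ω} (h : x < a • x) :
    StrictMono fun n : ℕ => a ^ n • x := by
  refine strictMono_nat_of_lt_succ fun n => ?_
  rw [pow_succ, mul_smul]
  exact hm _ _ _ h

private theorem parA_down (hm : Mono G Ω) {a : G} {x : Ω} (h : a • x < x) :
    StrictAnti fun n : ℕ => a ^ n • x := by
  refine strictAnti_nat_of_succ_lt fun n => ?_
  rw [pow_succ, mul_smul]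
  exact hm _ _ _ h

private theorem parA_cof (hm : Mono G Ω) (hfin : ∀ x y : Ω, (Set.Icc x y).Finite) {a : G}
    {x : Ω} (h : x < a • x) : comp a x = Set.univ := by
  have hinv : a⁻¹ • x < x := by
    have := hm a⁻¹ _ _ h
    rwa [inv_smul_smul] at this
  have h1 : ∀ z : Ω, ∃ n : ℕ, z ≤ a ^ n • x := by
    intro z
    by_contra hcon
    push Not at hcon
    refine Set.infinite_of_injective_forall_mem (parA_up hm h).injective (s := Set.Icc x z)
      (fun n => ⟨?_, (hcon n).le⟩) (hfin x z)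
    have := (parA_up hm h).monotone (Nat.zero_le n)
    simpa using this
  have h2 : ∀ z : Ω, ∃ n : ℕ, a⁻¹ ^ n • x ≤ z := by
    intro z
    by_contra hcon
    push Not at hcon
    refine Set.infinite_of_injective_forall_mem (parA_down hm hinv).injective
      (s := Set.Icc z x) (fun n => ⟨(hcon n).le, ?_⟩) (hfin z x)
    have := (parA_down hm hinv).antitone (Nat.zero_le n)
    simpa using this
  rw [Set.eq_univ_iff_forall]
  intro z
  obtain ⟨n, hn⟩ := h1 z
  obtain ⟨k, hk⟩ := h2 z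
  refine ⟨⟨-(k : ℤ), ?_⟩, ⟨(n : ℤ), ?_⟩⟩
  · rw [zpow_neg, zpow_natCast, ← inv_pow]
    exact hk
  · rw [zpow_natCast]
    exact hn

/-- the discrete case -/
theorem disc_dich (hm : Mono G Ω) (hprim : Prim G Ω) {x y : Ω} (hxy : x < y)
    (hgap : ∀ z, ¬ (x < z ∧ z < y)) (a : G) :
    (∀ x : Ω, a • x = x) ∨ (∀ x : Ω, comp a x = Set.univ) := by
  have hJ := hprim (fun x => {z | (Set.Icc x z).Finite ∧ (Set.Icc z x).Finite}) ?_ ?_ ?_ ?_
  rotate_left
  · intro x
    exact ⟨by simp, by simp⟩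
  · have hsub : ∀ x y : Ω, ((Set.Icc x y).Finite ∧ (Set.Icc y x).Finite) → ∀ z,
        ((Set.Icc y z).Finite ∧ (Set.Icc z y).Finite) →
        ((Set.Icc x z).Finite ∧ (Set.Icc z x).Finite) := by
      intro x y h z h'
      refine ⟨(h.1.union h'.1).subset ?_, (h'.2.union h.2).subset ?_⟩
      · intro t ht
        rcases le_total t y with h1 | h1
        · exact Or.inl ⟨ht.1, h1⟩
        · exact Or.inr ⟨h1, ht.2⟩
      · intro t ht
        rcases le_total t y with h1 | h1
        · exact Or.inl ⟨ht.1, h1⟩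
        · exact Or.inr ⟨h1, ht.2⟩
    intro x y hy
    ext z
    exact ⟨fun h => hsub x y hy z h, fun h => hsub y x ⟨hy.2, hy.1⟩ z h⟩
  · intro x y z w hy hw h1 h2
    refine ⟨hw.1.subset ?_, hy.2.subset ?_⟩
    · exact fun t ht => ⟨ht.1, ht.2.trans h2⟩
    · exact fun t ht => ⟨h1.trans ht.1, ht.2⟩
  · have himg : ∀ (g : G) (x y : Ω), (Set.Icc x y).Finite → (Set.Icc (g • x) (g • y)).Finite := by
      intro g x y h
      refine (h.image fun t => g • t).subset ?_
      intro t ht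
      refine ⟨g⁻¹ • t, ⟨?_, ?_⟩, smul_inv_smul g t⟩
      · by_contra h1
        have := hm g _ _ (not_le.1 h1)
        rw [smul_inv_smul] at this
        exact absurd ht.1 (not_le.2 this)
      · by_contra h1
        have := hm g _ _ (not_le.1 h1)
        rw [smul_inv_smul] at this
        exact absurd ht.2 (not_le.2 this)
    intro g x y h
    exact ⟨himg g x y h.1, himg g y x h.2⟩
  have hyJ : (Set.Icc x y).Finite ∧ (Set.Icc y x).Finite := by
    constructor
    · refine (Set.toFinite {x, y}).subset ?_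
      intro t ht
      rcases ht.1.eq_or_lt with h1 | h1
      · exact Or.inl h1.symm
      · rcases ht.2.eq_or_lt with h2 | h2
        · exact Or.inr h2
        · exact absurd ⟨h1, h2⟩ (hgap t)
    · rw [Set.Icc_eq_empty (not_le.2 hxy)]
      exact Set.finite_empty
  have hfin : ∀ x y : Ω, (Set.Icc x y).Finite := by
    rcases hJ with hJ | hJ
    · have h1 : y ∈ ({x} : Set Ω) := by
        rw [← hJ x]
        exact hyJ
      exact absurd h1 hxy.ne'
    · intro x y
      have h1 : y ∈ {z | (Set.Icc x z).Finite ∧ (Set.Icc z x).Finite} := by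
        rw [hJ x]
        exact Set.mem_univ y
      exact h1.1
  by_cases ha : ∀ x : Ω, a • x = x
  · exact Or.inl ha
  · right
    push Not at ha
    obtain ⟨x₀, hx₀⟩ := ha
    have hc : comp a x₀ = Set.univ := by
      rcases lt_or_gt_of_ne hx₀ with h | h
      · have h1 : x₀ < a⁻¹ • x₀ := by
          have := hm a⁻¹ _ _ h
          rwa [inv_smul_smul] at this
        have h2 := parA_cof hm hfin h1
        rw [Set.eq_univ_iff_forall] at h2 ⊢
        intro z
        obtain ⟨⟨m, hm'⟩, ⟨n, hn⟩⟩ := h2 z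
        refine ⟨⟨-m, ?_⟩, ⟨-n, ?_⟩⟩
        · rwa [zpow_neg, ← inv_zpow]
        · rwa [zpow_neg, ← inv_zpow]
      · exact parA_cof hm hfin h
    intro x
    have h1 : x ∈ comp a x₀ := by rw [hc]; exact Set.mem_univ x
    rw [comp_eq_of_mem hm h1, hc]

end discrete

/-- `X` is a completion of `Ω` -/
structure Cmp {G Ω X : Type*} [Group G] [LinearOrder Ω] [MulAction G Ω] [CompleteLinearOrder X]
    [MulAction G X] (ι : Ω → X) : Prop where
  hm : Mono G X
  lt : ∀ x y, ι x < ι y ↔ x < y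
  eq : ∀ (g : G) (x : Ω), ι (g • x) = g • ι x
  d1 : ∀ x y : X, x < y → ∃ w, x < ι w ∧ ι w ≤ y
  d2 : ∀ x y : X, x < y → ∃ w, x ≤ ι w ∧ ι w < y

section completion

variable {G Ω X : Type*} [Group G] [LinearOrder Ω] [MulAction G Ω] [CompleteLinearOrder X]
  [MulAction G X] {ι : Ω → X}

theorem Cmp.dens (hι : Cmp (G := G) ι) (hd : ∀ x y : Ω, x < y → ∃ z, x < z ∧ z < y)
    {x y : X} (hxy : x < y) : ∃ w, x < ι w ∧ ι w < y := by
  obtain ⟨w, h1, h2⟩ := hι.d1 x y hxy
  rcases h2.lt_or_eq with h2 | h2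
  · exact ⟨w, h1, h2⟩
  obtain ⟨w', h3, h4⟩ := hι.d2 x y hxy
  rcases h3.lt_or_eq with h3 | h3
  · exact ⟨w', h3, h4⟩
  rw [← h2, hι.lt] at h4
  obtain ⟨z, hz1, hz2⟩ := hd _ _ h4
  refine ⟨z, ?_, ?_⟩
  · rw [h3]
    exact (hι.lt _ _).2 hz1
  · rw [← h2]
    exact (hι.lt _ _).2 hz2

/-- all orbits are dense -/
theorem Cmp.dense_orbit (hι : Cmp (G := G) ι) (hprim : Prim G Ω)
    (hd : ∀ x y : Ω, x < y → ∃ z, x < z ∧ z < y) {z : X} (hz1 : ⊥ < z) (hz2 : z < ⊤)
    {x y : X} (hxy : x < y) : ∃ g : G, x < g • z ∧ g • z < y := by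
  have hm := hι.hm
  have hle : ∀ x y : Ω, x ≤ y → ι x ≤ ι y := by
    intro x y h
    rcases h.lt_or_eq with h | h
    · exact ((hι.lt _ _).2 h).le
    · rw [h]
  have hJ := hprim (fun a => {b | ∀ g : G, ι a ≤ g • z ↔ ι b ≤ g • z})
    (fun x g => Iff.rfl) (fun x y hy => by
      ext t
      exact ⟨fun h g => (hy g).trans (h g), fun h g => (hy g).symm.trans (h g)⟩)
    (fun x y t w hy hw h1 h2 g => ⟨fun h => (hle _ _ h2).trans ((hw g).1 h),
      fun h => (hy g).2 ((hle _ _ h1).trans h)⟩)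
    (fun h x y hy g => by
      rw [hι.eq, hι.eq]
      have h1 := hy (h⁻¹ * g)
      rw [mul_smul] at h1
      rw [← le_iff hm h⁻¹, inv_smul_smul, ← le_iff hm h⁻¹ (x := h • ι y), inv_smul_smul]
      exact h1)
  have hsing : ∀ a b : Ω, (∀ g : G, ι a ≤ g • z ↔ ι b ≤ g • z) → b = a := by
    rcases hJ with hJ | hJ
    · intro a b hab
      have h1 : b ∈ ({a} : Set Ω) := by
        rw [← hJ a]
        exact hab
      exact h1
    · exfalso
      obtain ⟨w, hw, -⟩ := hι.d1 z ⊤ hz2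
      obtain ⟨w', -, hw'⟩ := hι.d2 ⊥ z hz1
      have h1 : w ∈ {b | ∀ g : G, ι w' ≤ g • z ↔ ι b ≤ g • z} := by
        rw [hJ w']
        exact Set.mem_univ w
      have h2 := h1 1
      rw [one_smul] at h2
      exact absurd (h2.1 hw'.le) (not_le.2 hw)
  obtain ⟨a, ha1, ha2⟩ := hι.dens hd hxy
  obtain ⟨b, hb1, hb2⟩ := hι.dens hd ha2
  have hab : ¬ ∀ g : G, ι a ≤ g • z ↔ ι b ≤ g • z := fun h => hb1.ne' (by rw [hsing a b h])
  push Not at hab
  obtain ⟨g, hg⟩ := hab
  rcases hg with ⟨h1, h2⟩ | ⟨h1, h2⟩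
  · exact ⟨g, ha1.trans_le h1, h2.trans hb2⟩
  · exact absurd (hb1.le.trans h2) (not_le.2 h1)

end completion

end Pool.Agent.IsoHnn
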