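import Pool.Agent.IsoHnn.ParA

/-!
# The points of the completion which see the same order

`X` is the completion of `Ω = G / C`, `P` an isolated order determined by `F`. Let `S` be the set of
the `T` in `X` with `T ≤ f T` for `f ∈ F` (`Big`). `big_pos`: then `T ≤ g T` for all `g ∈ P`, and the
stabiliser of `T` is convex. `big_fix`: `C` fixes all `T ∈ S`. `near`: near `o` every `T` is in
`S` or `c T < T`. `no_right`, `no_left`: if some element moves `o` and fixes a point to the left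
(right) of `o`, there is no `T ∈ S` near `o` to the right (left).
-/

set_option autoImplicit false

namespace Pool.Agent.IsoHnn

open Pool.Agent.IsoOrd

variable {G Ω X : Type*} [Group G] [LinearOrder Ω] [MulAction G Ω] [CompleteLinearOrder X]
  [MulAction G X] {ι : Ω → X}

theorem big_pos (hm : Mono G X) {P F : Set G} (h : Isol ⊤ P F) {T : X}
    (hT : ∀ f ∈ F, T ≤ f • T) : ∀ g ∈ P, T ≤ g • T := by
  have hQ := h.uniq _ (cone_at hm h.cone ⊤ T) (fun f hf => by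
    refine ⟨Subgroup.mem_top f, ?_⟩
    rcases (hT f hf).lt_or_eq with h1 | h1
    · exact Or.inl h1
    · exact Or.inr ⟨h1.symm, h.sub hf⟩)
  intro g hg
  rw [← hQ] at hg
  rcases hg.2 with h1 | h1
  · exact h1.le
  · exact h1.1.ge

theorem big_cvx (hm : Mono G X) {P F : Set G} (h : Isol ⊤ P F) {T : X}
    (hT : ∀ f ∈ F, T ≤ f • T) : Cvx P ⊤ (MulAction.stabilizer G T) := by
  have hpos := big_pos hm h hT
  refine ⟨le_top, fun x hx y hy hyx => ?_⟩
  rw [MulAction.mem_stabilizer_iff] at hx ⊢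
  refine le_antisymm ?_ (hpos y hy)
  have h1 := hpos _ hyx
  rw [mul_smul, hx] at h1
  rwa [← le_iff hm y, smul_inv_smul] at h1

/-- elements outside `C` which move `o` to the right are positive -/
theorem Cmp.up_pos (hι : Cmp (G := G) ι) {P : Set G} (hP : Cone ⊤ P) {C : Subgroup G} {o : Ω}
    (hd : Dyn G Ω P C o) {g : G} (hg : ι o < g • ι o) : g ∈ P := by
  rw [← hι.eq, hι.lt] at hg
  have hg1 : g ≠ 1 := by
    rintro rfl
    rw [one_smul] at hg
    exact lt_irrefl _ hg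
  rcases hP.tot g (Subgroup.mem_top g) hg1 with h1 | h1
  · exact h1
  · exfalso
    have hgC : g⁻¹ ∉ C := by
      intro h2
      have h3 := (hd.stab g).2 (by simpa using C.inv_mem h2)
      rw [h3] at hg
      exact lt_irrefl _ hg
    have h2 := hd.mono g _ _ (hd.pos g⁻¹ h1 hgC)
    rw [smul_inv_smul] at h2
    exact lt_asymm hg h2

/-- `C` fixes the points of `S` -/
theorem Cmp.big_fix (hι : Cmp (G := G) ι) {P F : Set G} (h : Isol ⊤ P F) {C : Subgroup G}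
    (hC : Cvx P ⊤ C) (hne : C ≠ ⊤) {o : Ω} (hd : Dyn G Ω P C o)
    (hdn : ∀ x y : Ω, x < y → ∃ z, x < z ∧ z < y) {T : X} (hT : ∀ f ∈ F, T ≤ f • T) :
    ∀ k ∈ C, k • T = T := by
  have hm := hι.hm
  have hpos := big_pos hm h hT
  intro k hk
  by_contra hkT
  -- wlog up
  obtain ⟨k, hk, hkT⟩ : ∃ k ∈ C, T < k • T := by
    rcases lt_or_gt_of_ne hkT with h1 | h1
    · exact ⟨k⁻¹, C.inv_mem hk, lt_inv hm h1⟩
    · exact ⟨k, hk, h1⟩
  set V : Set Ω := {w | (∃ a ∈ C, a • T < ι w) ∧ ∃ b ∈ C, ι w < b • T} with hV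
  -- translates by elements of `P` outside `C`
  have h1 : ∀ g ∈ P, g ∉ C → ∀ v ∈ V, g • v ∉ V := by
    rintro g hg hgC v ⟨⟨a, ha, hav⟩, -⟩ ⟨-, b, hb, hbv⟩
    have h2 : b⁻¹ * g * a ∈ P := by
      have h3 := (hC.absorb h.cone hg hgC ha).1
      have h4 : g * a ∉ C := fun h => hgC ((C.mul_mem_cancel_right ha).1 h)
      have h5 := (hC.absorb h.cone h3 h4 (C.inv_mem hb)).2
      rwa [mul_assoc]
    have h3 := hpos _ h2
    rw [mul_smul, mul_smul, ← le_iff hm b, smul_inv_smul] at h3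
    have h4 := hm g _ _ hav
    rw [← hι.eq] at h4
    exact absurd (h3.trans_lt h4) (not_lt.2 hbv.le)
  have h2 : ∀ g : G, g ∉ C → ∀ v ∈ V, g • v ∉ V := by
    intro g hgC v hv hgv
    have hg1 : g ≠ 1 := by
      rintro rfl
      exact hgC C.one_mem
    rcases h.cone.tot g (Subgroup.mem_top g) hg1 with h3 | h3
    · exact h1 g h3 hgC v hv hgv
    · refine h1 g⁻¹ h3 (fun h4 => hgC (by simpa using C.inv_mem h4)) (g • v) hgv ?_
      rwa [inv_smul_smul]
  have h3 : ∀ g ∈ C, ∀ v ∈ V, g • v ∈ V := by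
    rintro g hg v ⟨⟨a, ha, hav⟩, b, hb, hbv⟩
    refine ⟨⟨g * a, C.mul_mem hg ha, ?_⟩, g * b, C.mul_mem hg hb, ?_⟩
    · rw [hι.eq, mul_smul]
      exact hm g _ _ hav
    · rw [hι.eq, mul_smul]
      exact hm g _ _ hbv
  obtain ⟨v, hv1, hv2⟩ := hι.dens hdn hkT
  obtain ⟨v', hv1', hv2'⟩ := hι.dens hdn hv1
  have hvV : v ∈ V := ⟨⟨1, C.one_mem, by rwa [one_smul]⟩, k, hk, hv2⟩
  have hvV' : v' ∈ V := ⟨⟨1, C.one_mem, by rwa [one_smul]⟩, k, hk, hv2'.trans hv2⟩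
  have hvv : v' < v := (hι.lt _ _).1 hv2'
  have htr : ∀ x : Ω, ∃ g : G, g⁻¹ • x ∈ V := by
    intro x
    obtain ⟨a, ha⟩ := hd.trans x
    obtain ⟨b, hb⟩ := hd.trans v
    refine ⟨a * b⁻¹, ?_⟩
    have e : (a * b⁻¹)⁻¹ • x = v := by
      rw [mul_inv_rev, inv_inv, mul_smul, ← ha, inv_smul_smul, hb]
    rw [e]
    exact hvV
  have hswap : ∀ (g h : G) (x y : Ω), g⁻¹ • x ∈ V → h⁻¹ • x ∈ V → g⁻¹ • y ∈ V →
      h⁻¹ • y ∈ V := by
    intro g h x y h4 h5 h6
    have h7 : h⁻¹ * g ∈ C := by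
      by_contra h7
      apply h2 _ h7 _ h4
      rwa [mul_smul, smul_inv_smul]
    have h8 := h3 _ h7 _ h6
    rwa [mul_smul, smul_inv_smul] at h8
  have hJ := hd.prim (fun x => {y | ∃ g : G, g⁻¹ • x ∈ V ∧ g⁻¹ • y ∈ V}) ?_ ?_ ?_ ?_
  rotate_left
  · intro x
    obtain ⟨g, hg⟩ := htr x
    exact ⟨g, hg, hg⟩
  · rintro x y ⟨g, hgx, hgy⟩
    ext z
    constructor
    · rintro ⟨h', hy', hz'⟩
      exact ⟨h', hswap g h' y x hgy hy' hgx, hz'⟩
    · rintro ⟨h', hx', hz'⟩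
      exact ⟨h', hswap g h' x y hgx hx' hgy, hz'⟩
  · rintro x y z w ⟨g, hgx, hgy⟩ ⟨h', hx', hw'⟩ hyz hzw
    refine ⟨g, hgx, ?_⟩
    have hgw := hswap h' g x w hx' hgx hw'
    have hle : ∀ a b : Ω, a ≤ b → ι (g⁻¹ • a) ≤ ι (g⁻¹ • b) := by
      intro a b hab
      rcases hab.lt_or_eq with hab | hab
      · exact ((hι.lt _ _).2 (hd.mono _ _ _ hab)).le
      · rw [hab]
    obtain ⟨⟨a, ha, hay⟩, -⟩ := hgy
    obtain ⟨-, b, hb, hbw⟩ := hgw
    exact ⟨⟨a, ha, hay.trans_le (hle _ _ hyz)⟩, b, hb, (hle _ _ hzw).trans_lt hbw⟩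
  · rintro g x y ⟨h', hx', hy'⟩
    refine ⟨g * h', ?_, ?_⟩
    · rwa [mul_inv_rev, mul_smul, inv_smul_smul]
    · rwa [mul_inv_rev, mul_smul, inv_smul_smul]
  rcases hJ with hJ | hJ
  · have h4 : v' ∈ {y | ∃ g : G, g⁻¹ • v ∈ V ∧ g⁻¹ • y ∈ V} :=
      ⟨1, by rwa [inv_one, one_smul], by rwa [inv_one, one_smul]⟩
    rw [hJ v] at h4
    exact hvv.ne h4
  · obtain ⟨g, hg⟩ : ∃ g : G, g ∉ C := by
      by_contra hcon
      push Not at hcon
      exact hne (by rw [eq_top_iff]; exact fun g _ => hcon g)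
    have h4 : g • v ∈ {y | ∃ g : G, g⁻¹ • v ∈ V ∧ g⁻¹ • y ∈ V} := by
      rw [hJ v]
      exact Set.mem_univ _
    obtain ⟨h', h5, h6⟩ := h4
    have h7 : h'⁻¹ ∈ C := by
      by_contra h7
      exact h2 _ h7 v hvV h5
    have h8 : h'⁻¹ * g ∈ C := by
      by_contra h8
      apply h2 _ h8 v hvV
      rwa [mul_smul]
    exact hg ((C.mul_mem_cancel_left h7).1 h8)

private theorem parB_fin {Y : Type*} [LinearOrder Y] {o u : Y} (hu : u < o) {A : Set Y}
    (hA : A.Finite) (h : ∀ a ∈ A, a < o) : ∃ v, v < o ∧ ∀ a ∈ A, a ≤ v := by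
  induction A, hA using Set.Finite.induction_on with
  | empty => exact ⟨u, hu, fun a ha => absurd ha (Set.notMem_empty a)⟩
  | @insert a A _ _ ih =>
    obtain ⟨v, hv, hv'⟩ := ih fun b hb => h b (Set.mem_insert_of_mem _ hb)
    refine ⟨max v a, max_lt hv (h a (Set.mem_insert _ _)), ?_⟩
    intro b hb
    rcases Set.mem_insert_iff.1 hb with rfl | hb
    · exact le_max_right _ _
    · exact (hv' b hb).trans (le_max_left _ _)

/-- near `o` -/
theorem Cmp.near (hι : Cmp (G := G) ι) {P F : Set G} (h : Isol ⊤ P F) {C : Subgroup G}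
    (hC : Cvx P ⊤ C) (hne : C ≠ ⊤) {o : Ω} (hd : Dyn G Ω P C o)
    (hdn : ∀ x y : Ω, x < y → ∃ z, x < z ∧ z < y) (htop : TopAlt P C) :
    ∃ c ∈ C, ∃ u v : X, u < ι o ∧ ι o < v ∧ ∀ T, u < T → T < v →
      c • T < T ∨ ∀ f ∈ F, T ≤ f • T := by
  have hm := hι.hm
  obtain ⟨R, hR, c, hc, halt⟩ := htop
  have hCo : ∀ k ∈ C, k • ι o = ι o := by
    intro k hk
    rw [← hι.eq, (hd.stab k).2 hk]
  -- an element moving `o`
  obtain ⟨g₀, hg₀P, hg₀C⟩ : ∃ g ∈ P, g ∉ C := by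
    by_contra hcon
    push Not at hcon
    apply hne
    rw [eq_top_iff]
    intro g _
    by_cases hg1 : g = 1
    · rw [hg1]
      exact C.one_mem
    · rcases h.cone.tot g (Subgroup.mem_top g) hg1 with h1 | h1
      · exact hcon g h1
      · simpa using C.inv_mem (hcon _ h1)
  have hposX : ∀ g ∈ P, g ∉ C → ι o < g • ι o := by
    intro g hg hgC
    rw [← hι.eq]
    exact (hι.lt _ _).2 (hd.pos g hg hgC)
  have hup := hposX g₀ hg₀P hg₀C
  have hlow := inv_lt hm hup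
  -- the bounds
  have hFfin : {f | f ∈ F ∧ f ∉ C}.Finite := h.fin.subset fun f hf => hf.1
  have hA : ((fun p : G × G => p.2⁻¹ • p.1⁻¹ • ι o) ''
      ({f | f ∈ F ∧ f ∉ C} ×ˢ (R : Set G))).Finite := (hFfin.prod R.finite_toSet).image _
  have hB : ((fun p : G × G => p.2⁻¹ • p.1 • ι o) ''
      ({f | f ∈ F ∧ f ∉ C} ×ˢ (R : Set G))).Finite := (hFfin.prod R.finite_toSet).image _
  obtain ⟨u, hu, hu'⟩ := parB_fin hlow hA (by
    rintro _ ⟨⟨f, r⟩, ⟨⟨hf, hfC⟩, hr⟩, rfl⟩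
    have hrC := hR r hr
    have h1 := hm r⁻¹ _ _ (inv_lt hm (hposX f (h.sub hf) hfC))
    rwa [hCo _ (C.inv_mem hrC)] at h1)
  obtain ⟨v, hv, hv'⟩ := parB_fin (Y := Xᵒᵈ) (o := OrderDual.toDual (ι o)) hup hB (by
    rintro _ ⟨⟨f, r⟩, ⟨⟨hf, hfC⟩, hr⟩, rfl⟩
    have hrC := hR r hr
    have h1 := hm r⁻¹ _ _ (hposX f (h.sub hf) hfC)
    rwa [hCo _ (C.inv_mem hrC)] at h1)
  refine ⟨c, hc, u, OrderDual.ofDual v, hu, hv, ?_⟩
  intro T hT1 hT2
  rcases halt _ (cone_at hm h.cone C T) with ⟨r, hr, hrP⟩ | ⟨hcP, hcQ⟩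
  · right
    have hrC := hR r hr
    have hS : ∀ f ∈ F, r • T ≤ f • r • T := by
      intro f hf
      by_cases hfC : f ∈ C
      · have h1 := (hrP f (h.sub hf) hfC).2
        have h2 : T ≤ (r⁻¹ * f * r) • T := by
          rcases h1 with h1 | h1
          · exact h1.le
          · exact h1.1.ge
        rw [mul_smul, mul_smul, ← le_iff hm r, smul_inv_smul] at h2
        exact h2
      · have h1 := hu' _ ⟨(f, r), ⟨⟨hf, hfC⟩, hr⟩, rfl⟩
        have h2 : T ≤ r⁻¹ • f • ι o := hT2.le.trans (hv' _ ⟨(f, r), ⟨⟨hf, hfC⟩, hr⟩, rfl⟩)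
        have h3 : r⁻¹ • f⁻¹ • ι o ≤ T := h1.trans hT1.le
        rw [← le_iff hm r, smul_inv_smul] at h2 h3
        rcases le_total (r • T) (ι o) with h4 | h4
        · rw [← le_iff hm f, smul_inv_smul] at h3
          exact h4.trans h3
        · have h5 := (le_iff hm f).2 h4
          exact h2.trans h5
    have hfix := hι.big_fix h hC hne hd hdn hS _ (C.inv_mem hrC)
    rw [inv_smul_smul] at hfix
    rw [← hfix] at hS
    exact hS
  · left
    rcases hcQ.2 with h1 | h1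
    · have h2 := hm c _ _ h1
      rwa [smul_inv_smul] at h2
    · exfalso
      have h2 := h.cone.mul _ hcP _ h1.2
      rw [mul_inv_cancel] at h2
      exact h.cone.one h2

/-- no point of `S` to the right of `o` below `q₀` -/
theorem Cmp.no_right (hι : Cmp (G := G) ι) {P F : Set G} (h : Isol ⊤ P F) {C : Subgroup G}
    {o : Ω} (hd : Dyn G Ω P C o) (hdn : ∀ x y : Ω, x < y → ∃ z, x < z ∧ z < y) {e : G}
    {p q : X} (he : NF e p q) (hp : ⊥ < p) (hpo : p < ι o) {T : X} (hoT : ι o < T)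
    (hTq : T < q) (hT : ∀ f ∈ F, T ≤ f • T) : False := by
  have hm := hι.hm
  have hpos := big_pos hm h hT
  wlog hup : ι o < e • ι o generalizing e
  · refine this he.inv (lt_inv hm ?_)
    exact lt_of_le_of_ne (not_lt.1 hup) (he.mov _ hpo (hoT.trans hTq))
  obtain ⟨g, hg1, hg2⟩ := hι.dense_orbit hd.prim hdn hp (hpo.trans_le le_top) hoT
  have hTup : T < e • T := he.dir hm hpo (hoT.trans hTq) hup (hpo.trans hoT) hTq
  have h1 : p < g⁻¹ • T := by
    rw [← lt_iff hm g, smul_inv_smul]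
    exact hg2
  obtain ⟨n, hn⟩ := he.inv.to_left hm (hpo.trans hoT) hTq (inv_lt hm hTup) h1
  have h2 := hn n le_rfl
  rw [← lt_iff hm g, smul_inv_smul, ← mul_smul] at h2
  have h3 : ι o < (g * e⁻¹ ^ n) • ι o := by
    rw [mul_smul]
    refine hg1.trans (hm g _ _ ?_)
    rw [← pow_fix he.inv.l n, lt_iff hm]
    exact hpo
  exact absurd (hpos _ (hι.up_pos h.cone hd h3)) (not_le.2 h2)

/-- no point of `S` to the left of `o` above `p₀` -/
theorem Cmp.no_left (hι : Cmp (G := G) ι) {P F : Set G} (h : Isol ⊤ P F) {C : Subgroup G}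
    {o : Ω} (hd : Dyn G Ω P C o) (hdn : ∀ x y : Ω, x < y → ∃ z, x < z ∧ z < y) {e : G}
    {p q : X} (he : NF e p q) (hq : q < ⊤) (hoq : ι o < q) {T : X} (hoT : T < ι o)
    (hTp : p < T) (hT : ∀ f ∈ F, T ≤ f • T) : False := by
  have hm := hι.hm
  have hpos := big_pos hm h hT
  wlog hup : ι o < e • ι o generalizing e
  · refine this he.inv (lt_inv hm ?_)
    exact lt_of_le_of_ne (not_lt.1 hup) (he.mov _ (hTp.trans hoT) hoq)
  obtain ⟨g, hg1, hg2⟩ := hι.dense_orbit hd.prim hdn (bot_lt_of_lt hoq) hq hoT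
  have hTup : T < e • T := he.dir hm (hTp.trans hoT) hoq hup hTp (hoT.trans hoq)
  have h1 : g⁻¹ • T < q := by
    rw [← lt_iff hm g, smul_inv_smul]
    exact hg1
  obtain ⟨n, hn⟩ := he.to_right hm hTp (hoT.trans hoq) hTup h1
  have h2 := hn n le_rfl
  rw [← lt_iff hm g, smul_inv_smul, ← mul_smul] at h2
  have h3 : (g * e ^ n) • ι o < ι o := by
    rw [mul_smul]
    refine (hm g _ _ ?_).trans hg2
    rw [← pow_fix he.r n, lt_iff hm]
    exact hoq
  have h4 := hpos _ (hι.up_pos h.cone hd (lt_inv hm h3))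
  rw [← le_iff hm (g * e ^ n), smul_inv_smul] at h4
  exact absurd h4 (not_le.2 h2)

end Pool.Agent.IsoHnn
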